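import Pool.Agent.Q142.TG.Ineq

/-!
# Cascades and the Kruskal-Katona inequalities
-/

set_option autoImplicit false
set_option linter.unusedSectionVars false

namespace Pool.Agent.Q142.TG

open Finset Polynomial

/-- the cascade representation of `a`: the integers `n k > ... > n j ≥ j ≥ 1` -/
def Cascade (k a j : ℕ) (n : ℕ → ℕ) : Prop :=
  1 ≤ j ∧ j ≤ k ∧ j ≤ n j ∧ (∀ i, j ≤ i → i < k → n i < n (i + 1)) ∧
    a = ∑ i ∈ Icc j k, (n i).choose i

theorem exists_cascade : ∀ k, 1 ≤ k → ∀ a, 1 ≤ a → ∃ j n, Cascade k a j n ∧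
    (n k).choose k ≤ a ∧ a < (n k + 1).choose k
  | 0, h, _, _ => absurd h (by omega)
  | k + 1, _, a, ha => by
    have hex : ∃ M : ℕ, a < M.choose (k + 1) := by
      refine ⟨a + k + 1, ?_⟩
      have h1 : ∀ b : ℕ, b + 1 ≤ (b + k + 1).choose (k + 1) := by
        intro b
        induction b with
        | zero => simp
        | succ b ih =>
          have e1 : b + 1 + k + 1 = (b + k + 1) + 1 := by ring
          rw [e1, Nat.choose_succ_succ' (b + k + 1) k]
          have h2 : 0 < (b + k + 1).choose k := Nat.choose_pos (by omega)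
          omega
      have := h1 a
      omega
    classical
    have hM := Nat.find_spec hex
    set M := Nat.find hex with hMdef
    have hmin : ∀ m, m < M → m.choose (k + 1) ≤ a := fun m hm => not_lt.1 (Nat.find_min hex hm)
    have hM1 : k + 1 < M := by
      by_contra hc
      have h2 : M.choose (k + 1) ≤ (k + 1).choose (k + 1) := Nat.choose_le_choose _ (not_lt.1 hc)
      rw [Nat.choose_self] at h2
      omega
    obtain ⟨m, hm⟩ : ∃ m, M = m + 1 := ⟨M - 1, by omega⟩
    rw [hm] at hM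
    have hma : m.choose (k + 1) ≤ a := hmin m (by omega)
    rcases hma.eq_or_lt with heq | hlt
    · refine ⟨k + 1, fun _ => m, ⟨by omega, le_rfl, ?_, fun i _ _ => by omega, ?_⟩, hma, hM⟩
      · show k + 1 ≤ m
        omega
      · rw [Icc_self, sum_singleton, heq]
    · have hk : k ≠ 0 := by
        rintro rfl
        rw [Nat.choose_one_right] at hM hlt
        omega
      have ha' : a - m.choose (k + 1) < m.choose k := by
        rw [Nat.choose_succ_succ' m k] at hM
        omega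
      obtain ⟨j, n, ⟨h1, h2, h3, h4, h5⟩, h6, h7⟩ :=
        exists_cascade k (by omega) (a - m.choose (k + 1)) (by omega)
      have hnm : n k < m := by
        by_contra hc
        have := Nat.choose_le_choose k (not_lt.1 hc)
        omega
      obtain ⟨N, hN1, hN2⟩ : ∃ N : ℕ → ℕ, N (k + 1) = m ∧ ∀ i, i ≤ k → N i = n i :=
        ⟨fun i => if i = k + 1 then m else n i, if_pos rfl, fun i hi => if_neg (by omega)⟩
      refine ⟨j, N, ⟨h1, by omega, ?_, ?_, ?_⟩, ?_, ?_⟩
      · rw [hN2 j h2]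
        exact h3
      · intro i hi hik
        rw [hN2 i (by omega)]
        by_cases hik' : i = k
        · rw [hik', hN1]
          exact hnm
        · rw [hN2 (i + 1) (by omega)]
          exact h4 i hi (by omega)
      · rw [sum_Icc_succ_top (by omega : j ≤ k + 1), hN1]
        have e1 : ∑ i ∈ Icc j k, (N i).choose i = ∑ i ∈ Icc j k, (n i).choose i := by
          refine sum_congr rfl fun i hi => ?_
          rw [mem_Icc] at hi
          rw [hN2 i hi.2]
        rw [e1, ← h5]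
        omega
      · rw [hN1]
        exact hma
      · rw [hN1]
        exact hM

theorem choose_growth (n s : ℕ) : ∀ (K D : ℕ), D + K ≤ n + 1 →
    (n + s).choose K * D ^ K ≤ n.choose K * (D + s) ^ K
  | 0, D, _ => by simp
  | K + 1, D, h => by
    have ih := choose_growth n s K D (by omega)
    have h1 := Nat.choose_succ_right_eq (n + s) K
    have h2 := Nat.choose_succ_right_eq n K
    obtain ⟨l, hl⟩ := Nat.exists_eq_add_of_le (by omega : D + K ≤ n)
    have e1 : n + s - K = D + l + s := by omega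
    have e2 : n - K = D + l := by omega
    rw [e1] at h1
    rw [e2] at h2
    have hK : 0 < K + 1 := Nat.succ_pos K
    refine Nat.le_of_mul_le_mul_left ?_ hK
    calc (K + 1) * ((n + s).choose (K + 1) * D ^ (K + 1)) =
        ((n + s).choose (K + 1) * (K + 1)) * D * D ^ K := by ring
      _ = (n + s).choose K * D ^ K * ((D + l + s) * D) := by rw [h1]; ring
      _ ≤ n.choose K * (D + s) ^ K * ((D + l + s) * D) := Nat.mul_le_mul_right _ ih
      _ ≤ n.choose K * (D + s) ^ K * ((D + l) * (D + s)) := by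
          apply Nat.mul_le_mul_left
          nlinarith [Nat.zero_le (l * s)]
      _ = (n.choose K * (D + l)) * (D + s) ^ (K + 1) := by ring
      _ = _ := by rw [← h2]; ring

theorem le_choose (r k : ℕ) (hr : 1 ≤ r) (hk : 1 ≤ k) : r + k ≤ (r + k).choose k := by
  induction k with
  | zero => omega
  | succ k ih =>
    rcases Nat.eq_zero_or_pos k with rfl | h
    · simp
    · have h1 := ih h
      have e1 : r + (k + 1) = (r + k) + 1 := by ring
      rw [e1, Nat.choose_succ_succ' (r + k) k]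
      have h2 : 0 < (r + k).choose (k + 1) := Nat.choose_pos (by omega)
      omega

theorem exp_bound (D s k r : ℕ) (hD : 0 < D) (h : 4 * k * s ≤ r * D) :
    3 ^ r * (D + s) ^ k ≤ 4 ^ r * D ^ k := by
  have hD' : (0 : ℝ) < D := by exact_mod_cast hD
  have h1 : ((D : ℝ) + s) ^ k ≤ (4 / 3) ^ r * (D : ℝ) ^ k := by
    have e1 : ((D : ℝ) + s) = D * (1 + s / D) := by
      field_simp
    have h2 : (1 + (s : ℝ) / D) ^ k ≤ Real.exp (1 / 4) ^ r := by
      have h3 : (1 + (s : ℝ) / D) ≤ Real.exp (s / D) := by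
        have := Real.add_one_le_exp ((s : ℝ) / D)
        linarith
      calc (1 + (s : ℝ) / D) ^ k ≤ Real.exp (s / D) ^ k := by
            apply pow_le_pow_left₀ _ h3
            positivity
        _ = Real.exp (k * (s / D)) := (Real.exp_nat_mul _ _).symm
        _ ≤ Real.exp (r * (1 / 4)) := by
            apply Real.exp_le_exp.2
            have h4 : (4 : ℝ) * k * s ≤ r * D := by exact_mod_cast h
            rw [← mul_div_assoc, div_le_iff₀ hD']
            linarith
        _ = Real.exp (1 / 4) ^ r := Real.exp_nat_mul _ _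
    have h5 : Real.exp (1 / 4) ≤ 4 / 3 := by
      have h6 : Real.exp (1 / 4) ^ 4 ≤ (4 / 3 : ℝ) ^ 4 := by
        rw [← Real.exp_nat_mul]
        have e2 : ((4 : ℕ) : ℝ) * (1 / 4) = 1 := by norm_num
        rw [e2]
        have := Real.exp_one_lt_d9
        norm_num at this ⊢
        linarith
      exact le_of_pow_le_pow_left₀ (by norm_num) (by norm_num) h6
    rw [e1, mul_pow, mul_comm]
    apply mul_le_mul_of_nonneg_right _ (by positivity)
    exact h2.trans (pow_le_pow_left₀ (Real.exp_pos _).le h5 r)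
  have h7 : (3 : ℝ) ^ r * ((D : ℝ) + s) ^ k ≤ 4 ^ r * (D : ℝ) ^ k := by
    calc (3 : ℝ) ^ r * ((D : ℝ) + s) ^ k ≤ 3 ^ r * ((4 / 3) ^ r * (D : ℝ) ^ k) :=
          mul_le_mul_of_nonneg_left h1 (by positivity)
      _ = _ := by
          rw [← mul_assoc, ← mul_pow]
          norm_num
  exact_mod_cast h7

theorem bern (r : ℕ) : 2 ^ r * (r + 2) ≤ 2 * 3 ^ r := by
  induction r with
  | zero => norm_num
  | succ r ih =>
    rw [pow_succ, pow_succ]
    nlinarith [Nat.zero_le (2 ^ r * r)]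

/-- **The numerical bound.** -/
theorem bound3 (k r : ℕ) (hk : 1 ≤ k) (hr : 2 ≤ r) : ∃ s, r ^ 2 ≤ 4 * (k + 1) * s ∧
    (k + 1) * (r + 2 * (k + 1) + s).choose (k + 1) ≤
      (r + 2 * (k + 1)).choose k * ((r + k).choose k * 2 ^ r) := by
  have hc := le_choose r k (by omega) hk
  by_cases h4 : 4 ≤ r
  · have hpos : 0 < 4 * (k + 1) := by omega
    obtain ⟨s, hs1, hs2⟩ : ∃ s, 4 * (k + 1) * s ≤ r ^ 2 + 4 * k + 3 ∧ r ^ 2 ≤ 4 * (k + 1) * s := by
      refine ⟨(r ^ 2 + 4 * k + 3) / (4 * (k + 1)), Nat.mul_div_le _ _, ?_⟩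
      have h5 := Nat.div_add_mod (r ^ 2 + 4 * k + 3) (4 * (k + 1))
      have h6 := Nat.mod_lt (r ^ 2 + 4 * k + 3) hpos
      omega
    refine ⟨s, hs2, ?_⟩
    have h5 := Nat.choose_succ_right_eq (r + 2 * (k + 1) + s) k
    have h6 := choose_growth (r + 2 * (k + 1)) s k (r + k + 3) (by omega)
    have h7 := exp_bound (r + k + 3) s k r (by omega) (by nlinarith)
    have h8 := bern r
    -- the first factor
    have h9 : 3 ^ r * (r + 2 * (k + 1) + s).choose k ≤ 4 ^ r * (r + 2 * (k + 1)).choose k := by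
      have hD : 0 < (r + k + 3) ^ k := by positivity
      refine Nat.le_of_mul_le_mul_right ?_ hD
      calc 3 ^ r * (r + 2 * (k + 1) + s).choose k * (r + k + 3) ^ k =
          3 ^ r * ((r + 2 * (k + 1) + s).choose k * (r + k + 3) ^ k) := by ring
        _ ≤ 3 ^ r * ((r + 2 * (k + 1)).choose k * (r + k + 3 + s) ^ k) := Nat.mul_le_mul_left _ h6
        _ = (r + 2 * (k + 1)).choose k * (3 ^ r * (r + k + 3 + s) ^ k) := by ring
        _ ≤ (r + 2 * (k + 1)).choose k * (4 ^ r * (r + k + 3) ^ k) := Nat.mul_le_mul_left _ h7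
        _ = _ := by ring
    -- the second factor
    have h10 : 2 ^ r * (r + 2 * (k + 1) + s - k) ≤ 3 ^ r * (r + k).choose k := by
      have e1 : r + 2 * (k + 1) + s - k = r + k + 2 + s := by omega
      rw [e1]
      have hs3 : 8 * s ≤ r ^ 2 + 7 := by
        rcases Nat.eq_zero_or_pos s with h0 | h0
        · omega
        · obtain ⟨t, ht⟩ := Nat.exists_eq_add_of_le h0
          rw [ht] at hs1 ⊢
          nlinarith [Nat.zero_le (k * t), Nat.mul_le_mul_right t hk]
      have h11 : 2 * (r + k + 2 + s) ≤ (r + 2) * (r + k) := by nlinarith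
      have h12 : 2 * (2 ^ r * (r + k + 2 + s)) ≤ 2 * (3 ^ r * (r + k).choose k) := by
        calc 2 * (2 ^ r * (r + k + 2 + s)) = 2 ^ r * (2 * (r + k + 2 + s)) := by ring
          _ ≤ 2 ^ r * ((r + 2) * (r + k)) := Nat.mul_le_mul_left _ h11
          _ = (2 ^ r * (r + 2)) * (r + k) := by ring
          _ ≤ (2 * 3 ^ r) * (r + k) := Nat.mul_le_mul_right _ h8
          _ ≤ (2 * 3 ^ r) * (r + k).choose k := Nat.mul_le_mul_left _ hc
          _ = _ := by ring
      omega
    have h13 : 0 < 3 ^ r := by positivity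
    refine Nat.le_of_mul_le_mul_left ?_ h13
    calc 3 ^ r * ((k + 1) * (r + 2 * (k + 1) + s).choose (k + 1)) =
        3 ^ r * ((r + 2 * (k + 1) + s).choose (k + 1) * (k + 1)) := by ring
      _ = (3 ^ r * (r + 2 * (k + 1) + s).choose k) * (r + 2 * (k + 1) + s - k) := by
          rw [h5]
          ring
      _ ≤ (4 ^ r * (r + 2 * (k + 1)).choose k) * (r + 2 * (k + 1) + s - k) :=
          Nat.mul_le_mul_right _ h9
      _ = (r + 2 * (k + 1)).choose k * 2 ^ r * (2 ^ r * (r + 2 * (k + 1) + s - k)) := by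
          have e2 : 4 ^ r = 2 ^ r * 2 ^ r := by
            rw [← mul_pow]
            norm_num
          rw [e2]
          ring
      _ ≤ (r + 2 * (k + 1)).choose k * 2 ^ r * (3 ^ r * (r + k).choose k) :=
          Nat.mul_le_mul_left _ h10
      _ = _ := by ring
  · by_cases h5 : r = 3 ∧ k = 1
    · obtain ⟨rfl, rfl⟩ := h5
      exact ⟨2, by norm_num, by decide⟩
    · refine ⟨1, ?_, ?_⟩
      · interval_cases r
        · omega
        · have : 2 ≤ k := by
            by_contra hc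
            exact h5 ⟨rfl, by omega⟩
          omega
      · have h6 := Nat.add_one_mul_choose_eq (r + 2 * (k + 1)) k
        have h7 : r + 2 * (k + 1) + 1 ≤ (r + k).choose k * 2 ^ r := by
          have h8 : 2 ^ 2 ≤ 2 ^ r := Nat.pow_le_pow_right (by norm_num) hr
          calc r + 2 * (k + 1) + 1 ≤ (r + k) * 2 ^ 2 := by omega
            _ ≤ (r + k).choose k * 2 ^ r := Nat.mul_le_mul hc h8
        calc (k + 1) * (r + 2 * (k + 1) + 1).choose (k + 1) =
            (r + 2 * (k + 1) + 1) * (r + 2 * (k + 1)).choose k := by rw [h6]; ring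
          _ ≤ ((r + k).choose k * 2 ^ r) * (r + 2 * (k + 1)).choose k := Nat.mul_le_mul_right _ h7
          _ = _ := by ring

/-- the lower bound in terms of binomial coefficients -/
theorem G0_big (n k r : ℕ) (h : r + 2 * (k + 1) = n) (hr : 2 ≤ r) :
    ∃ s, r ^ 2 ≤ 4 * (k + 1) * s ∧ (((n + s).choose (k + 1) : ℕ) : ℤ) ≤ (G0 n).coeff (k + 1) := by
  rcases Nat.eq_zero_or_pos k with rfl | hk
  · refine ⟨(r ^ 2 + 3) / 4, ?_, ?_⟩
    · omega
    · have h1 := G0_coeff n 0
      have h2 := ss_zero n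
      simp only [Nat.cast_zero, zero_add, one_mul, Nat.choose_zero_right, Nat.sub_zero] at h1
      rw [zero_add, h1, Nat.choose_one_right]
      have h3 : ∀ r, 2 ≤ r → 2 * r ^ 2 + 2 * r + 4 ≤ 2 ^ (r + 2) := by
        intro r hr
        induction r, hr using Nat.le_induction with
        | base => norm_num
        | succ r hr ih =>
          have e1 : 2 ^ (r + 1 + 2) = 2 * 2 ^ (r + 2) := by ring
          rw [e1]
          nlinarith
      have h4 := h3 r hr
      have e1 : r + 2 = n := by omega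
      rw [e1] at h4
      have h5 : n + (r ^ 2 + 3) / 4 ≤ ss n 0 := by
        have h6 : r ≤ r ^ 2 := Nat.le_self_pow (by norm_num) r
        omega
      exact_mod_cast h5
  · obtain ⟨s, h1, h2⟩ := bound3 k r hk hr
    refine ⟨s, h1, ?_⟩
    have h3 := G0_lower n k r h
    rw [h] at h2
    have h4 : (((k + 1) * (n + s).choose (k + 1) : ℕ) : ℤ) ≤ ((k : ℤ) + 1) * (G0 n).coeff (k + 1) :=
      le_trans (by exact_mod_cast h2) h3
    push_cast at h4
    exact le_of_mul_le_mul_left h4 (by positivity)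

/-- the Kruskal-Katona step -/
theorem kk_step (k r s m a b : ℕ) (hs : r ^ 2 ≤ 4 * (k + 1) * s) (hm : r + 2 * (k + 1) + s ≤ m)
    (ha : a ≤ (m + 1).choose (k + 1))
    (hb : 4 * (k + 1) * (k + 2) * b ≤ r * (r + 4 * k + 3) * a) : b ≤ m.choose (k + 2) := by
  obtain ⟨M, rfl⟩ := Nat.exists_eq_add_of_le (by omega : k + 1 ≤ m)
  have h1 := Nat.choose_mul_succ_eq (k + 1 + M) (k + 1)
  have h2 := Nat.choose_succ_right_eq (k + 1 + M) (k + 1)
  have e1 : k + 1 + M + 1 - (k + 1) = M + 1 := by omega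
  have e2 : k + 1 + M - (k + 1) = M := by omega
  rw [e1] at h1
  rw [e2] at h2
  set C := (k + 1 + M).choose (k + 1) with hC
  have hR : r * (r + 4 * k + 3) + 4 * (k + 1) ^ 2 ≤ 4 * (k + 1) * M := by
    have h3 : 4 * (k + 1) * (r + (k + 1) + s) ≤ 4 * (k + 1) * M := Nat.mul_le_mul_left _ (by omega)
    nlinarith
  have hRM : r * (r + 4 * k + 3) * (k + 1 + M + 1) ≤ 4 * (k + 1) * M * (M + 1) := by
    nlinarith [Nat.mul_le_mul_right M hR, Nat.mul_le_mul_right (k + 2) hR]
  have hpos : 0 < 4 * (k + 1) * (k + 2) * (M + 1) := by positivity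
  refine Nat.le_of_mul_le_mul_left ?_ hpos
  calc 4 * (k + 1) * (k + 2) * (M + 1) * b = (4 * (k + 1) * (k + 2) * b) * (M + 1) := by ring
    _ ≤ (r * (r + 4 * k + 3) * a) * (M + 1) := Nat.mul_le_mul_right _ hb
    _ ≤ (r * (r + 4 * k + 3) * (k + 1 + M + 1).choose (k + 1)) * (M + 1) :=
        Nat.mul_le_mul_right _ (Nat.mul_le_mul_left _ ha)
    _ = r * (r + 4 * k + 3) * ((k + 1 + M + 1).choose (k + 1) * (M + 1)) := by ring
    _ = (r * (r + 4 * k + 3) * (k + 1 + M + 1)) * C := by rw [← h1]; ring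
    _ ≤ (4 * (k + 1) * M * (M + 1)) * C := Nat.mul_le_mul_right _ hRM
    _ = 4 * (k + 1) * (M + 1) * (C * M) := by ring
    _ = _ := by rw [← h2]; ring

/-- **The Kruskal-Katona inequalities for toric g-polynomials.** -/
theorem gp_kk (d : ℕ) (h γ : ℕ → ℤ) (h0 : h 0 = 1) (hs : ∀ i, i ≤ d → h (d - i) = h i)
    (hp : ∀ i, i ≤ d → h i = ∑ j ∈ range (d / 2 + 1),
      if j ≤ i then γ j * ((d - 2 * j).choose (i - j) : ℤ) else 0)
    (hγ : ∀ j, j ≤ d / 2 → 0 ≤ γ j) :
    (gp d h).coeff 0 = 1 ∧ (∀ i, 0 ≤ (gp d h).coeff i) ∧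
      ∀ k, 1 ≤ k → k + 1 ≤ d / 2 → ∃ a : ℕ, (gp d h).coeff k = a ∧ ∃ j n, Cascade k a j n ∧
        (gp d h).coeff (k + 1) ≤ ((∑ i ∈ Icc j k, (n i).choose (i + 1) : ℕ) : ℤ) := by
  have hz : (gp d h).coeff 0 = 1 := by
    unfold gp
    rw [coeff_add, coeff_one_zero, finsetSum_coeff, sum_eq_zero, add_zero]
    intro m _
    rw [← C_eq_intCast, Polynomial.coeff_C_mul, coeff_X_pow, if_neg (by omega), mul_zero]
  have hpos : ∀ i, 0 ≤ (gp d h).coeff i := by
    intro i
    cases i with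
    | zero => rw [hz]; norm_num
    | succ i =>
      rw [gp_gamma d h γ h0 hs hp]
      apply add_nonneg _ (G0_nonneg d (i + 1))
      apply sum_nonneg
      intro j hj
      have hj' := mem_range.1 hj
      exact mul_nonneg (hγ (j + 1) (by omega)) (by positivity)
  refine ⟨hz, hpos, ?_⟩
  intro k hk hkd
  obtain ⟨κ, rfl⟩ : ∃ κ, k = κ + 1 := ⟨k - 1, by omega⟩
  obtain ⟨r, hr⟩ : ∃ r, d = r + 2 + 2 * (κ + 1) := ⟨d - 2 - 2 * (κ + 1), by omega⟩
  obtain ⟨s, hs1, hs2⟩ := G0_big d κ (r + 2) (by omega) (by omega)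
  have ha := gp_gamma d h γ h0 hs hp κ
  have hb := gp_gamma d h γ h0 hs hp (κ + 1)
  have hnn : 0 ≤ ∑ j ∈ range (d / 2), γ (j + 1) * (tt j (d - 2 * j - 2) κ : ℤ) := by
    apply sum_nonneg
    intro j hj
    have hj' := mem_range.1 hj
    exact mul_nonneg (hγ (j + 1) (by omega)) (by positivity)
  obtain ⟨a, haa⟩ := Int.eq_ofNat_of_zero_le (hpos (κ + 1))
  obtain ⟨b, hbb⟩ := Int.eq_ofNat_of_zero_le (hpos (κ + 1 + 1))
  have hab : 4 * (κ + 1) * (κ + 2) * b ≤ (r + 2) * ((r + 2) + 4 * κ + 3) * a := by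
    have h1 : 4 * ((κ : ℤ) + 1) * (κ + 2) * (gp d h).coeff (κ + 1 + 1) ≤
        ((r : ℤ) + 2) * ((r + 2) + 4 * κ + 3) * (gp d h).coeff (κ + 1) := by
      have key : ∀ A B : ℤ, (∀ j ∈ range (d / 2), A * (γ (j + 1) *
          (tt j (d - 2 * j - 2) (κ + 1) : ℤ)) ≤ B * (γ (j + 1) * (tt j (d - 2 * j - 2) κ : ℤ))) →
          A * (G0 d).coeff (κ + 1 + 1) ≤ B * (G0 d).coeff (κ + 1) →
          A * (gp d h).coeff (κ + 1 + 1) ≤ B * (gp d h).coeff (κ + 1) := by
        intro A B hA hB
        rw [ha, hb, mul_add, mul_add, mul_sum, mul_sum]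
        exact add_le_add (sum_le_sum hA) hB
      apply key
      · intro j hj
        have hj' := mem_range.1 hj
        have h2 := tt_ratio j (d - 2 * j - 2) κ (r + 1) (by omega)
        have h3 : 4 * ((κ : ℤ) + 1) * (κ + 2) * (tt j (d - 2 * j - 2) (κ + 1) : ℤ) ≤
            ((r : ℤ) + 2) * ((r + 2) + 4 * κ + 3) * (tt j (d - 2 * j - 2) κ : ℤ) := by
          have h4 : ((4 * (κ + 1) * (κ + 2) * tt j (d - 2 * j - 2) (κ + 1) : ℕ) : ℤ) ≤
              (((r + 1 + 1) * (r + 1 + 4 * κ + 4) * tt j (d - 2 * j - 2) κ : ℕ) : ℤ) := by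
            exact_mod_cast h2
          push_cast at h4
          calc 4 * ((κ : ℤ) + 1) * (κ + 2) * (tt j (d - 2 * j - 2) (κ + 1) : ℤ) ≤ _ := h4
            _ = _ := by ring
        calc 4 * ((κ : ℤ) + 1) * (κ + 2) * (γ (j + 1) * (tt j (d - 2 * j - 2) (κ + 1) : ℤ)) =
            γ (j + 1) * (4 * ((κ : ℤ) + 1) * (κ + 2) * (tt j (d - 2 * j - 2) (κ + 1) : ℤ)) := by ring
          _ ≤ γ (j + 1) * (((r : ℤ) + 2) * ((r + 2) + 4 * κ + 3) * (tt j (d - 2 * j - 2) κ : ℤ)) :=
              mul_le_mul_of_nonneg_left h3 (hγ (j + 1) (by omega))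
          _ = _ := by ring
      · have h2 := G0_ratio d κ (r + 1) (by omega)
        have h3 := G0_nonneg d (κ + 1)
        push_cast at h2
        calc 4 * ((κ : ℤ) + 1) * (κ + 2) * (G0 d).coeff (κ + 1 + 1) ≤
            ((r : ℤ) + 1 + 1) ^ 2 * (G0 d).coeff (κ + 1) := h2
          _ ≤ _ := by
              apply mul_le_mul_of_nonneg_right _ h3
              nlinarith [Int.natCast_nonneg r, Int.natCast_nonneg κ]
    rw [haa, hbb] at h1
    exact_mod_cast h1
  have hlow : (d + s).choose (κ + 1) ≤ a := by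
    have h1 : (((d + s).choose (κ + 1) : ℕ) : ℤ) ≤ (a : ℤ) := by
      have h2 : (a : ℤ) = (gp d h).coeff (κ + 1) := by rw [haa]
      rw [h2, ha]
      linarith
    exact_mod_cast h1
  have ha1 : 1 ≤ a := le_trans (Nat.choose_pos (by omega)) hlow
  obtain ⟨j, n, hcas, h5, h6⟩ := exists_cascade (κ + 1) (by omega) a ha1
  refine ⟨a, haa, j, n, hcas, ?_⟩
  have hds : d + s ≤ n (κ + 1) := by
    by_contra hc
    have := Nat.choose_le_choose (κ + 1) (by omega : n (κ + 1) + 1 ≤ d + s)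
    omega
  have h7 := kk_step κ (r + 2) s (n (κ + 1)) a b hs1 (by omega) h6.le hab
  rw [hbb]
  have h8 : (n (κ + 1)).choose (κ + 1 + 1) ≤ ∑ i ∈ Icc j (κ + 1), (n i).choose (i + 1) :=
    single_le_sum (f := fun i => (n i).choose (i + 1)) (fun i _ => Nat.zero_le _)
      (mem_Icc.2 ⟨hcas.2.1, le_rfl⟩)
  exact_mod_cast h7.trans h8

end Pool.Agent.Q142.TG
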