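import Pool.Agent.Q142.TG.Laur

/-!
# Coefficients of Laurent polynomials
-/

set_option autoImplicit false
set_option linter.unusedSectionVars false

namespace Pool.Agent.Q142.TG

open Finset
open LaurentPolynomial (T T_add)

variable {K : Type} [CommRing K]

/-- the coefficient of `z` -/
noncomputable def c1 (f : LaurentPolynomial K) : K := f.coeff 1

theorem c1_add (f g : LaurentPolynomial K) : c1 (f + g) = c1 f + c1 g := by
  unfold c1
  simp

theorem c1_sub (f g : LaurentPolynomial K) : c1 (f - g) = c1 f - c1 g := by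
  unfold c1
  simp

theorem c1_zero : c1 (0 : LaurentPolynomial K) = 0 := by
  unfold c1
  simp

theorem c1_sum {ι : Type*} (s : Finset ι) (f : ι → LaurentPolynomial K) :
    c1 (∑ i ∈ s, f i) = ∑ i ∈ s, c1 (f i) := by
  classical
  induction s using Finset.induction_on with
  | empty => simp [c1_zero]
  | insert a s ha ih => rw [sum_insert ha, sum_insert ha, c1_add, ih]

theorem coeff_C_mul (a : K) (f : LaurentPolynomial K) (n : ℤ) :
    (LaurentPolynomial.C a * f).coeff n = a * f.coeff n := by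
  have h : LaurentPolynomial.C a * f = a • f := (LaurentPolynomial.smul_eq_C_mul a f).symm
  rw [h]
  simp

theorem c1_C_mul (a : K) (f : LaurentPolynomial K) : c1 (LaurentPolynomial.C a * f) = a * c1 f :=
  coeff_C_mul a f 1

theorem c1_int_mul (a : ℤ) (f : LaurentPolynomial K) :
    c1 ((a : LaurentPolynomial K) * f) = (a : K) * c1 f := by
  have h : (a : LaurentPolynomial K) = LaurentPolynomial.C (a : K) := by simp
  rw [h, c1_C_mul]

theorem c1_C_mul_T (a : K) (n : ℤ) : c1 (LaurentPolynomial.C a * T n) = if n = 1 then a else 0 := by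
  rw [c1_C_mul]
  unfold c1
  rw [LaurentPolynomial.T_apply]
  split_ifs <;> simp

theorem uu_pow (p : K) (a : ℕ) : uu p ^ a =
    ∑ m ∈ range (a + 1), LaurentPolynomial.C ((a.choose m : K) * p ^ (a - m)) * T (m : ℤ) := by
  unfold uu
  rw [add_comm, add_pow]
  refine sum_congr rfl fun m _ => ?_
  rw [map_mul, map_pow, map_natCast, LaurentPolynomial.T_pow, mul_one]
  ring

theorem vv_pow (p q : K) (b : ℕ) : vv p q ^ b =
    ∑ m ∈ range (b + 1), LaurentPolynomial.C ((b.choose m : K) * p ^ (b - m) * (p * q) ^ m) *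
      T (-(m : ℤ)) := by
  unfold vv
  rw [add_comm, add_pow]
  refine sum_congr rfl fun m _ => ?_
  rw [mul_pow, LaurentPolynomial.T_pow]
  have : (m : ℤ) * -1 = -(m : ℤ) := by ring
  rw [this]
  simp only [map_mul, map_pow, map_natCast]
  ring

/-- the coefficient of `z` in `u ^ a v ^ b` -/
theorem c1_uv (p q : K) (a b : ℕ) : c1 (uu p ^ a * vv p q ^ b) =
    ∑ m ∈ range (b + 1), ((a.choose (m + 1) : K) * p ^ (a - (m + 1))) *
      ((b.choose m : K) * p ^ (b - m) * (p * q) ^ m) := by
  rw [uu_pow, vv_pow, mul_sum, c1_sum]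
  refine sum_congr rfl fun m _ => ?_
  rw [sum_mul, c1_sum]
  have h1 : ∀ l ∈ range (a + 1), c1 (LaurentPolynomial.C ((a.choose l : K) * p ^ (a - l)) * T (l : ℤ) *
      (LaurentPolynomial.C ((b.choose m : K) * p ^ (b - m) * (p * q) ^ m) * T (-(m : ℤ)))) =
      if l = m + 1 then ((a.choose l : K) * p ^ (a - l)) *
        ((b.choose m : K) * p ^ (b - m) * (p * q) ^ m) else 0 := by
    intro l _
    have e1 : LaurentPolynomial.C ((a.choose l : K) * p ^ (a - l)) * T (l : ℤ) *
      (LaurentPolynomial.C ((b.choose m : K) * p ^ (b - m) * (p * q) ^ m) * T (-(m : ℤ))) =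
      LaurentPolynomial.C (((a.choose l : K) * p ^ (a - l)) *
        ((b.choose m : K) * p ^ (b - m) * (p * q) ^ m)) * T ((l : ℤ) + -(m : ℤ)) := by
      rw [T_add, map_mul LaurentPolynomial.C ((a.choose l : K) * p ^ (a - l))]
      ring
    rw [e1, c1_C_mul_T]
    by_cases h : l = m + 1
    · rw [if_pos h, if_pos (by omega)]
    · rw [if_neg h, if_neg (by omega)]
  rw [sum_congr rfl h1, sum_ite_eq']
  by_cases h : m + 1 ∈ range (a + 1)
  · rw [if_pos h]
  · rw [if_neg h]
    rw [mem_range] at h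
    rw [Nat.choose_eq_zero_of_lt (by omega : a < m + 1)]
    simp

theorem c1_T_uu (p : K) (a : ℕ) : c1 (T 1 * uu p ^ a) = p ^ a := by
  rw [uu_pow, mul_sum, c1_sum]
  have h1 : ∀ m ∈ range (a + 1), c1 (T 1 * (LaurentPolynomial.C ((a.choose m : K) * p ^ (a - m)) *
      T (m : ℤ))) = if m = 0 then (a.choose m : K) * p ^ (a - m) else 0 := by
    intro m _
    have e1 : T 1 * (LaurentPolynomial.C ((a.choose m : K) * p ^ (a - m)) * T (m : ℤ)) =
        LaurentPolynomial.C ((a.choose m : K) * p ^ (a - m)) * T ((m : ℤ) + 1) := by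
      rw [T_add]
      ring
    rw [e1, c1_C_mul_T]
    by_cases h : m = 0
    · rw [if_pos h, if_pos (by omega)]
    · rw [if_neg h, if_neg (by omega)]
  rw [sum_congr rfl h1, sum_ite_eq', if_pos (mem_range.2 (by omega))]
  simp

theorem c1_T_vv (p q : K) (b : ℕ) : c1 (T (-1) * vv p q ^ b) = 0 := by
  rw [vv_pow, mul_sum, c1_sum]
  refine sum_eq_zero fun m _ => ?_
  have e1 : T (-1) * (LaurentPolynomial.C ((b.choose m : K) * p ^ (b - m) * (p * q) ^ m) *
      T (-(m : ℤ))) =
      LaurentPolynomial.C ((b.choose m : K) * p ^ (b - m) * (p * q) ^ m) * T (-(m : ℤ) + -1) := by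
    rw [T_add]
    ring
  rw [e1, c1_C_mul_T, if_neg (by omega)]

theorem c1_M0 (e : ℕ) (p q : K) : p * q * c1 (M0 e p q) + p * (p - q) ^ e = p ^ (e + 1) := by
  unfold M0
  rw [c1_sub]
  have h1 : c1 (T 1 * ∑ i ∈ range e, uu p ^ i * LaurentPolynomial.C (p - q) ^ (e - 1 - i)) =
      ∑ i ∈ range e, p ^ i * (p - q) ^ (e - 1 - i) := by
    rw [mul_sum, c1_sum]
    refine sum_congr rfl fun i _ => ?_
    have e1 : T 1 * (uu p ^ i * LaurentPolynomial.C (p - q) ^ (e - 1 - i)) =
        LaurentPolynomial.C ((p - q) ^ (e - 1 - i)) * (T 1 * uu p ^ i) := by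
      rw [map_pow]
      ring
    rw [e1, c1_C_mul, c1_T_uu]
    ring
  have h2 : c1 (LaurentPolynomial.C (p * q) * T (-1) *
      ∑ i ∈ range e, vv p q ^ i * LaurentPolynomial.C (p - q) ^ (e - 1 - i)) = 0 := by
    rw [mul_sum, c1_sum]
    refine sum_eq_zero fun i _ => ?_
    have e1 : LaurentPolynomial.C (p * q) * T (-1) *
        (vv p q ^ i * LaurentPolynomial.C (p - q) ^ (e - 1 - i)) =
        LaurentPolynomial.C (p * q * (p - q) ^ (e - 1 - i)) * (T (-1) * vv p q ^ i) := by
      rw [map_mul LaurentPolynomial.C (p * q) ((p - q) ^ (e - 1 - i)), map_pow]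
      ring
    rw [e1, c1_C_mul, c1_T_vv, mul_zero]
  rw [h1, h2, sub_zero]
  have h3 := (Commute.all p (p - q)).mul_geom_sum₂ e
  have h4 : (p - (p - q)) = q := by ring
  rw [h4] at h3
  rw [mul_assoc, h3]
  ring

/-- the coefficients of the toric g-polynomial -/
def Dm (e i m : ℕ) : ℤ := ((e - i - 1).choose (m + 1) * i.choose m : ℕ) -
  (i.choose (m + 1) * (e - i - 1).choose m : ℕ)

/-- the coefficients of the toric g-polynomial -/
def GG (e : ℕ) (h : ℕ → ℤ) (m : ℕ) : ℤ := ∑ i ∈ range (e / 2), dl h (i + 1) * Dm e i m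

theorem c1_pair (p q : K) {e i : ℕ} (hi : i < e / 2) : p * q * c1 (LaurentPolynomial.C p *
    (uu p ^ (e - i - 1) * vv p q ^ i - uu p ^ i * vv p q ^ (e - i - 1))) =
    ∑ m ∈ range (e / 2), (Dm e i m : K) * (p ^ (e - m) * q ^ (m + 1)) := by
  rw [c1_C_mul, c1_sub, c1_uv, c1_uv]
  have h1 : p * q * (p * ∑ m ∈ range (i + 1), ((e - i - 1).choose (m + 1) : K) *
      p ^ (e - i - 1 - (m + 1)) * ((i.choose m : K) * p ^ (i - m) * (p * q) ^ m)) =
      ∑ m ∈ range (e / 2), (((e - i - 1).choose (m + 1) * i.choose m : ℕ) : K) *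
        (p ^ (e - m) * q ^ (m + 1)) := by
    rw [mul_sum, mul_sum]
    rw [← sum_subset (range_subset_range.2 (by omega : i + 1 ≤ e / 2))]
    · refine sum_congr rfl fun m hm => ?_
      have hm' := mem_range.1 hm
      by_cases hc : m + 1 ≤ e - i - 1
      · have e1 : e - m = (e - i - 1 - (m + 1)) + (i - m) + m + 2 := by omega
        rw [e1, mul_pow]
        push_cast
        ring
      · rw [Nat.choose_eq_zero_of_lt (by omega : e - i - 1 < m + 1)]
        push_cast
        ring
    · intro m _ hm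
      rw [mem_range] at hm
      rw [Nat.choose_eq_zero_of_lt (by omega : i < m)]
      simp
  have h2 : p * q * (p * ∑ m ∈ range (e - i - 1 + 1), (i.choose (m + 1) : K) *
      p ^ (i - (m + 1)) * (((e - i - 1).choose m : K) * p ^ (e - i - 1 - m) * (p * q) ^ m)) =
      ∑ m ∈ range (e / 2), ((i.choose (m + 1) * (e - i - 1).choose m : ℕ) : K) *
        (p ^ (e - m) * q ^ (m + 1)) := by
    rw [mul_sum, mul_sum]
    symm
    rw [sum_subset (range_subset_range.2 (by omega : e / 2 ≤ e - i - 1 + 1))]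
    · refine sum_congr rfl fun m hm => ?_
      have hm' := mem_range.1 hm
      by_cases hc : m + 1 ≤ i
      · have e1 : e - m = (i - (m + 1)) + (e - i - 1 - m) + m + 2 := by omega
        rw [e1, mul_pow]
        push_cast
        ring
      · rw [Nat.choose_eq_zero_of_lt (by omega : i < m + 1)]
        push_cast
        ring
    · intro m _ hm
      rw [mem_range] at hm
      rw [Nat.choose_eq_zero_of_lt (by omega : i < m + 1)]
      simp
  rw [mul_sub, mul_sub, h1, h2, ← sum_sub_distrib]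
  refine sum_congr rfl fun m _ => ?_
  unfold Dm
  push_cast
  ring

/-- **The homogeneous toric g-polynomial.** -/
theorem c1_MM (e : ℕ) (h : ℕ → ℤ) (p q : K) : p * q * c1 (MM e h p q) + p * (p - q) ^ e =
    p ^ (e + 1) + ∑ m ∈ range (e / 2), (GG e h m : K) * (p ^ (e - m) * q ^ (m + 1)) := by
  unfold MM
  rw [c1_add, mul_add, add_assoc, c1_M0, c1_sum, mul_sum, add_comm]
  congr 1
  have h1 : ∀ i ∈ range (e / 2), p * q * c1 ((dl h (i + 1) : LaurentPolynomial K) *
      (LaurentPolynomial.C p *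
        (uu p ^ (e - i - 1) * vv p q ^ i - uu p ^ i * vv p q ^ (e - i - 1)))) =
      ∑ m ∈ range (e / 2), (dl h (i + 1) : K) * ((Dm e i m : K) * (p ^ (e - m) * q ^ (m + 1))) := by
    intro i hi
    rw [c1_int_mul, ← mul_sum, ← c1_pair p q (mem_range.1 hi)]
    ring
  rw [sum_congr rfl h1, sum_comm]
  refine sum_congr rfl fun m _ => ?_
  unfold GG
  push_cast
  rw [sum_mul]
  exact sum_congr rfl fun i _ => by ring

end Pool.Agent.Q142.TG
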