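import Pool.Agent.Q142.TG.Node

/-!
# Numbers of faces of simple cones
-/

set_option autoImplicit false
set_option linter.unusedSectionVars false

namespace Pool.Agent.Q142.TG

open Finset
open Pool.Agent.Helper715
open Pool.Agent.Helper715.CP

variable {W : Type} [NormedAddCommGroup W] [InnerProductSpace ℝ W] [FiniteDimensional ℝ W]

variable {P : CP W}

open Classical in
/-- the faces -/
noncomputable def Fs (P : CP W) : Finset (Finset W) := P.V.powerset.filter fun A => P.Cl A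

theorem mem_Fs {A : Finset W} : A ∈ Fs P ↔ P.Cl A := by
  classical
  unfold Fs
  rw [mem_filter, mem_powerset]
  exact ⟨fun h => h.2, fun h => ⟨h.sub, h⟩⟩

theorem exists_ray {F : Finset W} (hF : P.Cl F) (hd : 1 ≤ dm F) : ∃ a : P.Lev 1, a.1 ⊆ F := by
  obtain ⟨C, h1, _, h3, h4⟩ := exists_cover bot_cl hF (bot_le hF) (by
    rintro rfl
    rw [dm_bot] at hd
    omega)
  exact ⟨⟨C, h1, by rw [h4, dm_bot]⟩, h3⟩

open Classical in
/-- sets between two sets -/
theorem card_between {α : Type} (A B : Finset α) (h : A ⊆ B) (m : ℕ) :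
    (B.powerset.filter fun T => A ⊆ T ∧ T.card = m).card =
      if A.card ≤ m then (B.card - A.card).choose (m - A.card) else 0 := by
  by_cases hm : A.card ≤ m
  · rw [if_pos hm, ← card_sdiff_of_subset h, ← card_powersetCard]
    refine card_bij (fun T _ => T \ A) ?_ ?_ ?_
    · intro T hT
      rw [mem_filter, mem_powerset] at hT
      rw [mem_powersetCard]
      refine ⟨sdiff_subset_sdiff hT.1 (Subset.refl _), ?_⟩
      rw [card_sdiff_of_subset hT.2.1, hT.2.2]
    · intro T hT T' hT' h'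
      rw [mem_filter] at hT hT'
      rw [← sdiff_union_of_subset hT.2.1, h', sdiff_union_of_subset hT'.2.1]
    · intro U hU
      rw [mem_powersetCard] at hU
      have hdis : Disjoint U A := by
        rw [Finset.disjoint_left]
        intro x hx
        exact (mem_sdiff.1 (hU.1 hx)).2
      refine ⟨U ∪ A, ?_, ?_⟩
      · rw [mem_filter, mem_powerset]
        refine ⟨union_subset (hU.1.trans sdiff_subset) h, subset_union_right, ?_⟩
        rw [card_union_of_disjoint hdis, hU.2]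
        omega
      · rw [union_sdiff_right, sdiff_eq_self_of_disjoint hdis]
  · rw [if_neg hm, card_eq_zero, filter_eq_empty_iff]
    rintro T _ ⟨h1, h2⟩
    exact hm (h2 ▸ card_le_card h1)

section simple

variable {d : ℕ} (hW : Module.finrank ℝ W = d + 1) (hd : ∀ a : P.Lev 1, (Ed a).card = d)
include hW hd

open Classical in
/-- intervals of faces are Boolean -/
theorem card_interval {F G : Finset W} (hF : P.Cl F) (hG : P.Cl G) (hFG : F ⊆ G) (h1 : 1 ≤ dm F)
    (r : ℕ) : ((Fs P).filter fun H => F ⊆ H ∧ H ⊆ G ∧ dm H = r).card =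
      if dm F ≤ r then (dm G - dm F).choose (r - dm F) else 0 := by
  obtain ⟨a, ha⟩ := exists_ray hF h1
  have haG : a.1 ⊆ G := ha.trans hFG
  have hdF := dm_face a hW (hd a) hF ha
  have hdG := dm_face a hW (hd a) hG haG
  by_cases hr : dm F ≤ r
  · rw [if_pos hr]
    have h2 := card_between (Tr a F) (Tr a G) (Tr_mono hFG) (r - 1)
    rw [if_pos (by omega)] at h2
    have e1 : (Tr a G).card - (Tr a F).card = dm G - dm F := by omega
    have e2 : r - 1 - (Tr a F).card = r - dm F := by omega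
    rw [e1, e2] at h2
    rw [← h2]
    refine card_bij (fun H _ => Tr a H) ?_ ?_ ?_
    · intro H hH
      rw [mem_filter, mem_Fs] at hH
      obtain ⟨hH1, hH2, hH3, hH4⟩ := hH
      rw [mem_filter, mem_powerset]
      refine ⟨Tr_mono hH3, Tr_mono hH2, ?_⟩
      have := dm_face a hW (hd a) hH1 (ha.trans hH2)
      omega
    · intro H hH H' hH' h'
      rw [mem_filter, mem_Fs] at hH hH'
      apply Subset.antisymm
      · exact sub_of_Tr a hH.1 hH'.1 (ha.trans hH.2.1) (ha.trans hH'.2.1) h'.subset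
      · exact sub_of_Tr a hH'.1 hH.1 (ha.trans hH'.2.1) (ha.trans hH.2.1) h'.symm.subset
    · intro T hT
      rw [mem_filter, mem_powerset] at hT
      obtain ⟨hT1, hT2, hT3⟩ := hT
      obtain ⟨H, hH1, hH2, hH3⟩ := exists_face a hW (hd a) T (hT1.trans (filter_subset _ _))
      refine ⟨H, ?_, hH3⟩
      rw [mem_filter, mem_Fs]
      refine ⟨hH1, ?_, ?_, ?_⟩
      · exact sub_of_Tr a hF hH1 ha hH2 (by rw [hH3]; exact hT2)
      · exact sub_of_Tr a hH1 hG hH2 haG (by rw [hH3]; exact hT1)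
      · rw [dm_face a hW (hd a) hH1 hH2, hH3, hT3]
        omega
  · rw [if_neg hr, card_eq_zero, filter_eq_empty_iff]
    rintro H _ ⟨h2, _, h4⟩
    exact hr (h4 ▸ dm_mono h2)

end simple

/-! ### Orientations -/

/-- the face `c` goes up from the level `t` -/
def Upr (P : CP W) (y : W) (t : ℝ) (c : Finset W) : Prop := ∃ x ∈ c, 0 < inner ℝ (y - t • P.gs P.bot) x

open Classical in
/-- the rays of `G` -/
noncomputable def Nd (G : Finset W) : Finset (P.Lev 1) := univ.filter fun a => a.1 ⊆ G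

theorem mem_Nd {G : Finset W} {a : P.Lev 1} : a ∈ Nd G ↔ a.1 ⊆ G := by
  classical
  unfold Nd
  rw [mem_filter]
  exact ⟨fun h => h.2, fun h => ⟨mem_univ _, h⟩⟩

open Classical in
/-- the two-dimensional faces of `G` through `a` which go up -/
noncomputable def Ut (y : W) (ρ : P.Lev 1 → ℝ) (a : P.Lev 1) (G : Finset W) : Finset (P.Lev 2) :=
  (Tr a G).filter fun c => Upr P y (ρ a) c.1

section orient

variable {y : W} {ρ : P.Lev 1 → ℝ}
  (hρ : ∀ a : P.Lev 1, ∀ x ∈ a.1, inner ℝ y x = ρ a * inner ℝ (P.gs P.bot) x)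
include hρ

theorem not_up_neg {a : P.Lev 1} {c : P.Lev 2} (hc : a.1 ⊆ c.1) (h : Upr P y (ρ a) c.1) :
    ¬ Upr P (-y) (-ρ a) c.1 := by
  rintro ⟨x', hx', hpos'⟩
  obtain ⟨x, hx, hpos⟩ := h
  obtain ⟨r, hr⟩ := Ed_ratio hc (z_zero hρ a)
  have e : -y - (-ρ a) • P.gs P.bot = -(y - ρ a • P.gs P.bot) := by
    rw [neg_smul]
    abel
  rw [e, inner_neg_left, hr x' hx'] at hpos'
  rw [hr x hx] at hpos
  have h1 := gs_nonneg (P := P) a.1 (c.cl.sub hx)
  have h2 := gs_nonneg (P := P) a.1 (c.cl.sub hx')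
  have h3 : 0 < r := by
    by_contra h
    push Not at h
    have := mul_nonneg (neg_nonneg.2 h) h1
    rw [neg_mul] at this
    linarith
  have h4 := mul_nonneg h3.le h2
  linarith

theorem up_or (hinj : Function.Injective ρ) {a : P.Lev 1} {c : P.Lev 2} (hc : a.1 ⊆ c.1) :
    Upr P y (ρ a) c.1 ∨ Upr P (-y) (-ρ a) c.1 := by
  obtain ⟨a1, a2, hne, hall⟩ := two_nodes (P := P) c
  obtain ⟨b, hb, hba⟩ : ∃ b : P.Lev 1, b.1 ⊆ c.1 ∧ b ≠ a := by
    rcases (hall a).1 hc with h | h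
    · exact ⟨a2, (hall a2).2 (Or.inr rfl), by rw [h]; exact hne.symm⟩
    · exact ⟨a1, (hall a1).2 (Or.inl rfl), by rw [h]; exact hne⟩
  rcases lt_or_gt_of_ne (fun h => hba (hinj h) : ρ b ≠ ρ a) with h | h
  · right
    have hρ' : ∀ a : P.Lev 1, ∀ x ∈ a.1, inner ℝ (-y) x = (-ρ a) * inner ℝ (P.gs P.bot) x := by
      intro a x hx
      rw [inner_neg_left, hρ a x hx]
      ring
    obtain ⟨x, hx, hpos⟩ := pos_of_gt (ρ := fun a => -ρ a) hρ' (v := a) (w := b) (by
      show -ρ a < -ρ b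
      linarith)
    exact ⟨x, hb hx, hpos⟩
  · left
    obtain ⟨x, hx, hpos⟩ := pos_of_gt hρ (v := a) (w := b) h
    exact ⟨x, hb hx, hpos⟩

theorem min_iff (hinj : Function.Injective ρ) {a : P.Lev 1} {F : Finset W} (hF : P.Cl F)
    (ha : a.1 ⊆ F) : (∀ b : P.Lev 1, b.1 ⊆ F → ρ a ≤ ρ b) ↔ ∀ c ∈ Tr a F, Upr P y (ρ a) c.1 := by
  have hρ' : ∀ a : P.Lev 1, ∀ x ∈ a.1, inner ℝ (-y) x = (-ρ a) * inner ℝ (P.gs P.bot) x := by
    intro a x hx
    rw [inner_neg_left, hρ a x hx]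
    ring
  constructor
  · intro h c hc
    rw [mem_Tr] at hc
    obtain ⟨a1, a2, hne, hall⟩ := two_nodes (P := P) c
    obtain ⟨b, hb, hba⟩ : ∃ b : P.Lev 1, b.1 ⊆ c.1 ∧ b ≠ a := by
      rcases (hall a).1 hc.1 with h | h
      · exact ⟨a2, (hall a2).2 (Or.inr rfl), by rw [h]; exact hne.symm⟩
      · exact ⟨a1, (hall a1).2 (Or.inl rfl), by rw [h]; exact hne⟩
    have h1 := h b (hb.trans hc.2)
    have h2 : ρ a ≠ ρ b := fun h' => hba (hinj h').symm
    obtain ⟨x, hx, hpos⟩ := pos_of_gt hρ (v := a) (w := b) (lt_of_le_of_ne h1 h2)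
    exact ⟨x, hb hx, hpos⟩
  · intro h b hb
    by_contra hlt
    push Not at hlt
    obtain ⟨x, hx, hpos⟩ := pos_of_gt (ρ := fun a => -ρ a) hρ' (v := a) (w := b) (by
      show -ρ a < -ρ b
      linarith)
    obtain ⟨C, h1, h2, h3, h4, z, hz, hzpos⟩ := cover_up a.cl hF ha
      (z_zero (ρ := fun a => -ρ a) hρ' a) ⟨x, hb hx, hpos⟩
    have hdim : dm C = 2 := by rw [h4, a.dim]
    have h5 := h ⟨C, h1, hdim⟩ (mem_Tr.2 ⟨h2, h3⟩)
    exact not_up_neg hρ (c := ⟨C, h1, hdim⟩) h2 h5 ⟨z, hz, hzpos⟩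

open Classical in
theorem Ut_neg (hinj : Function.Injective ρ) (a : P.Lev 1) (G : Finset W) :
    (Ut (-y) (fun a => -ρ a) a G).card + (Ut y ρ a G).card = (Tr a G).card := by
  have h : Ut (-y) (fun a => -ρ a) a G = (Tr a G).filter fun c => ¬ Upr P y (ρ a) c.1 := by
    ext c
    unfold Ut
    rw [mem_filter, mem_filter]
    constructor
    · rintro ⟨h1, h2⟩
      exact ⟨h1, fun h3 => not_up_neg hρ (mem_Tr.1 h1).1 h3 h2⟩
    · rintro ⟨h1, h2⟩
      rcases up_or hρ hinj (mem_Tr.1 h1).1 with h | h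
      · exact absurd h h2
      · exact ⟨h1, h⟩
  rw [h, add_comm]
  exact card_filter_add_card_filter_not _

open Classical in
/-- exactly one ray is the highest one -/
theorem top_unique (hinj : Function.Injective ρ) {G : Finset W} (hG : P.Cl G) (h1 : 1 ≤ dm G) :
    ((Nd G : Finset (P.Lev 1)).filter fun a => (Ut y ρ a G).card = 0).card = 1 := by
  have hρ' : ∀ a : P.Lev 1, ∀ x ∈ a.1, inner ℝ (-y) x = (-ρ a) * inner ℝ (P.gs P.bot) x := by
    intro a x hx
    rw [inner_neg_left, hρ a x hx]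
    ring
  have hinj' : Function.Injective fun a => -ρ a := fun a b h => hinj (neg_injective h)
  have key : ∀ a : P.Lev 1, a.1 ⊆ G → ((Ut y ρ a G).card = 0 ↔ ∀ b : P.Lev 1, b.1 ⊆ G → ρ b ≤ ρ a) := by
    intro a ha
    have h2 := min_iff (ρ := fun a => -ρ a) hρ' hinj' hG ha
    have h3 : (∀ b : P.Lev 1, b.1 ⊆ G → ρ b ≤ ρ a) ↔ ∀ b : P.Lev 1, b.1 ⊆ G → -ρ a ≤ -ρ b := by
      constructor
      · intro h b hb
        exact neg_le_neg (h b hb)
      · intro h b hb
        exact neg_le_neg_iff.1 (h b hb)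
    rw [h3, h2, card_eq_zero]
    unfold Ut
    rw [filter_eq_empty_iff]
    constructor
    · intro h c hc
      rcases up_or hρ hinj (mem_Tr.1 hc).1 with h4 | h4
      · exact absurd h4 (h hc)
      · exact h4
    · intro h c hc h4
      exact not_up_neg hρ (mem_Tr.1 hc).1 h4 (h c hc)
  obtain ⟨a0, ha0⟩ := exists_ray hG h1
  obtain ⟨m, hm, hmax⟩ := exists_max_image (Nd G : Finset (P.Lev 1)) ρ ⟨a0, mem_Nd.2 ha0⟩
  rw [card_eq_one]
  refine ⟨m, ?_⟩
  ext a
  rw [mem_filter, mem_singleton, mem_Nd]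
  constructor
  · rintro ⟨h2, h3⟩
    have h4 := (key a h2).1 h3 m (mem_Nd.1 hm)
    have h5 := hmax a (mem_Nd.2 h2)
    exact hinj (le_antisymm h5 h4)
  · rintro rfl
    exact ⟨mem_Nd.1 hm, (key a (mem_Nd.1 hm)).2 fun b hb => hmax b (mem_Nd.2 hb)⟩

variable {d : ℕ} (hW : Module.finrank ℝ W = d + 1) (hd : ∀ a : P.Lev 1, (Ed a).card = d)
include hW hd

open Classical in
/-- face numbers in terms of the numbers of ascending edges -/
theorem faces_up (hinj : Function.Injective ρ) {G : Finset W} (hG : P.Cl G) (i : ℕ) :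
    ((Fs P).filter fun F => F ⊆ G ∧ dm F = i + 1).card =
      ∑ a ∈ (Nd G : Finset (P.Lev 1)), (Ut y ρ a G).card.choose i := by
  have hmin : ∀ F : Finset W, ∃ a : P.Lev 1, P.Cl F → 1 ≤ dm F →
      a.1 ⊆ F ∧ ∀ b : P.Lev 1, b.1 ⊆ F → ρ a ≤ ρ b := by
    intro F
    by_cases hF : P.Cl F ∧ 1 ≤ dm F
    · obtain ⟨a0, ha0⟩ := exists_ray hF.1 hF.2
      obtain ⟨m, hm, hmin⟩ := exists_min_image (Nd F : Finset (P.Lev 1)) ρ ⟨a0, mem_Nd.2 ha0⟩
      exact ⟨m, fun _ _ => ⟨mem_Nd.1 hm, fun b hb => hmin b (mem_Nd.2 hb)⟩⟩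
    · by_cases hne : Nonempty (P.Lev 1)
      · exact ⟨hne.some, fun h1 h2 => absurd ⟨h1, h2⟩ hF⟩
      · by_cases h1 : 1 ≤ dm P.V
        · obtain ⟨a0, _⟩ := exists_ray (P := P) top_cl h1
          exact absurd ⟨a0⟩ hne
        · exfalso
          apply h1
          rw [dm_top, hW]
          omega
  choose μ hμ using hmin
  rw [card_eq_sum_card_fiberwise (f := μ) (t := (Nd G : Finset (P.Lev 1)))]
  · refine sum_congr rfl fun a ha => ?_
    have haG := mem_Nd.1 ha
    rw [← card_powersetCard]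
    refine card_bij (fun F _ => Tr a F) ?_ ?_ ?_
    · intro F hF
      rw [mem_filter, mem_filter, mem_Fs] at hF
      obtain ⟨⟨h1, h2, h3⟩, h4⟩ := hF
      obtain ⟨h5, h6⟩ := hμ F h1 (by omega)
      rw [h4] at h5 h6
      rw [mem_powersetCard]
      constructor
      · intro c hc
        unfold Ut
        rw [mem_filter]
        exact ⟨Tr_mono h2 hc, (min_iff hρ hinj h1 h5).1 h6 c hc⟩
      · have := dm_face a hW (hd a) h1 h5
        omega
    · intro F hF F' hF' h
      rw [mem_filter, mem_filter, mem_Fs] at hF hF'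
      obtain ⟨⟨h1, h2, h3⟩, h4⟩ := hF
      obtain ⟨⟨h1', h2', h3'⟩, h4'⟩ := hF'
      have h5 := (hμ F h1 (by omega)).1
      have h5' := (hμ F' h1' (by omega)).1
      rw [h4] at h5
      rw [h4'] at h5'
      exact Subset.antisymm (sub_of_Tr a h1 h1' h5 h5' h.subset)
        (sub_of_Tr a h1' h1 h5' h5 h.symm.subset)
    · intro T hT
      rw [mem_powersetCard] at hT
      obtain ⟨hT1, hT2⟩ := hT
      have hT3 : T ⊆ Tr a G := hT1.trans (filter_subset _ _)
      obtain ⟨F, hF1, hF2, hF3⟩ := exists_face a hW (hd a) T (hT3.trans (filter_subset _ _))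
      have hFG : F ⊆ G := sub_of_Tr a hF1 hG hF2 haG (by rw [hF3]; exact hT3)
      have hdF : dm F = i + 1 := by rw [dm_face a hW (hd a) hF1 hF2, hF3, hT2]
      refine ⟨F, ?_, hF3⟩
      rw [mem_filter, mem_filter, mem_Fs]
      refine ⟨⟨hF1, hFG, hdF⟩, ?_⟩
      obtain ⟨h5, h6⟩ := hμ F hF1 (by omega)
      have h7 : ∀ b : P.Lev 1, b.1 ⊆ F → ρ a ≤ ρ b := by
        rw [min_iff hρ hinj hF1 hF2]
        intro c hc
        rw [hF3] at hc
        exact (mem_filter.1 (hT1 hc)).2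
      exact hinj (le_antisymm (h6 a hF2) (h7 _ h5))
  · intro F hF
    rw [mem_coe, mem_filter, mem_Fs] at hF
    obtain ⟨h1, h2, h3⟩ := hF
    rw [mem_coe, mem_Nd]
    exact (hμ F h1 (by omega)).1.trans h2

end orient

end Pool.Agent.Q142.TG
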