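import Pool.Agent.Q142.TG.Transfer
import Pool.Agent.Q142.TG.Casc

/-!
# Toric g-polynomials of simple polytopes
-/

set_option autoImplicit false
set_option linter.unusedSectionVars false

namespace Pool.Agent.Q142.TG

open Finset Polynomial

/-- palindromic polynomials have gamma-vectors -/
theorem exists_gamma : ∀ (e : ℕ) (h : ℕ → ℤ), (∀ i, i ≤ e → h (e - i) = h i) →
    ∃ γ : ℕ → ℤ, ∑ i ∈ range (e + 1), C (h i) * (X : ℤ[X]) ^ i =
      ∑ j ∈ range (e / 2 + 1), C (γ j) * (X ^ j * (1 + X) ^ (e - 2 * j))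
  | 0, h, _ => ⟨h, by simp⟩
  | 1, h, hs => by
    have h1 : h 1 = h 0 := hs 0 (by norm_num)
    refine ⟨h, ?_⟩
    norm_num [sum_range_succ]
    rw [h1]
    ring
  | e + 2, h, hs => by
    obtain ⟨γ, hγ⟩ := exists_gamma e (fun i => h (i + 1) - h 0 * ((e + 2).choose (i + 1) : ℤ)) (by
      intro i hi
      have h1 := hs (i + 1) (by omega)
      have e1 : e + 2 - (i + 1) = e - i + 1 := by omega
      rw [e1] at h1
      have h2 := Nat.choose_symm (n := e + 2) (k := i + 1) (by omega)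
      rw [e1] at h2
      show h (e - i + 1) - h 0 * ((e + 2).choose (e - i + 1) : ℤ) =
        h (i + 1) - h 0 * ((e + 2).choose (i + 1) : ℤ)
      rw [h1, h2])
    refine ⟨fun j => if j = 0 then h 0 else γ (j - 1), ?_⟩
    have h0 : h (e + 2) = h 0 := by
      have := hs 0 (by omega)
      simpa using this
    have hdiv : (e + 2) / 2 + 1 = e / 2 + 1 + 1 := by omega
    rw [hdiv, sum_range_succ' _ (e / 2 + 1)]
    have e1 : ∑ j ∈ range (e / 2 + 1), C (if j + 1 = 0 then h 0 else γ (j + 1 - 1)) *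
        ((X : ℤ[X]) ^ (j + 1) * (1 + X) ^ (e + 2 - 2 * (j + 1))) =
        X * ∑ i ∈ range (e + 1), C (h (i + 1) - h 0 * ((e + 2).choose (i + 1) : ℤ)) *
          (X : ℤ[X]) ^ i := by
      rw [hγ, mul_sum]
      refine sum_congr rfl fun j _ => ?_
      have e2 : e + 2 - 2 * (j + 1) = e - 2 * j := by omega
      rw [if_neg (by omega), e2, Nat.add_sub_cancel, pow_succ]
      ring
    have e0 : (if (0 : ℕ) = 0 then h 0 else γ (0 - 1)) = h 0 := if_pos rfl
    rw [e1]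
    show _ = _ + C (if (0 : ℕ) = 0 then h 0 else γ (0 - 1)) * _
    rw [e0]
    have e3 : C (h 0) * ((X : ℤ[X]) ^ 0 * (1 + X) ^ (e + 2 - 2 * 0)) =
        ∑ i ∈ range (e + 2 + 1), C (h 0 * ((e + 2).choose i : ℤ)) * (X : ℤ[X]) ^ i := by
      rw [pow_zero, one_mul, mul_zero, Nat.sub_zero, add_comm (1 : ℤ[X]) X, add_pow, mul_sum]
      refine sum_congr rfl fun i _ => ?_
      rw [one_pow, mul_one, map_mul]
      simp only [map_natCast]
      ring
    rw [e3, sum_range_succ (fun i => C (h i) * (X : ℤ[X]) ^ i),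
      sum_range_succ' (fun i => C (h i) * (X : ℤ[X]) ^ i),
      sum_range_succ (fun i => C (h 0 * ((e + 2).choose i : ℤ)) * (X : ℤ[X]) ^ i),
      sum_range_succ' (fun i => C (h 0 * ((e + 2).choose i : ℤ)) * (X : ℤ[X]) ^ i), h0,
      Nat.choose_self, Nat.choose_zero_right, mul_sum]
    have e4 : ∀ i ∈ range (e + 1), C (h (i + 1)) * (X : ℤ[X]) ^ (i + 1) =
        X * (C (h (i + 1) - h 0 * ((e + 2).choose (i + 1) : ℤ)) * (X : ℤ[X]) ^ i) +
          C (h 0 * ((e + 2).choose (i + 1) : ℤ)) * (X : ℤ[X]) ^ (i + 1) := by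
      intro i _
      rw [map_sub, pow_succ]
      ring
    rw [sum_congr rfl e4, sum_add_distrib]
    push_cast
    rw [mul_one]
    ring

/-- from the face numbers to the h-polynomial -/
theorem h_poly (e : ℕ) (h : ℕ → ℤ) (f : ℕ → ℕ)
    (hf : ∀ i, (f i : ℤ) = ∑ j ∈ range (e + 1), h j * (j.choose i : ℤ)) :
    ∑ i ∈ range (e + 1), C (f i : ℤ) * ((X : ℤ[X]) - 1) ^ i =
      ∑ i ∈ range (e + 1), C (h i) * (X : ℤ[X]) ^ i := by
  have h1 : ∀ i ∈ range (e + 1), C (f i : ℤ) * ((X : ℤ[X]) - 1) ^ i =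
      ∑ j ∈ range (e + 1), C (h j) * (((j.choose i : ℕ) : ℤ[X]) * ((X : ℤ[X]) - 1) ^ i) := by
    intro i _
    rw [hf i, map_sum, sum_mul]
    refine sum_congr rfl fun j _ => ?_
    rw [map_mul]
    simp only [map_natCast]
    ring
  rw [sum_congr rfl h1, sum_comm]
  refine sum_congr rfl fun j hj => ?_
  have hj' := mem_range.1 hj
  rw [← mul_sum]
  have h2 : (X : ℤ[X]) ^ j = ∑ i ∈ range (j + 1), ((X : ℤ[X]) - 1) ^ i * ((j.choose i : ℕ) : ℤ[X]) := by
    have h3 := add_pow ((X : ℤ[X]) - 1) 1 j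
    rw [sub_add_cancel] at h3
    rw [h3]
    exact sum_congr rfl fun i _ => by rw [one_pow, mul_one]
  rw [h2]
  congr 1
  symm
  rw [sum_subset (range_subset_range.2 (by omega : j + 1 ≤ e + 1))]
  · exact sum_congr rfl fun i _ => mul_comm _ _
  · intro i _ hi
    rw [mem_range] at hi
    rw [Nat.choose_eq_zero_of_lt (by omega : j < i)]
    simp

/-- the coefficients of the h-polynomial in terms of the gamma-vector -/
theorem gamma_coeff (d : ℕ) (h γ : ℕ → ℤ)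
    (hg : ∑ i ∈ range (d + 1), C (h i) * (X : ℤ[X]) ^ i =
      ∑ j ∈ range (d / 2 + 1), C (γ j) * (X ^ j * (1 + X) ^ (d - 2 * j))) :
    ∀ i, i ≤ d → h i = ∑ j ∈ range (d / 2 + 1),
      if j ≤ i then γ j * ((d - 2 * j).choose (i - j) : ℤ) else 0 := by
  intro i hi
  have h1 := congrArg (fun p : ℤ[X] => p.coeff i) hg
  simp only [finsetSum_coeff, Polynomial.coeff_C_mul, coeff_X_pow, coeff_X_pow_mul'] at h1
  have h2 : ∑ x ∈ range (d + 1), h x * (if i = x then (1 : ℤ) else 0) = h i := by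
    rw [sum_eq_single i]
    · rw [if_pos rfl, mul_one]
    · intro b _ hb
      rw [if_neg (Ne.symm hb), mul_zero]
    · intro hc
      exact absurd (mem_range.2 (by omega)) hc
  rw [h2] at h1
  rw [h1]
  refine sum_congr rfl fun j _ => ?_
  split_ifs
  · rw [add_comm (1 : ℤ[X]) X, coeff_X_add_one_pow]
  · rw [mul_zero]

variable {β : Type} [PartialOrder β] {L : Finset β} {r : β → ℕ}

open Classical in
/-- the recursion determines the toric g-polynomials -/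
theorem Sys.unique (hS : Sys L r) {g : β → ℤ[X]} (hg0 : ∀ y ∈ L, r y = 0 → g y = 1)
    (hg : ∀ y ∈ L, r y ≠ 0 → g y =
      trunc (r y - 1) (∑ x ∈ L.filter (fun x => x < y), g x * (X - 1) ^ (r y - 1 - r x))) :
    ∀ (n : ℕ) (y : β), y ∈ L → r y ≤ n → g y = tg L r n y := by
  intro n
  induction n with
  | zero =>
    intro y hy hn
    rw [hg0 y hy (by omega)]
    rfl
  | succ n ih =>
    intro y hy hn
    by_cases hr : r y = 0
    · rw [hg0 y hy hr, tg, if_pos hr]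
    · rw [hg y hy hr, tg, if_neg hr]
      refine congrArg (trunc (r y - 1)) (sum_congr rfl fun x hx => ?_)
      rw [mem_filter] at hx
      have := hS.mono x hx.1 y hy hx.2
      rw [ih x hx.1 (by omega)]

open Classical in
/-- the recursion has a solution -/
theorem Sys.exists_sol (hS : Sys L r) : ∃ g : β → ℤ[X], (∀ y, r y = 0 → g y = 1) ∧
    ∀ y ∈ L, r y ≠ 0 → g y =
      trunc (r y - 1) (∑ x ∈ L.filter (fun x => x < y), g x * (X - 1) ^ (r y - 1 - r x)) := by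
  have hv : ∀ y, ∃ h : ℕ → ℤ, y ∈ L → 1 ≤ r y → h 0 = 1 ∧ (∀ i, i ≤ r y - 1 → h (r y - 1 - i) = h i) ∧
      ∀ i, ((L.filter fun x => x ≤ y ∧ r x = i + 1).card : ℤ) =
        ∑ j ∈ range (r y - 1 + 1), h j * (j.choose i : ℤ) := by
    intro y
    by_cases hy : y ∈ L ∧ 1 ≤ r y
    · obtain ⟨h, h1⟩ := hS.hv y hy.1 (r y - 1) (by omega)
      exact ⟨h, fun _ _ => h1⟩
    · exact ⟨0, fun h1 h2 => absurd ⟨h1, h2⟩ hy⟩
  choose H hH using hv
  have key := hS.tg_eq (H := H) (fun y hy h1 => (hH y hy h1).1) (fun y hy h1 => (hH y hy h1).2.1)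
    (fun y hy e he i => by
      have h1 := (hH y hy (by omega)).2.2 i
      have e1 : r y - 1 + 1 = e + 1 := by omega
      rw [e1] at h1
      exact h1)
  refine ⟨fun y => if r y = 0 then 1 else gp (r y - 1) (H y), fun y hy => if_pos hy, ?_⟩
  intro y hy hr
  obtain ⟨n, hn⟩ : ∃ n, r y = n + 1 := ⟨r y - 1, by omega⟩
  show (if r y = 0 then 1 else gp (r y - 1) (H y)) = _
  rw [← key (n + 1) y hy (by omega), tg, if_neg hr]
  refine congrArg (trunc (r y - 1)) (sum_congr rfl fun x hx => ?_)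
  rw [mem_filter] at hx
  have := hS.mono x hx.1 y hy hx.2
  rw [key n x hx.1 (by omega)]

open Classical in
/-- **Kruskal-Katona for the solutions of the recursion.** -/
theorem Sys.kk (hS : Sys L r) {g : β → ℤ[X]} (hg0 : ∀ y ∈ L, r y = 0 → g y = 1)
    (hg : ∀ y ∈ L, r y ≠ 0 → g y =
      trunc (r y - 1) (∑ x ∈ L.filter (fun x => x < y), g x * (X - 1) ^ (r y - 1 - r x)))
    {y : β} (hy : y ∈ L) {d : ℕ} (hd : r y = d + 1) (γ : ℕ → ℤ)
    (hγ : ∑ i ∈ range (d + 1), C (((L.filter fun x => x ≤ y ∧ r x = i + 1).card : ℕ) : ℤ) *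
      ((X : ℤ[X]) - 1) ^ i =
      ∑ j ∈ range (d / 2 + 1), C (γ j) * (X ^ j * (1 + X) ^ (d - 2 * j)))
    (hpos : ∀ j, j ≤ d / 2 → 0 ≤ γ j) :
    (g y).coeff 0 = 1 ∧ (∀ i, 0 ≤ (g y).coeff i) ∧
      ∀ k, 1 ≤ k → k + 1 ≤ d / 2 → ∃ a : ℕ, (g y).coeff k = a ∧ ∃ j n, Cascade k a j n ∧
        (g y).coeff (k + 1) ≤ ((∑ i ∈ Icc j k, (n i).choose (i + 1) : ℕ) : ℤ) := by
  have hv : ∀ y, ∃ h : ℕ → ℤ, y ∈ L → 1 ≤ r y → h 0 = 1 ∧ (∀ i, i ≤ r y - 1 → h (r y - 1 - i) = h i) ∧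
      ∀ i, ((L.filter fun x => x ≤ y ∧ r x = i + 1).card : ℤ) =
        ∑ j ∈ range (r y - 1 + 1), h j * (j.choose i : ℤ) := by
    intro y
    by_cases hy : y ∈ L ∧ 1 ≤ r y
    · obtain ⟨h, h1⟩ := hS.hv y hy.1 (r y - 1) (by omega)
      exact ⟨h, fun _ _ => h1⟩
    · exact ⟨0, fun h1 h2 => absurd ⟨h1, h2⟩ hy⟩
  choose H hH using hv
  have key := hS.tg_eq (H := H) (fun y hy h1 => (hH y hy h1).1) (fun y hy h1 => (hH y hy h1).2.1)
    (fun y hy e he i => by
      have h1 := (hH y hy (by omega)).2.2 i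
      have e1 : r y - 1 + 1 = e + 1 := by omega
      rw [e1] at h1
      exact h1) (d + 1) y hy (by omega)
  have e0 : r y - 1 = d := by omega
  have hgy : g y = gp d (H y) := by
    rw [hS.unique hg0 hg (d + 1) y hy (by omega), key, if_neg (by omega), e0]
  obtain ⟨h1, h2, h3⟩ := hH y hy (by omega)
  rw [e0] at h2 h3
  rw [hgy]
  refine gp_kk d (H y) γ h1 h2 ?_ hpos
  apply gamma_coeff
  rw [← hγ]
  exact (h_poly d (H y) _ h3).symm

open Classical in
/-- the gamma-vector exists -/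
theorem Sys.exists_gamma (hS : Sys L r) {y : β} (hy : y ∈ L) {d : ℕ} (hd : r y = d + 1) :
    ∃ γ : ℕ → ℤ, ∑ i ∈ range (d + 1), C (((L.filter fun x => x ≤ y ∧ r x = i + 1).card : ℕ) : ℤ) *
      ((X : ℤ[X]) - 1) ^ i =
      ∑ j ∈ range (d / 2 + 1), C (γ j) * (X ^ j * (1 + X) ^ (d - 2 * j)) := by
  obtain ⟨h, _, h2, h3⟩ := hS.hv y hy d hd
  obtain ⟨γ, hγ⟩ := TG.exists_gamma d h h2
  exact ⟨γ, by rw [← hγ]; exact h_poly d h _ h3⟩

end Pool.Agent.Q142.TG
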