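import Pool.Agent.Q142.TG.Gamma

/-!
# Toric g-polynomials in terms of gamma-vectors, continued
-/

set_option autoImplicit false
set_option linter.unusedSectionVars false

namespace Pool.Agent.Q142.TG

open Finset Polynomial
open LaurentPolynomial (T T_add)

theorem Lam_poly_coeff (w : ℕ[X]) (i : ℕ) :
    (Lam (eval₂ (Nat.castRingHom (LaurentPolynomial ℤ[X])) bb w)).coeff i =
      ((catalan i * w.coeff (2 * i) : ℕ) : ℤ) := by
  rw [Lam_poly w (w.natDegree + i + 1) (by omega), finsetSum_coeff]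
  have h1 : ∀ m ∈ range (w.natDegree + i + 1),
      (((w.coeff (2 * m) * catalan m : ℕ) : ℤ[X]) * X ^ m).coeff i =
        if m = i then ((catalan m * w.coeff (2 * m) : ℕ) : ℤ) else 0 := by
    intro m _
    rw [← C_eq_natCast, Polynomial.coeff_C_mul, coeff_X_pow]
    by_cases h : m = i
    · rw [if_pos h, if_pos h.symm, mul_one, mul_comm (catalan m)]
    · rw [if_neg h, if_neg (Ne.symm h), mul_zero]
  rw [sum_congr rfl h1, sum_ite_eq', if_pos (mem_range.2 (by omega))]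

theorem eval_WW (q p : ℕ) : eval₂ (Nat.castRingHom (LaurentPolynomial ℤ[X])) bb (WW q p) =
    (1 + bb) ^ q * (2 + bb) ^ p := by
  unfold WW
  rw [eval₂_mul, eval₂_pow, eval₂_pow, eval₂_add, eval₂_add, eval₂_X, eval₂_one, eval₂_ofNat]
  rw [add_comm bb 1, add_comm bb]

/-- the coefficients of the basic polynomials -/
noncomputable def tt (j n k : ℕ) : ℕ :=
  ∑ e ∈ range (k + 1), j.choose e * (catalan (k - e) * (WW (j - e) n).coeff (2 * (k - e)))

theorem Lam_basic (j n k : ℕ) :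
    (Lam (AA 1 X ^ j * (uu 1 + vv 1 X) ^ n)).coeff k = (tt j n k : ℤ) := by
  have e0 : AA (1 : ℤ[X]) X = LaurentPolynomial.C X + (1 + bb) := by
    rw [A_eq]
    ring
  rw [e0, u_add_v, add_pow, sum_mul, Lam_sum, finsetSum_coeff]
  have h1 : ∀ e ∈ range (j + 1), (Lam (LaurentPolynomial.C X ^ e * (1 + bb) ^ (j - e) *
      ((j.choose e : ℕ) : LaurentPolynomial ℤ[X]) * (2 + bb) ^ n)).coeff k =
      if e ≤ k then ((j.choose e * (catalan (k - e) * (WW (j - e) n).coeff (2 * (k - e))) : ℕ) : ℤ)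
        else 0 := by
    intro e _
    have e1 : LaurentPolynomial.C X ^ e * (1 + bb) ^ (j - e) *
      ((j.choose e : ℕ) : LaurentPolynomial ℤ[X]) * (2 + bb) ^ n =
      LaurentPolynomial.C (((j.choose e : ℕ) : ℤ[X]) * X ^ e) * ((1 + bb) ^ (j - e) * (2 + bb) ^ n) := by
      simp only [map_mul, map_pow, map_natCast]
      ring
    rw [e1, Lam_C_mul, ← eval_WW, ← C_eq_natCast, mul_assoc, Polynomial.coeff_C_mul,
      coeff_X_pow_mul']
    split_ifs
    · rw [Lam_poly_coeff]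
      push_cast
      ring
    · rw [mul_zero]
  rw [sum_congr rfl h1]
  unfold tt
  push_cast
  rw [← sum_filter]
  have e2 : (range (j + 1)).filter (fun e => e ≤ k) ⊆ range (k + 1) := by
    intro e he
    rw [mem_filter] at he
    exact mem_range.2 (by omega)
  rw [sum_subset e2]
  intro e he hn
  rw [mem_filter, mem_range] at hn
  rw [mem_range] at he
  rw [Nat.choose_eq_zero_of_lt (by omega : j < e)]
  simp

/-- the simplex quotient -/
noncomputable def Qs (n : ℕ) : LaurentPolynomial ℤ[X] :=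
  ∑ i ∈ range n, (uu (1 : ℤ[X]) + vv 1 X) ^ i * LaurentPolynomial.C (1 - X) ^ (n - 1 - i)

theorem Qs_succ (n : ℕ) : Qs (n + 1) = (uu (1 : ℤ[X]) + vv 1 X) ^ n +
    LaurentPolynomial.C (1 - X) * Qs n := by
  unfold Qs
  rw [sum_range_succ, mul_sum, add_comm]
  have e0 : n + 1 - 1 - n = 0 := by omega
  have e2 : ∑ i ∈ range n, (uu (1 : ℤ[X]) + vv 1 X) ^ i *
      LaurentPolynomial.C (1 - X) ^ (n + 1 - 1 - i) =
      ∑ i ∈ range n, LaurentPolynomial.C (1 - X) * ((uu (1 : ℤ[X]) + vv 1 X) ^ i *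
        LaurentPolynomial.C (1 - X) ^ (n - 1 - i)) := by
    refine sum_congr rfl fun i hi => ?_
    have hi' := mem_range.1 hi
    have e1 : n + 1 - 1 - i = n - 1 - i + 1 := by omega
    rw [e1, pow_succ]
    ring
  rw [e0, pow_zero, mul_one, e2]

theorem A_Qs (n : ℕ) : AA (1 : ℤ[X]) X * Qs n =
    (uu (1 : ℤ[X]) + vv 1 X) ^ n - LaurentPolynomial.C (1 - X) ^ n := by
  have h1 := (Commute.all (uu (1 : ℤ[X]) + vv 1 X) (LaurentPolynomial.C (1 - X))).mul_geom_sum₂ n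
  have e1 : AA (1 : ℤ[X]) X = uu (1 : ℤ[X]) + vv 1 X - LaurentPolynomial.C (1 - X) := by
    rw [A_eq, u_add_v, map_sub, map_one]
    ring
  unfold Qs
  rw [e1, h1]

/-- the contribution of the zeroth gamma number -/
noncomputable def G0 (n : ℕ) : ℤ[X] := X * Lam (Qs n) + (1 - X) ^ n

theorem G0_zero : G0 0 = 1 := by
  unfold G0 Qs Lam
  simp [c1_zero]

theorem G0_succ (n : ℕ) : G0 (n + 1) = X * Lam ((uu (1 : ℤ[X]) + vv 1 X) ^ n) + (1 - X) * G0 n := by
  unfold G0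
  rw [Qs_succ, Lam_add, Lam_C_mul, pow_succ]
  ring

theorem Lam_B (n k : ℕ) : (Lam ((uu (1 : ℤ[X]) + vv 1 X) ^ n)).coeff k =
    ((catalan k * (n.choose (2 * k) * 2 ^ (n - 2 * k)) : ℕ) : ℤ) := by
  have h1 := Lam_poly_coeff ((X + 2) ^ n) k
  rw [eval₂_pow, eval₂_add, eval₂_X, eval₂_ofNat] at h1
  have e1 : ((X + 2 : ℕ[X]) ^ n).coeff (2 * k) = 2 ^ (n - 2 * k) * n.choose (2 * k) := by
    have e2 : (2 : ℕ[X]) = C 2 := by simp
    rw [e2, coeff_X_add_C_pow]
    simp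
  rw [e1] at h1
  rw [u_add_v, add_comm, h1]
  push_cast
  ring

theorem hom_gamma {R : Type*} [CommRing R] (d : ℕ) (h γ : ℕ → ℤ)
    (hp : ∀ i, i ≤ d → h i = ∑ j ∈ range (d / 2 + 1),
      if j ≤ i then γ j * ((d - 2 * j).choose (i - j) : ℤ) else 0) (U V : R) :
    Hh d h U V = ∑ j ∈ range (d / 2 + 1), (γ j : R) * ((U * V) ^ j * (U + V) ^ (d - 2 * j)) := by
  unfold Hh
  have h1 : ∀ i ∈ range (d + 1), (h i : R) * (U ^ i * V ^ (d - i)) =
      ∑ j ∈ range (d / 2 + 1), (if j ≤ i then (γ j : R) * ((d - 2 * j).choose (i - j) : R) *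
        (U ^ i * V ^ (d - i)) else 0) := by
    intro i hi
    rw [hp i (by have := mem_range.1 hi; omega)]
    push_cast
    rw [sum_mul]
    refine sum_congr rfl fun j _ => ?_
    split_ifs
    · ring
    · simp
  rw [sum_congr rfl h1, sum_comm]
  refine sum_congr rfl fun j hj => ?_
  have hj' := mem_range.1 hj
  rw [add_pow, mul_sum, mul_sum, ← sum_filter]
  symm
  refine sum_bij_ne_zero (fun i _ _ => i + j) ?_ ?_ ?_ ?_
  · intro i hi _
    rw [mem_filter, mem_range]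
    have := mem_range.1 hi
    exact ⟨by omega, by omega⟩
  · intro a _ _ b _ _ hab
    have : a + j = b + j := hab
    omega
  · intro i hi hne
    rw [mem_filter, mem_range] at hi
    by_cases hc : i - j ≤ d - 2 * j
    · refine ⟨i - j, mem_range.2 (by omega), ?_, by show i - j + j = i; omega⟩
      intro h0
      apply hne
      have e1 : U ^ i = U ^ (i - j) * U ^ j := by
        rw [← pow_add]
        congr 1
        omega
      have e2 : V ^ (d - i) = V ^ (d - 2 * j - (i - j)) * V ^ j := by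
        rw [← pow_add]
        congr 1
        omega
      rw [e1, e2, ← h0]
      ring
    · exfalso
      apply hne
      rw [Nat.choose_eq_zero_of_lt (by omega)]
      simp
  · intro i hi _
    have hi' := mem_range.1 hi
    have e1 : U ^ (i + j) = U ^ i * U ^ j := pow_add _ _ _
    have e2 : V ^ (d - (i + j)) = V ^ (d - 2 * j - i) * V ^ j := by
      rw [← pow_add]
      congr 1
      omega
    have e3 : i + j - j = i := by omega
    rw [e1, e2, e3, mul_pow]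
    ring

/-- **The toric g-polynomial in terms of the gamma-vector.** -/
theorem gp_gamma (d : ℕ) (h γ : ℕ → ℤ) (h0 : h 0 = 1) (hs : ∀ i, i ≤ d → h (d - i) = h i)
    (hp : ∀ i, i ≤ d → h i = ∑ j ∈ range (d / 2 + 1),
      if j ≤ i then γ j * ((d - 2 * j).choose (i - j) : ℤ) else 0) (k : ℕ) :
    (gp d h).coeff (k + 1) = ∑ j ∈ range (d / 2), γ (j + 1) * (tt j (d - 2 * j - 2) k : ℤ) +
      (G0 d).coeff (k + 1) := by
  have hg0 : γ 0 = 1 := by
    have h1 := hp 0 (by omega)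
    rw [sum_range_succ'] at h1
    rw [sum_eq_zero (fun j _ => by rw [if_neg (by omega)])] at h1
    simp at h1
    rw [← h1, h0]
  have hMM : MM d h (1 : ℤ[X]) X = (uu (1 : ℤ[X]) - vv 1 X) *
      (∑ j ∈ range (d / 2), LaurentPolynomial.C ((γ (j + 1) : ℤ) : ℤ[X]) * (AA (1 : ℤ[X]) X ^ j *
        (uu (1 : ℤ[X]) + vv 1 X) ^ (d - 2 * j - 2)) + Qs d) := by
    apply mul_left_cancel₀ AA_ne
    rw [A_MM d h h0 hs, hom_gamma d h γ hp, u_mul_v, sum_range_succ', hg0]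
    have e1 : AA (1 : ℤ[X]) X * ((uu (1 : ℤ[X]) - vv 1 X) *
      (∑ j ∈ range (d / 2), LaurentPolynomial.C ((γ (j + 1) : ℤ) : ℤ[X]) * (AA (1 : ℤ[X]) X ^ j *
        (uu (1 : ℤ[X]) + vv 1 X) ^ (d - 2 * j - 2)) + Qs d)) = (uu (1 : ℤ[X]) - vv 1 X) *
      (AA (1 : ℤ[X]) X * ∑ j ∈ range (d / 2), LaurentPolynomial.C ((γ (j + 1) : ℤ) : ℤ[X]) *
        (AA (1 : ℤ[X]) X ^ j * (uu (1 : ℤ[X]) + vv 1 X) ^ (d - 2 * j - 2)) +
        AA (1 : ℤ[X]) X * Qs d) := by ring
    rw [e1, A_Qs]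
    refine congrArg (fun t => (uu (1 : ℤ[X]) - vv 1 X) * t) ?_
    have e2 : ∑ j ∈ range (d / 2), ((γ (j + 1) : ℤ) : LaurentPolynomial ℤ[X]) *
        (AA (1 : ℤ[X]) X ^ (j + 1) * (uu (1 : ℤ[X]) + vv 1 X) ^ (d - 2 * (j + 1))) =
        AA (1 : ℤ[X]) X * ∑ j ∈ range (d / 2), LaurentPolynomial.C ((γ (j + 1) : ℤ) : ℤ[X]) *
          (AA (1 : ℤ[X]) X ^ j * (uu (1 : ℤ[X]) + vv 1 X) ^ (d - 2 * j - 2)) := by
      rw [mul_sum]
      refine sum_congr rfl fun j _ => ?_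
      have e3 : d - 2 * (j + 1) = d - 2 * j - 2 := by omega
      rw [e3, pow_succ]
      simp only [map_intCast]
      ring
    rw [e2]
    simp only [pow_zero, one_mul, mul_zero, Nat.sub_zero, Int.cast_one]
    ring
  rw [← c1_one, hMM]
  have e4 : c1 ((uu (1 : ℤ[X]) - vv 1 X) *
      (∑ j ∈ range (d / 2), LaurentPolynomial.C ((γ (j + 1) : ℤ) : ℤ[X]) * (AA (1 : ℤ[X]) X ^ j *
        (uu (1 : ℤ[X]) + vv 1 X) ^ (d - 2 * j - 2)) + Qs d)) =
      ∑ j ∈ range (d / 2), ((γ (j + 1) : ℤ) : ℤ[X]) * Lam (AA (1 : ℤ[X]) X ^ j *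
        (uu (1 : ℤ[X]) + vv 1 X) ^ (d - 2 * j - 2)) + Lam (Qs d) := by
    have e5 := Lam_add (∑ j ∈ range (d / 2), LaurentPolynomial.C ((γ (j + 1) : ℤ) : ℤ[X]) *
      (AA (1 : ℤ[X]) X ^ j * (uu (1 : ℤ[X]) + vv 1 X) ^ (d - 2 * j - 2))) (Qs d)
    rw [Lam_sum] at e5
    simp only [Lam_C_mul] at e5
    exact e5
  rw [e4, mul_add, add_assoc]
  have e6 : X * Lam (Qs d) + (1 - X) ^ d = G0 d := rfl
  rw [e6, coeff_add, coeff_X_mul, finsetSum_coeff]
  refine congrArg (fun t => t + (G0 d).coeff (k + 1)) ?_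
  refine sum_congr rfl fun j _ => ?_
  rw [← C_eq_intCast, Polynomial.coeff_C_mul, Lam_basic]
  rfl

end Pool.Agent.Q142.TG
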