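import Pool.Agent.Q142.TG.Toric

/-!
# Toric g-polynomials in terms of gamma-vectors
-/

set_option autoImplicit false
set_option linter.unusedSectionVars false

namespace Pool.Agent.Q142.TG

open Finset Polynomial
open LaurentPolynomial (T T_add)

/-- `z + x / z` -/
noncomputable def bb : LaurentPolynomial ℤ[X] := T 1 + LaurentPolynomial.C X * T (-1)

/-- the functional -/
noncomputable def Lam (f : LaurentPolynomial ℤ[X]) : ℤ[X] := c1 ((uu 1 - vv 1 X) * f)

theorem Lam_add (f g : LaurentPolynomial ℤ[X]) : Lam (f + g) = Lam f + Lam g := by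
  unfold Lam
  rw [mul_add, c1_add]

theorem Lam_sum {ι : Type*} (s : Finset ι) (f : ι → LaurentPolynomial ℤ[X]) :
    Lam (∑ i ∈ s, f i) = ∑ i ∈ s, Lam (f i) := by
  unfold Lam
  rw [mul_sum, c1_sum]

theorem Lam_C_mul (a : ℤ[X]) (f : LaurentPolynomial ℤ[X]) :
    Lam (LaurentPolynomial.C a * f) = a * Lam f := by
  have h : (uu 1 - vv 1 X) * (LaurentPolynomial.C a * f) =
      LaurentPolynomial.C a * ((uu 1 - vv 1 X) * f) := mul_left_comm _ _ _
  unfold Lam
  rw [h, c1_C_mul]

theorem u_add_v : uu (1 : ℤ[X]) + vv 1 X = 2 + bb := by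
  unfold uu vv bb
  rw [one_mul, map_one]
  ring

theorem A_eq : AA (1 : ℤ[X]) X = 1 + LaurentPolynomial.C X + bb := by
  unfold AA bb
  rw [one_mul, map_one]
  ring

theorem u_sub_v : uu (1 : ℤ[X]) - vv 1 X = T 1 - LaurentPolynomial.C X * T (-1) := by
  unfold uu vv
  rw [one_mul, map_one]
  ring

theorem u_mul_v : uu (1 : ℤ[X]) * vv 1 X = AA 1 X := by
  rw [uv_eq, map_one, one_mul]

theorem cat_eq (i : ℕ) : (((2 * i).choose i : ℤ) - ((2 * i).choose (i + 1) : ℤ)) = catalan i := by
  have h1 : (i + 1) * catalan i = (2 * i).choose i := by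
    rw [succ_mul_catalan_eq_centralBinom, Nat.centralBinom_eq_two_mul_choose]
  have h2 : (2 * i).choose (i + 1) * (i + 1) = (2 * i).choose i * i := by
    rw [Nat.choose_succ_right_eq]
    congr 1
    omega
  have h3 : ((i : ℤ) + 1) ≠ 0 := by positivity
  apply mul_left_cancel₀ h3
  have h1' : ((i : ℤ) + 1) * catalan i = ((2 * i).choose i : ℤ) := by exact_mod_cast h1
  have h2' : ((2 * i).choose (i + 1) : ℤ) * ((i : ℤ) + 1) = ((2 * i).choose i : ℤ) * i := by
    exact_mod_cast h2
  rw [h1']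
  linear_combination -h2'

/-- the moments -/
theorem Lam_pow (m : ℕ) : Lam (bb ^ m) = if Even m then (catalan (m / 2) : ℤ[X]) * X ^ (m / 2) else 0 := by
  unfold Lam bb
  rw [u_sub_v, add_pow, mul_sum, c1_sum]
  have h1 : ∀ a ∈ range (m + 1), c1 ((T 1 - LaurentPolynomial.C X * T (-1) : LaurentPolynomial ℤ[X]) *
      (T 1 ^ a * (LaurentPolynomial.C X * T (-1)) ^ (m - a) * ((m.choose a : ℕ) : LaurentPolynomial ℤ[X]))) =
      (if 2 * a = m then (m.choose a : ℤ[X]) * X ^ (m - a) else 0) -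
        (if 2 * a = m + 2 then (m.choose a : ℤ[X]) * X ^ (m - a) * X else 0) := by
    intro a ha
    have ha' := mem_range.1 ha
    have e1 : (T 1 - LaurentPolynomial.C X * T (-1) : LaurentPolynomial ℤ[X]) *
      (T 1 ^ a * (LaurentPolynomial.C X * T (-1)) ^ (m - a) * ((m.choose a : ℕ) : LaurentPolynomial ℤ[X])) =
      LaurentPolynomial.C ((m.choose a : ℤ[X]) * X ^ (m - a)) * T (1 + (a : ℤ) + -((m - a : ℕ) : ℤ)) -
      LaurentPolynomial.C ((m.choose a : ℤ[X]) * X ^ (m - a) * X) *
        T (-1 + (a : ℤ) + -((m - a : ℕ) : ℤ)) := by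
      rw [mul_pow, LaurentPolynomial.T_pow, LaurentPolynomial.T_pow, T_add, T_add, T_add, T_add]
      have e2 : (a : ℤ) * 1 = a := by ring
      have e3 : ((m - a : ℕ) : ℤ) * -1 = -((m - a : ℕ) : ℤ) := by ring
      rw [e2, e3]
      simp only [map_mul, map_pow, map_natCast]
      ring
    rw [e1, c1_sub, c1_C_mul_T, c1_C_mul_T]
    congr 1
    · by_cases h : 2 * a = m
      · rw [if_pos h, if_pos (by omega)]
      · rw [if_neg h, if_neg (by omega)]
    · by_cases h : 2 * a = m + 2
      · rw [if_pos h, if_pos (by omega)]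
      · rw [if_neg h, if_neg (by omega)]
  rw [sum_congr rfl h1, sum_sub_distrib]
  by_cases hm : Even m
  · rw [if_pos hm]
    obtain ⟨i, hi⟩ := hm
    have e1 : m / 2 = i := by omega
    have e2 : m = 2 * i := by omega
    rw [e1]
    have e3 : ∀ a, (2 * a = m) = (a = i) := fun a => propext (by omega)
    have e4 : ∀ a, (2 * a = m + 2) = (a = i + 1) := fun a => propext (by omega)
    simp only [e3, e4]
    rw [sum_ite_eq', sum_ite_eq', if_pos (mem_range.2 (by omega))]
    have e5 : m - i = i := by omega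
    rw [e5, ← Int.cast_natCast (catalan i), ← cat_eq i, e2]
    by_cases h : i + 1 ∈ range (2 * i + 1)
    · rw [if_pos h]
      rw [mem_range] at h
      have e6 : 2 * i - (i + 1) = i - 1 := by omega
      have e7 : (X : ℤ[X]) ^ (i - 1) * X = X ^ i := by
        rw [← pow_succ]
        congr 1
        omega
      rw [e6, mul_assoc, e7]
      push_cast
      ring
    · rw [if_neg h]
      rw [mem_range] at h
      have e6 : i = 0 := by omega
      rw [e6]
      simp
  · rw [if_neg hm]
    rw [sum_eq_zero, sum_eq_zero, sub_zero]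
    · intro a _
      rw [if_neg]
      intro h
      exact hm ⟨a - 1, by omega⟩
    · intro a _
      rw [if_neg]
      intro h
      exact hm ⟨a, by omega⟩

/-- polynomials in `b` -/
theorem Lam_poly (w : ℕ[X]) (N : ℕ) (hN : w.natDegree < N) :
    Lam (eval₂ (Nat.castRingHom (LaurentPolynomial ℤ[X])) bb w) =
      ∑ i ∈ range N, ((w.coeff (2 * i) * catalan i : ℕ) : ℤ[X]) * X ^ i := by
  rw [eval₂_eq_sum_range' _ (by omega : w.natDegree < 2 * N), Lam_sum]
  have h1 : ∀ m ∈ range (2 * N), Lam (Nat.castRingHom (LaurentPolynomial ℤ[X]) (w.coeff m) * bb ^ m) =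
      if Even m then ((w.coeff m * catalan (m / 2) : ℕ) : ℤ[X]) * X ^ (m / 2) else 0 := by
    intro m _
    have e1 : Nat.castRingHom (LaurentPolynomial ℤ[X]) (w.coeff m) =
        LaurentPolynomial.C ((w.coeff m : ℕ) : ℤ[X]) := by simp
    rw [e1, Lam_C_mul, Lam_pow]
    split_ifs
    · push_cast
      ring
    · rw [mul_zero]
  rw [sum_congr rfl h1, ← sum_filter]
  symm
  refine sum_bij (fun i _ => 2 * i) ?_ ?_ ?_ ?_
  · intro i hi
    rw [mem_filter, mem_range]
    exact ⟨by have := mem_range.1 hi; omega, even_two_mul i⟩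
  · intro i _ j _ h
    have h' : 2 * i = 2 * j := h
    omega
  · intro m hm
    rw [mem_filter, mem_range] at hm
    obtain ⟨i, hi⟩ := hm.2
    exact ⟨i, mem_range.2 (by omega), by show 2 * i = m; omega⟩
  · intro i _
    have e1 : 2 * i / 2 = i := by omega
    rw [e1]

/-- the polynomial `(1 + y) ^ q (2 + y) ^ p` -/
noncomputable def WW (q p : ℕ) : ℕ[X] := (X + 1) ^ q * (X + 2) ^ p

theorem WW_deg (q p : ℕ) : (WW q p).natDegree < q + p + 1 := by
  unfold WW
  have h1 : ((X + 1 : ℕ[X]) ^ q).natDegree ≤ q := by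
    refine natDegree_pow_le.trans ?_
    have : (X + 1 : ℕ[X]).natDegree ≤ 1 := by
      apply (natDegree_add_le _ _).trans
      simp
    calc q * (X + 1 : ℕ[X]).natDegree ≤ q * 1 := Nat.mul_le_mul_left _ this
      _ = q := mul_one q
  have h2 : ((X + 2 : ℕ[X]) ^ p).natDegree ≤ p := by
    refine natDegree_pow_le.trans ?_
    have : (X + 2 : ℕ[X]).natDegree ≤ 1 := by
      apply (natDegree_add_le _ _).trans
      simp
    calc p * (X + 2 : ℕ[X]).natDegree ≤ p * 1 := Nat.mul_le_mul_left _ this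
      _ = p := mul_one p
  have h3 := natDegree_mul_le (p := (X + 1 : ℕ[X]) ^ q) (q := (X + 2) ^ p)
  omega

end Pool.Agent.Q142.TG
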