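import Pool.Agent.Q142.TG.Count

/-!
# The h-vectors of the faces of a simple cone
-/

set_option autoImplicit false
set_option linter.unusedSectionVars false

namespace Pool.Agent.Q142.TG

open Finset Polynomial
open Pool.Agent.Helper715
open Pool.Agent.Helper715.CP

variable {W : Type} [NormedAddCommGroup W] [InnerProductSpace ℝ W] [FiniteDimensional ℝ W]

variable {P : CP W}

/-- equal binomial sums come from equal distributions -/
theorem distr {α : Type} (s : Finset α) (u v : α → ℕ)
    (h : ∀ i, ∑ a ∈ s, (u a).choose i = ∑ a ∈ s, (v a).choose i) (j : ℕ) :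
    (s.filter fun a => u a = j).card = (s.filter fun a => v a = j).card := by
  have h1 : ∑ a ∈ s, (X + 1 : ℤ[X]) ^ u a = ∑ a ∈ s, (X + 1 : ℤ[X]) ^ v a := by
    ext i
    rw [finsetSum_coeff, finsetSum_coeff]
    simp only [coeff_X_add_one_pow]
    exact_mod_cast h i
  have h2 := congrArg (compRingHom (X - 1 : ℤ[X])) h1
  simp only [map_sum, map_pow, map_add, map_one, coe_compRingHom_apply, X_comp,
    sub_add_cancel] at h2
  have h3 := congrArg (fun p : ℤ[X] => p.coeff j) h2
  simp only [finsetSum_coeff, coeff_X_pow] at h3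
  have h4 : ∀ w : α → ℕ, (∑ a ∈ s, if j = w a then (1 : ℤ) else 0) =
      ((s.filter fun a => w a = j).card : ℤ) := by
    intro w
    rw [card_filter]
    push_cast
    exact sum_congr rfl fun a _ => by simp only [eq_comm]
  rw [h4, h4] at h3
  exact_mod_cast h3

variable {d : ℕ}

open Classical in
/-- **The h-vector of a face** of a simple cone, and the equations of Dehn and Sommerville. -/
theorem exists_h (hW : Module.finrank ℝ W = d + 1) (hd : ∀ a : P.Lev 1, (Ed a).card = d)
    {G : Finset W} (hG : P.Cl G) {e : ℕ} (he : dm G = e + 1) :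
    ∃ h : ℕ → ℤ, h 0 = 1 ∧ (∀ i, i ≤ e → h (e - i) = h i) ∧ (∀ i, 0 ≤ h i) ∧
      ∀ i, (((Fs P).filter fun F => F ⊆ G ∧ dm F = i + 1).card : ℤ) =
        ∑ j ∈ range (e + 1), h j * (j.choose i : ℤ) := by
  obtain ⟨y, ρ, hρ, hinj⟩ := exists_generic (P := P)
  have hρ' : ∀ a : P.Lev 1, ∀ x ∈ a.1, inner ℝ (-y) x = (-ρ a) * inner ℝ (P.gs P.bot) x := by
    intro a x hx
    rw [inner_neg_left, hρ a x hx]
    ring
  have hinj' : Function.Injective fun a => -ρ a := fun a b h => hinj (neg_injective h)
  have hup := fun i => faces_up hρ hW hd hinj hG i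
  have hdn := fun i => faces_up (ρ := fun a => -ρ a) hρ' hW hd hinj' hG i
  have hsum : ∀ a ∈ (Nd G : Finset (P.Lev 1)),
      (Ut (-y) (fun a => -ρ a) a G).card + (Ut y ρ a G).card = e := by
    intro a ha
    rw [Ut_neg hρ hinj]
    have := dm_face a hW (hd a) hG (mem_Nd.1 ha)
    omega
  refine ⟨fun j => (((Nd G : Finset (P.Lev 1)).filter fun a => (Ut y ρ a G).card = j).card : ℤ),
    ?_, ?_, ?_, ?_⟩
  · show ((_ : ℕ) : ℤ) = 1
    rw [top_unique hρ hinj hG (by omega)]
    rfl
  · intro i hi
    show ((_ : ℕ) : ℤ) = ((_ : ℕ) : ℤ)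
    congr 1
    rw [distr (Nd G : Finset (P.Lev 1)) (fun a => (Ut y ρ a G).card)
      (fun a => (Ut (-y) (fun a => -ρ a) a G).card) (fun i => (hup i).symm.trans (hdn i)) (e - i)]
    congr 1
    apply filter_congr
    intro a ha
    have := hsum a ha
    omega
  · intro i
    exact Int.natCast_nonneg _
  · intro i
    rw [hup i]
    have h1 := sum_fiberwise_of_maps_to (s := (Nd G : Finset (P.Lev 1))) (t := range (e + 1))
      (g := fun a => (Ut y ρ a G).card) (fun a ha => by
        rw [mem_range]
        have := hsum a ha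
        omega) (fun a => (Ut y ρ a G).card.choose i)
    rw [← h1]
    push_cast
    refine sum_congr rfl fun j _ => ?_
    rw [sum_congr rfl (g := fun _ => ((j.choose i : ℕ) : ℤ))]
    · rw [sum_const, nsmul_eq_mul]
    · intro a ha
      rw [(mem_filter.1 ha).2]

end Pool.Agent.Q142.TG
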