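import Pool.Agent.Q142.TG.Simp

/-!
# Inequalities between consecutive coefficients
-/

set_option autoImplicit false
set_option linter.unusedSectionVars false

namespace Pool.Agent.Q142.TG

open Finset Polynomial

theorem WW_succ_left (q p : ℕ) : WW (q + 1) p = (X + 1) * WW q p := by
  unfold WW
  rw [pow_succ]
  ring

theorem WW_succ_right (q p : ℕ) : WW q (p + 1) = (X + 2) * WW q p := by
  unfold WW
  rw [pow_succ]
  ring

theorem WW_mono (q p m : ℕ) : (WW q p).coeff m ≤ (WW (q + 1) p).coeff m := by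
  rw [WW_succ_left, add_mul, one_mul, coeff_add]
  exact Nat.le_add_left _ _

theorem WW_der (q p : ℕ) : derivative (WW q p) = (q : ℕ[X]) * WW (q - 1) p + (p : ℕ[X]) * WW q (p - 1) := by
  unfold WW
  rw [derivative_mul, derivative_pow, derivative_pow]
  have h1 : derivative (X + 1 : ℕ[X]) = 1 := by simp
  have h2 : derivative (X + 2 : ℕ[X]) = 1 := by
    rw [derivative_add, derivative_X, derivative_ofNat, add_zero]
  rw [h1, h2, C_eq_natCast, C_eq_natCast]
  ring

theorem WW_coeff_succ (q p m : ℕ) : (WW q p).coeff (m + 1) * (m + 1) =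
    q * (WW (q - 1) p).coeff m + p * (WW q (p - 1)).coeff m := by
  have h1 := congrArg (fun f => f.coeff m) (WW_der q p)
  simp only [coeff_derivative, coeff_add, ← C_eq_natCast, Polynomial.coeff_C_mul] at h1
  simpa using h1

theorem WW_euler (q p : ℕ) : ((p + q : ℕ) : ℕ[X]) * WW q p = X * derivative (WW q p) +
    (q : ℕ[X]) * WW (q - 1) p + 2 * (p : ℕ[X]) * WW q (p - 1) := by
  rw [WW_der]
  have h1 : (q : ℕ[X]) * WW q p = (q : ℕ[X]) * ((X + 1) * WW (q - 1) p) := by
    cases q with
    | zero => simp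
    | succ q => rw [WW_succ_left]; rfl
  have h2 : (p : ℕ[X]) * WW q p = (p : ℕ[X]) * ((X + 2) * WW q (p - 1)) := by
    cases p with
    | zero => simp
    | succ p => rw [WW_succ_right]; rfl
  push_cast
  rw [add_mul, h1, h2]
  ring

theorem WW_euler_coeff (q p m : ℕ) : (p + q) * (WW q p).coeff m =
    m * (WW q p).coeff m + q * (WW (q - 1) p).coeff m + 2 * p * (WW q (p - 1)).coeff m := by
  have h1 := congrArg (fun f => f.coeff m) (WW_euler q p)
  have e1 : (2 : ℕ[X]) * (p : ℕ[X]) = ((2 * p : ℕ) : ℕ[X]) := by push_cast; ring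
  rw [e1] at h1
  simp only [coeff_add, ← C_eq_natCast, Polynomial.coeff_C_mul, Nat.cast_id] at h1
  rw [h1]
  congr 2
  cases m with
  | zero => simp
  | succ m =>
    rw [coeff_X_mul, coeff_derivative]
    push_cast
    ring

theorem W1 (q p m : ℕ) : 2 * (m + 1) * (WW q p).coeff (m + 1) + m * (WW q p).coeff m ≤
    (p + 2 * q) * (WW q p).coeff m := by
  have h1 := WW_coeff_succ q p m
  have h2 := WW_euler_coeff q p m
  have h3 : q * (WW (q - 1) p).coeff m ≤ q * (WW q p).coeff m := by
    cases q with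
    | zero => simp
    | succ q => exact Nat.mul_le_mul_left _ (WW_mono q p m)
  nlinarith

theorem W2 (q p m : ℕ) : 2 * (q + 1) * (WW q p).coeff m + m * (WW (q + 1) p).coeff m ≤
    (2 * (q + 1) + p) * (WW (q + 1) p).coeff m := by
  have h2 := WW_euler_coeff (q + 1) p m
  rw [Nat.add_sub_cancel] at h2
  have h3 : (q + 1) * (WW q p).coeff m ≤ (q + 1) * (WW (q + 1) p).coeff m :=
    Nat.mul_le_mul_left _ (WW_mono q p m)
  nlinarith [Nat.zero_le (2 * p * (WW (q + 1) (p - 1)).coeff m)]

theorem cat_succ (i : ℕ) : (i + 2) * catalan (i + 1) = 2 * (2 * i + 1) * catalan i := by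
  have h1 : (i + 2) * catalan (i + 1) = Nat.centralBinom (i + 1) := succ_mul_catalan_eq_centralBinom (i + 1)
  have h2 : (i + 1) * catalan i = Nat.centralBinom i := succ_mul_catalan_eq_centralBinom i
  have h3 := Nat.succ_mul_centralBinom_succ i
  have h4 : 0 < i + 1 := Nat.succ_pos i
  apply Nat.eq_of_mul_eq_mul_left h4
  rw [h1, h3, ← h2]
  ring

/-- the terms -/
noncomputable def tm (J p i e : ℕ) : ℕ := J.choose e * (catalan i * (WW (J - e) p).coeff (2 * i))

theorem T1 (J p i e r : ℕ) (h : r + 1 + 2 * (i + 1 + e) = p + 2 * J + 2) :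
    4 * (i + 1) * (i + 2) * tm J p (i + 1) e ≤ (r + 1) * r * tm J p i e := by
  unfold tm
  by_cases he : e ≤ J
  · obtain ⟨q, rfl⟩ := Nat.exists_eq_add_of_le he
    have e1 : e + q - e = q := by omega
    rw [e1]
    have h1 := W1 q p (2 * i + 1)
    have h2 := W1 q p (2 * i)
    have e2 : p + 2 * q = r + (2 * i + 1) := by omega
    have e3 : 2 * i + 1 + 1 = 2 * (i + 1) := by ring
    rw [e2, e3] at h1
    rw [e2] at h2
    have h3 : 4 * (i + 1) * (WW q p).coeff (2 * (i + 1)) ≤ r * (WW q p).coeff (2 * i + 1) := by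
      nlinarith
    have h4 : 2 * (2 * i + 1) * (WW q p).coeff (2 * i + 1) ≤ (r + 1) * (WW q p).coeff (2 * i) := by
      nlinarith
    calc 4 * (i + 1) * (i + 2) * ((e + q).choose e * (catalan (i + 1) * (WW q p).coeff (2 * (i + 1)))) =
        (e + q).choose e * (((i + 2) * catalan (i + 1)) * (4 * (i + 1) * (WW q p).coeff (2 * (i + 1)))) := by
          ring
      _ ≤ (e + q).choose e * (((i + 2) * catalan (i + 1)) * (r * (WW q p).coeff (2 * i + 1))) :=
          Nat.mul_le_mul_left _ (Nat.mul_le_mul_left _ h3)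
      _ = (e + q).choose e * (catalan i * (r * (2 * (2 * i + 1) * (WW q p).coeff (2 * i + 1)))) := by
          rw [cat_succ]
          ring
      _ ≤ (e + q).choose e * (catalan i * (r * ((r + 1) * (WW q p).coeff (2 * i)))) :=
          Nat.mul_le_mul_left _ (Nat.mul_le_mul_left _ (Nat.mul_le_mul_left _ h4))
      _ = _ := by ring
  · rw [Nat.choose_eq_zero_of_lt (by omega : J < e)]
    simp

theorem T2 (J p i e r : ℕ) (h : r + 2 * (i + (e + 1)) = p + 2 * J + 2) :
    2 * (e + 1) * tm J p i (e + 1) ≤ r * tm J p i e := by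
  unfold tm
  by_cases he : e + 1 ≤ J
  · obtain ⟨q, rfl⟩ := Nat.exists_eq_add_of_le he
    have e1 : e + 1 + q - (e + 1) = q := by omega
    have e2 : e + 1 + q - e = q + 1 := by omega
    rw [e1, e2]
    have h1 := W2 q p (2 * i)
    have e3 : 2 * (q + 1) + p = r + 2 * i := by omega
    rw [e3] at h1
    have h3 : 2 * (q + 1) * (WW q p).coeff (2 * i) ≤ r * (WW (q + 1) p).coeff (2 * i) := by nlinarith
    have h4 := Nat.choose_succ_right_eq (e + 1 + q) e
    rw [e2] at h4
    calc 2 * (e + 1) * ((e + 1 + q).choose (e + 1) * (catalan i * (WW q p).coeff (2 * i))) =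
        ((e + 1 + q).choose (e + 1) * (e + 1)) * (catalan i * (2 * (WW q p).coeff (2 * i))) := by ring
      _ = (e + 1 + q).choose e * (catalan i * (2 * (q + 1) * (WW q p).coeff (2 * i))) := by
          rw [h4]
          ring
      _ ≤ (e + 1 + q).choose e * (catalan i * (r * (WW (q + 1) p).coeff (2 * i))) :=
          Nat.mul_le_mul_left _ (Nat.mul_le_mul_left _ h3)
      _ = _ := by ring
  · rw [Nat.choose_eq_zero_of_lt (by omega : J < e + 1)]
    simp

/-- **The inequality for the higher gamma numbers.** -/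
theorem tt_ratio (J p k r : ℕ) (h : r + 1 + 2 * (k + 1) = p + 2 * J + 2) :
    4 * (k + 1) * (k + 2) * tt J p (k + 1) ≤ (r + 1) * (r + 4 * k + 4) * tt J p k := by
  have e0 : ∀ l, tt J p l = ∑ e ∈ range (l + 1), tm J p (l - e) e := fun l => rfl
  rw [e0, e0, mul_sum, mul_sum]
  have h1 : ∀ e ∈ range (k + 1 + 1), 4 * (k + 1) * (k + 2) * tm J p (k + 1 - e) e =
      4 * (k + 1 - e) * (k + 1 - e + 1) * tm J p (k + 1 - e) e +
        4 * e * (2 * (k + 1 - e) + e + 1) * tm J p (k + 1 - e) e := by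
    intro e he
    have he' := mem_range.1 he
    obtain ⟨i, hi⟩ := Nat.exists_eq_add_of_le (by omega : e ≤ k + 1)
    have e1 : k + 1 - e = i := by omega
    have e2 : 4 * (k + 1) * (k + 2) = 4 * (e + i) * (e + i + 1) := by rw [← hi]
    rw [e1, e2]
    ring
  rw [sum_congr rfl h1, sum_add_distrib, sum_range_succ, sum_range_succ' _ (k + 1)]
  have e1 : k + 1 - (k + 1) = 0 := by omega
  rw [e1, mul_zero, zero_mul, zero_mul, add_zero, zero_mul, zero_mul, add_zero,
    ← sum_add_distrib]
  refine sum_le_sum fun e he => ?_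
  have he' := mem_range.1 he
  obtain ⟨i, hi⟩ := Nat.exists_eq_add_of_le (by omega : e ≤ k)
  have e2 : k + 1 - e = i + 1 := by omega
  have e3 : k + 1 - (e + 1) = i := by omega
  have e4 : k - e = i := by omega
  rw [e2, e3, e4]
  have h2 := T1 J p i e r (by omega)
  have h3 := T2 J p i e (r + 1) (by omega)
  have h4 : 4 * (e + 1) * (2 * i + (e + 1) + 1) * tm J p i (e + 1) ≤
      (4 * k + 4) * (r + 1) * tm J p i e := by
    calc 4 * (e + 1) * (2 * i + (e + 1) + 1) * tm J p i (e + 1) =
        2 * (2 * i + (e + 1) + 1) * (2 * (e + 1) * tm J p i (e + 1)) := by ring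
      _ ≤ 2 * (2 * i + (e + 1) + 1) * ((r + 1) * tm J p i e) := Nat.mul_le_mul_left _ h3
      _ ≤ (4 * k + 4) * ((r + 1) * tm J p i e) := Nat.mul_le_mul_right _ (by omega)
      _ = _ := by ring
  calc 4 * (i + 1) * (i + 1 + 1) * tm J p (i + 1) e +
      4 * (e + 1) * (2 * i + (e + 1) + 1) * tm J p i (e + 1) ≤
      (r + 1) * r * tm J p i e + (4 * k + 4) * (r + 1) * tm J p i e := Nat.add_le_add h2 h4
    _ = _ := by ring

/-- the inequality for the auxiliary sums -/
theorem ss_ratio (N k : ℕ) : 4 * (k + 1) * ((N + 1) * ss N (k + 1)) ≤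
    (N - 1 - k) ^ 2 * ss (N + 1) k := by
  rw [ss_pred]
  unfold ss
  rw [mul_sum, mul_sum]
  refine sum_le_sum fun m hm => ?_
  have hm' := mem_range.1 hm
  have h1 := Nat.choose_succ_right_eq m k
  calc 4 * (k + 1) * ((N - 1 - m) * ((N + 1).choose (m + 2) * m.choose (k + 1))) =
      4 * (N - 1 - m) * ((N + 1).choose (m + 2) * (m.choose (k + 1) * (k + 1))) := by ring
    _ = (4 * (N - 1 - m) * (m - k)) * ((N + 1).choose (m + 2) * m.choose k) := by rw [h1]; ring
    _ ≤ (N - 1 - k) ^ 2 * ((N + 1).choose (m + 2) * m.choose k) := by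
        apply Nat.mul_le_mul_right
        by_cases hc : k ≤ m ∧ m ≤ N - 1
        · have e1 : N - 1 - k = (N - 1 - m) + (m - k) := by omega
          rw [e1]
          have h2 := four_mul_le_sq_add (N - 1 - m) (m - k)
          linarith
        · have h3 : 4 * (N - 1 - m) * (m - k) = 0 := by
            rcases Nat.lt_or_ge m k with h4 | h4
            · have : m - k = 0 := by omega
              rw [this, mul_zero]
            · have : N - 1 - m = 0 := by omega
              rw [this]
              ring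
          rw [h3]
          exact Nat.zero_le _

theorem ss_lower (N k : ℕ) : N.choose k * 2 ^ (N - k) ≤ ss (N + 2) k := by
  rw [← choose_sum]
  unfold ss
  calc ∑ j ∈ range (N + 1), N.choose j * j.choose k ≤
      ∑ j ∈ range (N + 1), (N + 2).choose (j + 2) * j.choose k := by
        refine sum_le_sum fun j _ => Nat.mul_le_mul_right _ ?_
        have h1 : (N + 2).choose (j + 2) = N.choose j + 2 * N.choose (j + 1) + N.choose (j + 2) := by
          rw [Nat.choose_succ_succ' (N + 1) (j + 1), Nat.choose_succ_succ' N j,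
            Nat.choose_succ_succ' N (j + 1)]
          ring
        rw [h1]
        omega
    _ ≤ _ := sum_le_sum_of_subset (range_subset_range.2 (by omega))

theorem G0_nonneg (n k : ℕ) : 0 ≤ (G0 n).coeff k := by
  cases k with
  | zero => rw [G0_coeff_zero]; norm_num
  | succ k =>
    have h1 := G0_coeff n k
    have h2 : (0 : ℤ) ≤ ((k : ℤ) + 1) * (G0 n).coeff (k + 1) := by
      rw [h1]
      positivity
    exact nonneg_of_mul_nonneg_right h2 (by positivity)

/-- the inequality for the zeroth gamma number -/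
theorem G0_ratio (n k r : ℕ) (h : r + 1 + 2 * (k + 1) = n) :
    4 * ((k : ℤ) + 1) * (k + 2) * (G0 n).coeff (k + 2) ≤ ((r : ℤ) + 1) ^ 2 * (G0 n).coeff (k + 1) := by
  have h1 := G0_coeff n k
  have h2 := G0_coeff n (k + 1)
  have h3 := ss_ratio (n - (k + 1)) k
  have e1 : n - (k + 1) + 1 = n - k := by omega
  have e2 : n - (k + 1) - 1 - k = r + 1 := by omega
  rw [e1, e2] at h3
  have h4 := Nat.choose_succ_right_eq n k
  have hk : (0 : ℤ) < (k : ℤ) + 1 := by positivity
  refine le_of_mul_le_mul_left ?_ hk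
  push_cast at h1 h2
  have h3' : 4 * ((k : ℤ) + 1) * (((n - k : ℕ) : ℤ) * (ss (n - (k + 1)) (k + 1) : ℤ)) ≤
      ((r : ℤ) + 1) ^ 2 * (ss (n - k) k : ℤ) := by exact_mod_cast h3
  have h4' : (n.choose (k + 1) : ℤ) * (k + 1) = (n.choose k : ℤ) * ((n - k : ℕ) : ℤ) := by
    exact_mod_cast h4
  calc ((k : ℤ) + 1) * (4 * (k + 1) * (k + 2) * (G0 n).coeff (k + 2)) =
      4 * (k + 1) * (k + 1) * (((k : ℤ) + 1 + 1) * (G0 n).coeff (k + 1 + 1)) := by ring
    _ = 4 * (k + 1) * ((n.choose (k + 1) : ℤ) * (k + 1)) * (ss (n - (k + 1)) (k + 1) : ℤ) := by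
        rw [h2]
        ring
    _ = (n.choose k : ℤ) * (4 * ((k : ℤ) + 1) * (((n - k : ℕ) : ℤ) *
        (ss (n - (k + 1)) (k + 1) : ℤ))) := by
        rw [h4']
        ring
    _ ≤ (n.choose k : ℤ) * (((r : ℤ) + 1) ^ 2 * (ss (n - k) k : ℤ)) :=
        mul_le_mul_of_nonneg_left h3' (by positivity)
    _ = ((r : ℤ) + 1) ^ 2 * ((n.choose k : ℤ) * (ss (n - k) k : ℤ)) := by ring
    _ = _ := by
        rw [← h1]
        ring

theorem G0_lower (n k r : ℕ) (h : r + 2 * (k + 1) = n) :
    ((n.choose k * ((r + k).choose k * 2 ^ r) : ℕ) : ℤ) ≤ ((k : ℤ) + 1) * (G0 n).coeff (k + 1) := by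
  rw [G0_coeff]
  have h1 := ss_lower (r + k) k
  have e1 : r + k + 2 = n - k := by omega
  have e2 : r + k - k = r := by omega
  rw [e1, e2] at h1
  exact_mod_cast Nat.mul_le_mul_left _ h1

end Pool.Agent.Q142.TG
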