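import Mathlib

/-!
# Laurent polynomials and toric g-polynomials
-/

set_option autoImplicit false
set_option linter.unusedSectionVars false

namespace Pool.Agent.Q142.TG

open Finset
open LaurentPolynomial (T T_add)

/-- differences -/
def dl (h : ℕ → ℤ) (j : ℕ) : ℤ := if j = 0 then h 0 else h j - h (j - 1)

/-- the homogeneous polynomial with the coefficients `h` -/
def Hh {R : Type*} [CommRing R] (e : ℕ) (h : ℕ → ℤ) (U V : R) : R :=
  ∑ i ∈ range (e + 1), (h i : R) * (U ^ i * V ^ (e - i))

theorem antisym {R : Type*} [CommRing R] (U V : R) : ∀ (e : ℕ) (h : ℕ → ℤ),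
    (∀ i, i ≤ e → h (e - i) = h i) →
    (U - V) * Hh e h U V =
      ∑ j ∈ range (e / 2 + 1), (dl h j : R) * ((U * V) ^ j * (U ^ (e + 1 - 2 * j) - V ^ (e + 1 - 2 * j)))
  | 0, h, _ => by
    simp [Hh, dl]
    ring
  | 1, h, hs => by
    have h1 : h 1 = h 0 := hs 0 (by norm_num)
    simp only [Hh, dl, sum_range_succ, range_zero, sum_empty]
    norm_num
    rw [h1]
    ring
  | e + 2, h, hs => by
    have ih := antisym U V e (fun i => h (i + 1) - h 0) (by
      intro i hi
      have := hs (i + 1) (by omega)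
      have e1 : e + 2 - (i + 1) = e - i + 1 := by omega
      rw [e1] at this
      show h (e - i + 1) - h 0 = h (i + 1) - h 0
      rw [this])
    have h0 : h (e + 2) = h 0 := by
      have := hs 0 (by omega)
      simpa using this
    -- the polynomial
    have hH : Hh (e + 2) h U V = (h 0 : R) * ∑ i ∈ range (e + 2 + 1), U ^ i * V ^ (e + 2 - i) +
        U * V * Hh e (fun i => h (i + 1) - h 0) U V := by
      unfold Hh
      have e1 : U * V * ∑ i ∈ range (e + 1), ((h (i + 1) - h 0 : ℤ) : R) * (U ^ i * V ^ (e - i)) =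
          ∑ i ∈ range (e + 1), ((h (i + 1) : R) * (U ^ (i + 1) * V ^ (e + 2 - (i + 1))) -
            (h 0 : R) * (U ^ (i + 1) * V ^ (e + 2 - (i + 1)))) := by
        rw [mul_sum]
        refine sum_congr rfl fun i hi => ?_
        have e2 : e + 2 - (i + 1) = e - i + 1 := by
          have := mem_range.1 hi
          omega
        rw [e2]
        push_cast
        ring
      rw [e1, sum_sub_distrib, sum_range_succ (fun i => (h i : R) * (U ^ i * V ^ (e + 2 - i))),
        sum_range_succ' (fun i => (h i : R) * (U ^ i * V ^ (e + 2 - i))),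
        sum_range_succ (fun i => U ^ i * V ^ (e + 2 - i)),
        sum_range_succ' (fun i => U ^ i * V ^ (e + 2 - i)), h0, ← mul_sum]
      ring
    have hgeom : (U - V) * ∑ i ∈ range (e + 2 + 1), U ^ i * V ^ (e + 2 - i) =
        U ^ (e + 3) - V ^ (e + 3) := by
      have := (Commute.all U V).mul_geom_sum₂ (e + 3)
      rw [← this]
      congr 1
    have hdiv : (e + 2) / 2 + 1 = e / 2 + 1 + 1 := by omega
    rw [hH, mul_add, hdiv]
    have e3 : (U - V) * (U * V * Hh e (fun i => h (i + 1) - h 0) U V) =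
        U * V * ((U - V) * Hh e (fun i => h (i + 1) - h 0) U V) := by ring
    rw [e3, ih]
    have e4 : (U - V) * ((h 0 : R) * ∑ i ∈ range (e + 2 + 1), U ^ i * V ^ (e + 2 - i)) =
        (h 0 : R) * ((U - V) * ∑ i ∈ range (e + 2 + 1), U ^ i * V ^ (e + 2 - i)) := by ring
    rw [e4, hgeom, mul_sum, add_comm, sum_range_succ' _ (e / 2 + 1)]
    congr 1
    · refine sum_congr rfl fun j hj => ?_
      have e5 : e + 2 + 1 - 2 * (j + 1) = e + 1 - 2 * j := by omega
      have e6 : dl h (j + 1) = dl (fun i => h (i + 1) - h 0) j := by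
        unfold dl
        rw [if_neg (by omega)]
        by_cases hj0 : j = 0
        · rw [if_pos hj0, hj0]
        · rw [if_neg hj0]
          have e7 : j - 1 + 1 = j := by omega
          show h (j + 1) - h (j + 1 - 1) = (h (j + 1) - h 0) - (h (j - 1 + 1) - h 0)
          rw [e7, Nat.add_sub_cancel]
          ring
      rw [e5, e6]
      ring
    · unfold dl
      simp

variable {K : Type} [CommRing K]

/-- `p + z` -/
noncomputable def uu (p : K) : LaurentPolynomial K := LaurentPolynomial.C p + T 1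

/-- `p + p q / z` -/
noncomputable def vv (p q : K) : LaurentPolynomial K :=
  LaurentPolynomial.C p + LaurentPolynomial.C (p * q) * T (-1)

/-- `p + q + z + p q / z` -/
noncomputable def AA (p q : K) : LaurentPolynomial K :=
  LaurentPolynomial.C p + LaurentPolynomial.C q + T 1 + LaurentPolynomial.C (p * q) * T (-1)

theorem TT : (T 1 * T (-1) : LaurentPolynomial K) = 1 := by
  rw [← T_add]
  simp

theorem uv_eq (p q : K) : uu p * vv p q = LaurentPolynomial.C p * AA p q := by
  unfold uu vv AA
  simp only [map_mul]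
  linear_combination (LaurentPolynomial.C p * LaurentPolynomial.C q) * TT (K := K)

theorem Au (p q : K) : AA p q * T 1 = uu p * (uu p - LaurentPolynomial.C (p - q)) := by
  unfold uu AA
  simp only [map_mul, map_sub]
  linear_combination (LaurentPolynomial.C p * LaurentPolynomial.C q) * TT (K := K)

theorem Av (p q : K) : AA p q * (LaurentPolynomial.C (p * q) * T (-1)) =
    vv p q * (vv p q - LaurentPolynomial.C (p - q)) := by
  unfold vv AA
  simp only [map_mul, map_sub]
  linear_combination (LaurentPolynomial.C p * LaurentPolynomial.C q) * TT (K := K)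

/-- the contribution of the simplex -/
noncomputable def M0 (e : ℕ) (p q : K) : LaurentPolynomial K :=
  T 1 * ∑ i ∈ range e, uu p ^ i * LaurentPolynomial.C (p - q) ^ (e - 1 - i) -
    LaurentPolynomial.C (p * q) * T (-1) *
      ∑ i ∈ range e, vv p q ^ i * LaurentPolynomial.C (p - q) ^ (e - 1 - i)

theorem A_M0 (e : ℕ) (p q : K) : AA p q * M0 e p q = (uu p ^ (e + 1) - vv p q ^ (e + 1)) -
    (uu p - vv p q) * LaurentPolynomial.C (p - q) ^ e := by
  unfold M0
  have h1 := (Commute.all (uu p) (LaurentPolynomial.C (p - q))).mul_geom_sum₂ e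
  have h2 := (Commute.all (vv p q) (LaurentPolynomial.C (p - q))).mul_geom_sum₂ e
  rw [mul_sub, ← mul_assoc, ← mul_assoc, Au, Av, mul_assoc, mul_assoc, h1, h2]
  ring

/-- the quotient -/
noncomputable def MM (e : ℕ) (h : ℕ → ℤ) (p q : K) : LaurentPolynomial K :=
  ∑ i ∈ range (e / 2), (dl h (i + 1) : LaurentPolynomial K) * (LaurentPolynomial.C p *
    (uu p ^ (e - i - 1) * vv p q ^ i - uu p ^ i * vv p q ^ (e - i - 1))) + M0 e p q

theorem A_MM (e : ℕ) (h : ℕ → ℤ) (h0 : h 0 = 1) (hs : ∀ i, i ≤ e → h (e - i) = h i) (p q : K) :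
    AA p q * MM e h p q =
      (uu p - vv p q) * (Hh e h (uu p) (vv p q) - LaurentPolynomial.C (p - q) ^ e) := by
  unfold MM
  rw [mul_add, A_M0, mul_sub (uu p - vv p q), antisym (uu p) (vv p q) e h hs, sum_range_succ',
    mul_sum]
  have h1 : (dl h 0 : LaurentPolynomial K) = 1 := by
    unfold dl
    simp [h0]
  rw [h1]
  have h2 : ∑ i ∈ range (e / 2), AA p q * ((dl h (i + 1) : LaurentPolynomial K) *
      (LaurentPolynomial.C p *
        (uu p ^ (e - i - 1) * vv p q ^ i - uu p ^ i * vv p q ^ (e - i - 1)))) =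
      ∑ j ∈ range (e / 2), (dl h (j + 1) : LaurentPolynomial K) * ((uu p * vv p q) ^ (j + 1) *
        (uu p ^ (e + 1 - 2 * (j + 1)) - vv p q ^ (e + 1 - 2 * (j + 1)))) := by
    refine sum_congr rfl fun i hi => ?_
    have hi' := mem_range.1 hi
    have e1 : e - i - 1 = i + (e + 1 - 2 * (i + 1)) := by omega
    rw [pow_succ (uu p * vv p q) i, uv_eq, ← uv_eq, e1, pow_add, pow_add, mul_pow]
    have e2 := uv_eq p q
    linear_combination (-(dl h (i + 1) : LaurentPolynomial K) * uu p ^ i * vv p q ^ i *
      (uu p ^ (e + 1 - 2 * (i + 1)) - vv p q ^ (e + 1 - 2 * (i + 1)))) * e2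
  rw [h2]
  simp only [pow_zero, one_mul, mul_zero, Nat.sub_zero]
  ring

end Pool.Agent.Q142.TG
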