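import Pool.Agent.Helper715.Geo2
import Pool.Agent.Helper715.Poly2

/-!
# The faces of a simple cone through one of its rays

If the ray `a` of a pointed cone of dimension `d + 1` lies in exactly `d` two-dimensional faces, then
the faces through `a` correspond to the sets of two-dimensional faces through `a`.
-/

set_option autoImplicit false
set_option linter.unusedSectionVars false

namespace Pool.Agent.Q142.TG

open Finset
open Pool.Agent.Helper715
open Pool.Agent.Helper715.CP

variable {W : Type} [NormedAddCommGroup W] [InnerProductSpace ℝ W] [FiniteDimensional ℝ W]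

variable {P : CP W}

open Classical in
/-- the two-dimensional faces through the ray `a` -/
noncomputable def Ed (a : P.Lev 1) : Finset (P.Lev 2) := univ.filter fun c => a.1 ⊆ c.1

open Classical in
/-- the two-dimensional faces through the ray `a` which are contained in `F` -/
noncomputable def Tr (a : P.Lev 1) (F : Finset W) : Finset (P.Lev 2) :=
  (Ed a).filter fun c => c.1 ⊆ F

theorem mem_Ed {a : P.Lev 1} {c : P.Lev 2} : c ∈ Ed a ↔ a.1 ⊆ c.1 := by
  classical
  unfold Ed
  rw [mem_filter]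
  exact ⟨fun h => h.2, fun h => ⟨mem_univ _, h⟩⟩

theorem mem_Tr {a : P.Lev 1} {F : Finset W} {c : P.Lev 2} : c ∈ Tr a F ↔ a.1 ⊆ c.1 ∧ c.1 ⊆ F := by
  classical
  unfold Tr
  rw [mem_filter, mem_Ed]

theorem Tr_mono {a : P.Lev 1} {F G : Finset W} (h : F ⊆ G) : Tr a F ⊆ Tr a G := by
  intro c hc
  rw [mem_Tr] at hc ⊢
  exact ⟨hc.1, hc.2.trans h⟩

theorem Ed_cov {a : P.Lev 1} {c : P.Lev 2} (h : a.1 ⊆ c.1) : P.Cov a.1 c.1 c.1 :=
  ⟨c.cl, h, Subset.refl _, by rw [a.dim, c.dim]⟩

theorem Ed_rep {a : P.Lev 1} {c : P.Lev 2} (h : a.1 ⊆ c.1) : ∃ x ∈ c.1, x ∉ a.1 :=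
  (Ed_cov h).exists_nm a.cl

/-- the sign of a functional which vanishes on `a` is constant on a two-dimensional face through `a` -/
theorem Ed_ratio {a : P.Lev 1} {c : P.Lev 2} (h : a.1 ⊆ c.1) {y : W}
    (hy : ∀ x ∈ a.1, inner ℝ y x = 0) : ∃ r : ℝ, ∀ x ∈ c.1, inner ℝ y x = r * inner ℝ (P.gs a.1) x :=
  exists_ratio a.cl (Ed_cov h) hy

theorem Ed_gs_pos {a : P.Lev 1} {c : P.Lev 2} {x : W} (hx : x ∈ c.1) (hxa : x ∉ a.1) :
    0 < inner ℝ (P.gs a.1) x := gs_pos a.cl (c.cl.sub hx) hxa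

/-- a functional which vanishes on `a` and on all two-dimensional faces through `a` in `F` vanishes
on `F` -/
theorem vanish {a : P.Lev 1} {F : Finset W} (hF : P.Cl F) (ha : a.1 ⊆ F) {y : W}
    (hya : ∀ x ∈ a.1, inner ℝ y x = 0)
    (hyc : ∀ c ∈ Tr a F, ∃ x ∈ c.1, x ∉ a.1 ∧ inner ℝ y x = 0) : ∀ x ∈ F, inner ℝ y x = 0 := by
  have key : ∀ y : W, (∀ x ∈ a.1, inner ℝ y x = 0) →
      (∀ c ∈ Tr a F, ∃ x ∈ c.1, x ∉ a.1 ∧ inner ℝ y x = 0) → ∀ x ∈ F, ¬ 0 < inner ℝ y x := by
    intro y hya hyc x hx hpos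
    obtain ⟨C, h1, h2, h3, h4, z, hz, hzpos⟩ := cover_up a.cl hF ha hya ⟨x, hx, hpos⟩
    have hdim : dm C = 2 := by rw [h4, a.dim]
    obtain ⟨w, hw, hwa, hw0⟩ := hyc ⟨C, h1, hdim⟩ (mem_Tr.2 ⟨h2, h3⟩)
    obtain ⟨r, hr⟩ := Ed_ratio (c := ⟨C, h1, hdim⟩) h2 hya
    have h5 := hr w hw
    rw [hw0] at h5
    have h6 : 0 < inner ℝ (P.gs a.1) w := Ed_gs_pos (c := ⟨C, h1, hdim⟩) hw hwa
    have h7 : r = 0 := by
      rcases mul_eq_zero.1 h5.symm with h | h
      · exact h
      · exact absurd h h6.ne'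
    have h8 := hr z hz
    rw [h7, zero_mul] at h8
    rw [h8] at hzpos
    exact lt_irrefl _ hzpos
  intro x hx
  apply le_antisymm
  · exact not_lt.1 (key y hya hyc x hx)
  · have h1 := key (-y) (fun x hx => by rw [inner_neg_left, hya x hx, neg_zero])
      (fun c hc => by
        obtain ⟨w, hw, hwa, hw0⟩ := hyc c hc
        exact ⟨w, hw, hwa, by rw [inner_neg_left, hw0, neg_zero]⟩) x hx
    rw [inner_neg_left] at h1
    linarith [not_lt.1 h1]

section frame

variable (a : P.Lev 1)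

/-- a vector on the ray -/
noncomputable def rv : W := (exists_rep a).choose

theorem rv_mem : rv a ∈ a.1 := (exists_rep a).choose_spec.1

open Classical in
/-- a vector on a two-dimensional face, not on the ray -/
noncomputable def ev (c : P.Lev 2) : W := if h : a.1 ⊆ c.1 then (Ed_rep h).choose else 0

theorem ev_mem {c : P.Lev 2} (h : a.1 ⊆ c.1) : ev a c ∈ c.1 := by
  unfold ev
  rw [dif_pos h]
  exact (Ed_rep h).choose_spec.1

theorem ev_not_mem {c : P.Lev 2} (h : a.1 ⊆ c.1) : ev a c ∉ a.1 := by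
  unfold ev
  rw [dif_pos h]
  exact (Ed_rep h).choose_spec.2

theorem rv_ne : rv a ≠ 0 := by
  intro h
  have h1 := gsbot_pos (exists_rep a).choose_spec.1 (exists_rep a).choose_spec.2
  have h2 : (exists_rep a).choose = 0 := h
  rw [h2, inner_zero_right] at h1
  exact lt_irrefl _ h1

theorem rv_span : Submodule.span ℝ (a.1 : Set W) = Submodule.span ℝ {rv a} := by
  symm
  apply Submodule.eq_of_le_of_finrank_le
  · rw [Submodule.span_singleton_le_iff_mem]
    exact Submodule.subset_span (rv_mem a)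
  · rw [finrank_span_singleton (rv_ne a)]
    exact le_of_eq a.dim

theorem perp_of_rv {y : W} (h : inner ℝ y (rv a) = 0) : ∀ x ∈ a.1, inner ℝ y x = 0 := by
  intro x hx
  have h1 : x ∈ Submodule.span ℝ {rv a} := by
    rw [← rv_span]
    exact Submodule.subset_span hx
  obtain ⟨r, rfl⟩ := Submodule.mem_span_singleton.1 h1
  rw [real_inner_smul_right, h, mul_zero]

/-- the frame at `a` -/
noncomputable def fr : Option {c // c ∈ Ed a} → W
  | none => rv a
  | some c => ev a c.1

theorem span_face {F : Finset W} (hF : P.Cl F) (ha : a.1 ⊆ F) :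
    Submodule.span ℝ (F : Set W) =
      Submodule.span ℝ (fr a '' {i | ∀ c, i = some c → c.1.1 ⊆ F}) := by
  apply le_antisymm
  · set K := Submodule.span ℝ (fr a '' {i | ∀ c, i = some c → c.1.1 ⊆ F}) with hK
    rw [Submodule.span_le]
    intro f hf
    by_contra hfK
    have hfK' : f ∉ K := hfK
    -- the component of `f` orthogonal to `K`
    have hKc : K = (Kᗮ)ᗮ := (Submodule.orthogonal_orthogonal K).symm
    rw [hKc, Submodule.mem_orthogonal] at hfK'
    push Not at hfK'
    obtain ⟨y, hy, hyf⟩ := hfK'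
    have hyK : ∀ k ∈ K, inner ℝ y k = 0 := by
      intro k hk
      rw [Submodule.mem_orthogonal'] at hy
      exact hy k hk
    apply hyf
    refine vanish hF ha ?_ ?_ f hf
    · apply perp_of_rv
      exact hyK _ (Submodule.subset_span ⟨none, fun c hc => by simp at hc, rfl⟩)
    · intro c hc
      rw [mem_Tr] at hc
      refine ⟨ev a c, ev_mem a hc.1, ev_not_mem a hc.1, hyK _ (Submodule.subset_span ?_)⟩
      refine ⟨some ⟨c, mem_Ed.2 hc.1⟩, fun c' hc' => ?_, rfl⟩
      have : c' = ⟨c, mem_Ed.2 hc.1⟩ := (Option.some.inj hc').symm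
      rw [this]
      exact hc.2
  · rw [Submodule.span_le]
    rintro _ ⟨i, hi, rfl⟩
    cases i with
    | none => exact Submodule.subset_span (ha (rv_mem a))
    | some c => exact Submodule.subset_span (hi c rfl (ev_mem a (mem_Ed.1 c.2)))

variable {d : ℕ} (hW : Module.finrank ℝ W = d + 1) (hd : (Ed a).card = d)
include hW hd

theorem fr_indep : LinearIndependent ℝ (fr a) := by
  classical
  apply linearIndependent_of_top_le_span_of_card_eq_finrank
  · have h := span_face a (top_cl (P := P)) a.cl.sub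
    rw [P.sV] at h
    rw [h]
    apply Submodule.span_mono
    rintro _ ⟨i, _, rfl⟩
    exact ⟨i, rfl⟩
  · rw [hW, Fintype.card_option, Fintype.card_coe, hd]

theorem dm_face {F : Finset W} (hF : P.Cl F) (ha : a.1 ⊆ F) : dm F = (Tr a F).card + 1 := by
  classical
  unfold dm
  rw [span_face a hF ha]
  set s : Set (Option {c // c ∈ Ed a}) := {i | ∀ c, i = some c → c.1.1 ⊆ F} with hs
  have h1 := (fr_indep a hW hd).comp (fun i : s => i.1) Subtype.val_injective
  have h2 : Set.range (fr a ∘ fun i : s => i.1) = fr a '' s := by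
    rw [Set.range_comp, Subtype.range_coe]
  have h3 := finrank_span_eq_card h1
  rw [h2] at h3
  rw [h3]
  have h4 : Fintype.card s = (univ.filter fun i => i ∈ s).card := by
    rw [Fintype.card_subtype]
  rw [h4]
  have h5 : (univ.filter fun i => i ∈ s) = insert none
      (((Tr a F).attach.image fun c => some (⟨c.1, mem_Ed.2 (mem_Tr.1 c.2).1⟩ : {c // c ∈ Ed a}))) := by
    ext i
    rw [mem_filter, mem_insert, mem_image]
    cases i with
    | none => simp [hs]
    | some c =>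
      constructor
      · rintro ⟨_, h⟩
        right
        exact ⟨⟨c.1, mem_Tr.2 ⟨mem_Ed.1 c.2, h c rfl⟩⟩, mem_attach _ _, rfl⟩
      · rintro (h | ⟨c', _, h⟩)
        · simp at h
        · refine ⟨mem_univ _, fun c'' hc'' => ?_⟩
          have h6 : c'' = ⟨c'.1, mem_Ed.2 (mem_Tr.1 c'.2).1⟩ :=
            Option.some.inj (hc''.symm.trans h.symm)
          rw [h6]
          exact (mem_Tr.1 c'.2).2
  rw [h5, card_insert_of_notMem, card_image_of_injective, card_attach]
  · intro c c' h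
    have h6 := Option.some.inj h
    apply Subtype.ext
    exact congrArg (fun c : {c // c ∈ Ed a} => c.1) h6
  · rw [mem_image]
    rintro ⟨c, _, h⟩
    simp at h

theorem exists_face (T : Finset (P.Lev 2)) (hT : T ⊆ Ed a) :
    ∃ F, P.Cl F ∧ a.1 ⊆ F ∧ Tr a F = T := by
  classical
  have hli := fr_indep a hW hd
  have hspan : ⊤ ≤ Submodule.span ℝ (Set.range (fr a)) := by
    have h := span_face a (top_cl (P := P)) a.cl.sub
    rw [P.sV] at h
    rw [h]
    apply Submodule.span_mono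
    rintro _ ⟨i, _, rfl⟩
    exact ⟨i, rfl⟩
  let b := Module.Basis.mk hli hspan
  let ℓ : W →ₗ[ℝ] ℝ := b.constr ℝ fun i =>
    match i with
    | none => (0 : ℝ)
    | some c => if c.1 ∈ T then 0 else 1
  have hℓ : ∀ i, ℓ (fr a i) = (match i with
    | none => (0 : ℝ)
    | some c => if c.1 ∈ T then 0 else 1) := by
    intro i
    have h1 : b i = fr a i := Module.Basis.mk_apply hli hspan i
    rw [← h1]
    exact b.constr_basis ℝ _ i
  obtain ⟨y, hy⟩ := dual_inner (LinearMap.toContinuousLinearMap ℓ)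
  have hy' : ∀ x, inner ℝ y x = ℓ x := fun x => (hy x).symm
  have hy0 : inner ℝ y (rv a) = 0 := by
    rw [hy']
    exact hℓ none
  have hya := perp_of_rv a hy0
  have hyc : ∀ c : P.Lev 2, a.1 ⊆ c.1 → inner ℝ y (ev a c) = if c ∈ T then 0 else 1 := by
    intro c hc
    rw [hy']
    exact hℓ (some ⟨c, mem_Ed.2 hc⟩)
  -- on every two-dimensional face through `a`
  have hedge : ∀ c : P.Lev 2, a.1 ⊆ c.1 → ∃ r : ℝ, 0 ≤ r ∧ (r = 0 ↔ c ∈ T) ∧
      ∀ x ∈ c.1, inner ℝ y x = r * inner ℝ (P.gs a.1) x := by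
    intro c hc
    obtain ⟨r, hr⟩ := Ed_ratio hc hya
    have h1 := hr _ (ev_mem a hc)
    have h2 := Ed_gs_pos (ev_mem a hc) (ev_not_mem a hc)
    rw [hyc c hc] at h1
    by_cases hcT : c ∈ T
    · rw [if_pos hcT] at h1
      have h3 : r = 0 := by
        rcases mul_eq_zero.1 h1.symm with h | h
        · exact h
        · exact absurd h h2.ne'
      exact ⟨r, h3.ge, ⟨fun _ => hcT, fun _ => h3⟩, hr⟩
    · rw [if_neg hcT] at h1
      have h3 : 0 < r := by
        by_contra h
        push Not at h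
        have h4 := mul_nonneg (neg_nonneg.2 h) h2.le
        rw [neg_mul] at h4
        linarith
      exact ⟨r, h3.le, ⟨fun h => absurd h h3.ne', fun h => absurd h hcT⟩, hr⟩
  have hnn : ∀ v ∈ P.V, 0 ≤ inner ℝ y v := by
    intro v hv
    by_contra hcon
    push Not at hcon
    obtain ⟨C, h1, h2, h3, h4, z, hz, hzpos⟩ := cover_up a.cl top_cl a.cl.sub (y := -y)
      (fun x hx => by rw [inner_neg_left, hya x hx, neg_zero])
      ⟨v, hv, by rw [inner_neg_left]; linarith⟩
    obtain ⟨r, hr0, _, hr⟩ := hedge ⟨C, h1, by rw [h4, a.dim]⟩ h2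
    have h5 := hr z hz
    have h6 := mul_nonneg hr0 (gs_nonneg (P := P) a.1 (h1.sub hz))
    rw [inner_neg_left] at hzpos
    linarith
  refine ⟨P.V.filter fun v => inner ℝ y v = 0, ?_, ?_, ?_⟩
  · exact Cl_filter top_cl (z := y) hnn (fun v => mem_filter)
  · intro x hx
    exact mem_filter.2 ⟨a.cl.sub hx, hya x hx⟩
  · ext c
    rw [mem_Tr]
    constructor
    · rintro ⟨h1, h2⟩
      obtain ⟨r, _, hrT, hr⟩ := hedge c h1
      rw [← hrT]
      have h3 := (mem_filter.1 (h2 (ev_mem a h1))).2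
      rw [hr _ (ev_mem a h1)] at h3
      rcases mul_eq_zero.1 h3 with h | h
      · exact h
      · exact absurd h (Ed_gs_pos (ev_mem a h1) (ev_not_mem a h1)).ne'
    · intro hc
      have h1 := mem_Ed.1 (hT hc)
      obtain ⟨r, _, hrT, hr⟩ := hedge c h1
      refine ⟨h1, fun x hx => mem_filter.2 ⟨c.cl.sub hx, ?_⟩⟩
      rw [hr x hx, hrT.2 hc, zero_mul]

omit hW hd in
theorem sub_of_Tr {F G : Finset W} (hF : P.Cl F) (hG : P.Cl G) (haF : a.1 ⊆ F) (haG : a.1 ⊆ G)
    (h : Tr a F ⊆ Tr a G) : F ⊆ G := by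
  apply sub_of_span_le hF.sub hG
  rw [span_face a hF haF, span_face a hG haG]
  apply Submodule.span_mono
  rintro _ ⟨i, hi, rfl⟩
  refine ⟨i, fun c hc => ?_, rfl⟩
  exact (mem_Tr.1 (h (mem_Tr.2 ⟨mem_Ed.1 c.2, hi c hc⟩))).2

end frame

end Pool.Agent.Q142.TG
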