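import Pool.Agent.Q142.TG.Gam2

/-!
# The contribution of the zeroth gamma number
-/

set_option autoImplicit false
set_option linter.unusedSectionVars false

namespace Pool.Agent.Q142.TG

open Finset Polynomial

/-- the auxiliary sums -/
def ss (N k : ℕ) : ℕ := ∑ m ∈ range N, N.choose (m + 2) * m.choose k

theorem choose_sum (N K : ℕ) :
    ∑ j ∈ range (N + 1), N.choose j * j.choose K = N.choose K * 2 ^ (N - K) := by
  by_cases hK : K ≤ N
  · rw [← Nat.sum_range_choose, mul_sum]
    symm
    refine sum_bij_ne_zero (fun i _ _ => i + K) ?_ ?_ ?_ ?_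
    · intro i hi _
      have := mem_range.1 hi
      exact mem_range.2 (by omega)
    · intro a _ _ b _ _ hab
      have : a + K = b + K := hab
      omega
    · intro j hj hne
      have hj' := mem_range.1 hj
      have hKj : K ≤ j := by
        by_contra hc
        apply hne
        rw [Nat.choose_eq_zero_of_lt (by omega : j < K), mul_zero]
      refine ⟨j - K, mem_range.2 (by omega), ?_, by show j - K + K = j; omega⟩
      rw [← Nat.choose_mul hKj]
      exact hne
    · intro i hi _
      have hi' := mem_range.1 hi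
      have h1 := Nat.choose_mul (n := N) (k := i + K) (s := K) (by omega)
      rw [h1, Nat.add_sub_cancel]
  · rw [Nat.choose_eq_zero_of_lt (by omega : N < K), zero_mul]
    refine sum_eq_zero fun j hj => ?_
    have hj' := mem_range.1 hj
    rw [Nat.choose_eq_zero_of_lt (by omega : j < K), mul_zero]

/-- a mixed identity -/
theorem ss_pred (N k : ℕ) : (N + 1) * ss N k =
    ∑ m ∈ range (N + 1), (N - 1 - m) * ((N + 1).choose (m + 2) * m.choose k) := by
  unfold ss
  rw [sum_range_succ]
  have e0 : N - 1 - N = 0 := by omega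
  rw [e0, zero_mul, add_zero, mul_sum]
  refine sum_congr rfl fun m _ => ?_
  have h1 := Nat.choose_mul_succ_eq N (m + 2)
  have e1 : N + 1 - (m + 2) = N - 1 - m := by omega
  rw [e1] at h1
  calc (N + 1) * (N.choose (m + 2) * m.choose k) = (N.choose (m + 2) * (N + 1)) * m.choose k := by
        ring
    _ = _ := by rw [h1]; ring

theorem ss_star (N k : ℕ) : (N + 1) * ss N (k + 1) + (k + 2) * ((N + 1).choose (k + 2) * 2 ^ (N - 1 - k)) =
    (N + k + 2) * ss (N + 1) (k + 1) + (k + 2) * ss (N + 1) k := by
  -- the sum over all `m`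
  have h1 : (k + 2) * ((N + 1).choose (k + 2) * 2 ^ (N - 1 - k)) =
      ∑ m ∈ range (N + 1), (N + 1).choose (m + 2) * ((m + k + 3) * m.choose (k + 1) +
        (k + 2) * m.choose k) := by
    have e1 : N - 1 - k = N + 1 - (k + 2) := by omega
    rw [e1, ← choose_sum, sum_range_succ', sum_range_succ']
    have e2 : (0 : ℕ).choose (k + 2) = 0 := Nat.choose_eq_zero_of_lt (by omega)
    have e3 : (0 + 1).choose (k + 2) = 0 := Nat.choose_eq_zero_of_lt (by omega)
    rw [e2, e3, mul_zero, mul_zero, add_zero, add_zero, mul_sum, sum_range_succ _ N]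
    have e4 : (N + 1).choose (N + 2) = 0 := Nat.choose_eq_zero_of_lt (by omega)
    rw [e4, zero_mul, add_zero]
    refine sum_congr rfl fun m _ => ?_
    have e5 : m + 1 + 1 = m + 2 := rfl
    rw [e5]
    have h2 : (k + 2) * (m + 2).choose (k + 2) = (m + k + 3) * m.choose (k + 1) +
        (k + 2) * m.choose k := by
      have h3 : (m + 2).choose (k + 2) = m.choose k + 2 * m.choose (k + 1) + m.choose (k + 2) := by
        rw [Nat.choose_succ_succ' (m + 1) (k + 1), Nat.choose_succ_succ' m k,
          Nat.choose_succ_succ' m (k + 1)]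
        ring
      have h4 := Nat.choose_succ_right_eq m (k + 1)
      rw [h3]
      by_cases hm : k + 1 ≤ m
      · obtain ⟨l, rfl⟩ := Nat.exists_eq_add_of_le hm
        have e6 : k + 1 + l - (k + 1) = l := by omega
        rw [e6] at h4
        linear_combination h4
      · rw [Nat.choose_eq_zero_of_lt (by omega : m < k + 1),
          Nat.choose_eq_zero_of_lt (by omega : m < k + 2)]
        ring
    calc (k + 2) * ((N + 1).choose (m + 2) * (m + 2).choose (k + 2)) =
        (N + 1).choose (m + 2) * ((k + 2) * (m + 2).choose (k + 2)) := by ring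
      _ = _ := by rw [h2]
  rw [h1, ss_pred]
  unfold ss
  rw [mul_sum, mul_sum, ← sum_add_distrib, ← sum_add_distrib]
  refine sum_congr rfl fun m hm => ?_
  have hm' := mem_range.1 hm
  by_cases hc : m + 1 ≤ N
  · obtain ⟨l, rfl⟩ := Nat.exists_eq_add_of_le hc
    have e1 : m + 1 + l - 1 - m = l := by omega
    rw [e1]
    ring
  · rw [Nat.choose_eq_zero_of_lt (by omega : N + 1 < m + 2)]
    ring

theorem ss_zero (N : ℕ) : ss N 0 + 1 + N = 2 ^ N := by
  rw [← Nat.sum_range_choose]
  unfold ss
  simp only [Nat.choose_zero_right, mul_one]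
  cases N with
  | zero => simp
  | succ N =>
    have e1 := sum_range_succ' (fun m => (N + 1).choose m) (N + 1)
    have e2 := sum_range_succ' (fun m => (N + 1).choose (m + 1)) N
    have e3 := sum_range_succ (fun m => (N + 1).choose (m + 2)) N
    have e4 : (N + 1).choose (N + 2) = 0 := Nat.choose_eq_zero_of_lt (by omega)
    rw [e4, add_zero] at e3
    rw [e1, e2, e3]
    simp
    ring

theorem G0_coeff_zero (n : ℕ) : (G0 n).coeff 0 = 1 := by
  induction n with
  | zero => rw [G0_zero]; simp
  | succ n ih =>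
    rw [G0_succ, coeff_add, mul_coeff_zero, mul_coeff_zero, ih]
    simp

theorem G0_coeff_succ (n k : ℕ) : (G0 (n + 1)).coeff (k + 1) =
    ((catalan k * (n.choose (2 * k) * 2 ^ (n - 2 * k)) : ℕ) : ℤ) + (G0 n).coeff (k + 1) -
      (G0 n).coeff k := by
  rw [G0_succ, coeff_add, coeff_X_mul, Lam_B, sub_mul, one_mul, coeff_sub, coeff_X_mul]
  ring

theorem cat_aux (n k : ℕ) (hk : k + 1 ≤ n) : (k + 1) * ((k + 2) * (catalan (k + 1) * n.choose (2 * (k + 1)))) =
    n.choose k * ((k + 2) * (n - k).choose (k + 2)) := by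
  have h1 : (k + 2) * catalan (k + 1) = (2 * (k + 1)).choose (k + 1) := by
    rw [succ_mul_catalan_eq_centralBinom, Nat.centralBinom_eq_two_mul_choose]
  have h4 := Nat.choose_succ_right_eq n k
  have h5 : (n - k).choose (k + 2) * (k + 2) = (n - k) * (n - (k + 1)).choose (k + 1) := by
    have h6 := Nat.add_one_mul_choose_eq (n - (k + 1)) (k + 1)
    have e1 : n - (k + 1) + 1 = n - k := by omega
    rw [e1] at h6
    exact h6.symm
  by_cases h2 : 2 * (k + 1) ≤ n
  · have h3 := Nat.choose_mul (n := n) (k := 2 * (k + 1)) (s := k + 1) (by omega)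
    have e1 : 2 * (k + 1) - (k + 1) = k + 1 := by omega
    rw [e1] at h3
    calc (k + 1) * ((k + 2) * (catalan (k + 1) * n.choose (2 * (k + 1)))) =
        (k + 1) * (n.choose (2 * (k + 1)) * ((k + 2) * catalan (k + 1))) := by ring
      _ = (n.choose (k + 1) * (k + 1)) * (n - (k + 1)).choose (k + 1) := by rw [h1, h3]; ring
      _ = n.choose k * ((n - k) * (n - (k + 1)).choose (k + 1)) := by rw [h4]; ring
      _ = _ := by rw [← h5]; ring
  · rw [Nat.choose_eq_zero_of_lt (by omega : n < 2 * (k + 1)),
      Nat.choose_eq_zero_of_lt (by omega : n - k < k + 2)]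
    ring

/-- **The coefficients of the contribution of the zeroth gamma number.** -/
theorem G0_coeff (n : ℕ) : ∀ k : ℕ, ((k : ℤ) + 1) * (G0 n).coeff (k + 1) =
    ((n.choose k * ss (n - k) k : ℕ) : ℤ) := by
  induction n with
  | zero =>
    intro k
    rw [G0_zero]
    simp [ss, coeff_one]
  | succ n ih =>
    intro k
    rw [G0_coeff_succ]
    cases k with
    | zero =>
      have h1 := ih 0
      rw [G0_coeff_zero]
      simp only [Nat.choose_zero_right, one_mul, Nat.sub_zero, Nat.cast_zero, zero_add] at h1 ⊢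
      rw [h1]
      have h2 := ss_zero n
      have h3 := ss_zero (n + 1)
      have h4 : ((ss n 0 : ℤ) + 1 + n) = 2 ^ n := by exact_mod_cast h2
      have h5 : ((ss (n + 1) 0 : ℤ) + 1 + (n + 1)) = 2 ^ (n + 1) := by exact_mod_cast h3
      simp
      rw [pow_succ] at h5
      linarith
    | succ k =>
      have h1 := ih (k + 1)
      have h2 := ih k
      have hk0 : ((k : ℤ) + 1) ≠ 0 := by positivity
      apply mul_left_cancel₀ hk0
      push_cast at h1 h2 ⊢
      by_cases hk : k + 1 ≤ n
      · obtain ⟨N, hN⟩ := Nat.exists_eq_add_of_le hk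
        have e1 : n - (k + 1) = N := by omega
        have e2 : n - k = N + 1 := by omega
        have e3 : n + 1 - (k + 1) = N + 1 := by omega
        have e4 : n - 2 * (k + 1) = N - 1 - k := by omega
        rw [e1] at h1
        rw [e2] at h2
        rw [e2, e4]
        have h3 := ss_star N k
        have h4 := cat_aux n k hk
        rw [e2] at h4
        have h5 := Nat.choose_succ_right_eq n k
        rw [e2] at h5
        have h6 := Nat.add_one_mul_choose_eq n k
        have h3' : ((N : ℤ) + 1) * ss N (k + 1) + (k + 2) * (((N + 1).choose (k + 2) : ℤ) *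
            2 ^ (N - 1 - k)) = (N + k + 2) * ss (N + 1) (k + 1) + (k + 2) * ss (N + 1) k := by
          exact_mod_cast h3
        have h4' : ((k : ℤ) + 1) * ((k + 2) * ((catalan (k + 1) : ℤ) * (n.choose (2 * (k + 1)) : ℤ))) =
            (n.choose k : ℤ) * ((k + 2) * ((N + 1).choose (k + 2) : ℤ)) := by exact_mod_cast h4
        have h5' : (n.choose (k + 1) : ℤ) * (k + 1) = (n.choose k : ℤ) * (N + 1) := by
          exact_mod_cast h5
        have h6' : ((n : ℤ) + 1) * (n.choose k : ℤ) = ((n + 1).choose (k + 1) : ℤ) * (k + 1) := by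
          exact_mod_cast h6
        have hn : (n : ℤ) = k + 1 + N := by exact_mod_cast hN
        rw [hn] at h6'
        linear_combination ((k : ℤ) + 1) * h1 - ((k : ℤ) + 2) * h2 + (2 : ℤ) ^ (N - 1 - k) * h4' +
          (n.choose k : ℤ) * h3' + (ss N (k + 1) : ℤ) * h5' + (ss (N + 1) (k + 1) : ℤ) * h6'
      · have e1 : n - (k + 1) = 0 := by omega
        have e2 : n - k = 0 := by omega
        have e3 : n + 1 - (k + 1) = 0 := by omega
        rw [e1] at h1
        rw [e2] at h2
        rw [e2, Nat.choose_eq_zero_of_lt (by omega : n < 2 * (k + 1))]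
        have e4 : ∀ j, ss 0 j = 0 := fun j => by simp [ss]
        rw [e4] at h1 h2 ⊢
        push_cast
        push_cast at h1 h2
        linear_combination ((k : ℤ) + 1) * h1 - ((k : ℤ) + 2) * h2

end Pool.Agent.Q142.TG
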