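import Pool.Agent.Q142.TG.Coef

/-!
# Toric g-polynomials of systems of faces
-/

set_option autoImplicit false
set_option linter.unusedSectionVars false

namespace Pool.Agent.Q142.TG

open Finset Polynomial
open LaurentPolynomial (T T_add)

variable {β : Type} [PartialOrder β]

open Classical in
/-- a system of faces with Boolean upper intervals and symmetric h-vectors -/
structure Sys (L : Finset β) (r : β → ℕ) : Prop where
  bot : ∃ b ∈ L, r b = 0 ∧ ∀ y ∈ L, b ≤ y
  rk0 : ∀ x ∈ L, ∀ y ∈ L, r x = 0 → r y = 0 → x = y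
  mono : ∀ x ∈ L, ∀ y ∈ L, x < y → r x < r y
  cnt : ∀ x ∈ L, ∀ y ∈ L, x ≤ y → 1 ≤ r x → ∀ k,
    (L.filter fun z => x ≤ z ∧ z ≤ y ∧ r z = k).card =
      if r x ≤ k then (r y - r x).choose (k - r x) else 0
  hv : ∀ y ∈ L, ∀ e, r y = e + 1 → ∃ h : ℕ → ℤ, h 0 = 1 ∧ (∀ i, i ≤ e → h (e - i) = h i) ∧
    ∀ i, ((L.filter fun x => x ≤ y ∧ r x = i + 1).card : ℤ) =
      ∑ j ∈ range (e + 1), h j * (j.choose i : ℤ)

open Classical in
/-- the faces of rank at least one below `y` -/
noncomputable def Lw (L : Finset β) (r : β → ℕ) (y : β) : Finset β := L.filter fun x => x ≤ y ∧ 1 ≤ r x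

theorem mem_Lw {L : Finset β} {r : β → ℕ} {x y : β} : x ∈ Lw L r y ↔ x ∈ L ∧ x ≤ y ∧ 1 ≤ r x := by
  classical
  unfold Lw
  rw [mem_filter]

section

variable {L : Finset β} {r : β → ℕ}

theorem Sys.mono' (hS : Sys L r) {x y : β} (hx : x ∈ L) (hy : y ∈ L) (h : x ≤ y) : r x ≤ r y := by
  rcases h.lt_or_eq with h | h
  · exact (hS.mono x hx y hy h).le
  · rw [h]

open Classical in
/-- sums over intervals -/
theorem Sys.sum_interval (hS : Sys L r) {R : Type*} [CommRing R] {x y : β} (hx : x ∈ L) (hy : y ∈ L)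
    (hxy : x ≤ y) (h1 : 1 ≤ r x) (φ : ℕ → R) :
    ∑ z ∈ L.filter (fun z => x ≤ z ∧ z ≤ y), φ (r z) =
      ∑ k ∈ range (r y - r x + 1), ((r y - r x).choose k : R) * φ (r x + k) := by
  have h2 := sum_fiberwise_of_maps_to (s := L.filter fun z => x ≤ z ∧ z ≤ y)
    (t := (range (r y - r x + 1)).image fun k => r x + k) (g := r) (fun z hz => by
      rw [mem_filter] at hz
      rw [mem_image]
      have h3 := hS.mono' hx hz.1 hz.2.1
      have h4 := hS.mono' hz.1 hy hz.2.2
      exact ⟨r z - r x, mem_range.2 (by omega), by omega⟩) (fun z => φ (r z))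
  rw [← h2, sum_image (fun a _ b _ h => by
    have : r x + a = r x + b := h
    omega)]
  refine sum_congr rfl fun k _ => ?_
  rw [sum_congr rfl (g := fun _ => φ (r x + k)) (fun z hz => by rw [(mem_filter.1 hz).2]),
    sum_const, filter_filter]
  have h3 := hS.cnt x hx y hy hxy h1 (r x + k)
  rw [if_pos (by omega), Nat.add_sub_cancel_left] at h3
  rw [nsmul_eq_mul, ← h3]
  congr 2
  refine congrArg card (filter_congr fun z _ => ?_)
  tauto

open Classical in
/-- from face numbers to h-numbers -/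
theorem Sys.f_to_h (hS : Sys L r) {R : Type*} [CommRing R] {y : β} (hy : y ∈ L) {e : ℕ}
    (he : r y = e + 1) {h : ℕ → ℤ} (hf : ∀ i,
      ((L.filter fun x => x ≤ y ∧ r x = i + 1).card : ℤ) = ∑ j ∈ range (e + 1), h j * (j.choose i : ℤ))
    (U V : R) :
    ∑ x ∈ Lw L r y, (U - V) ^ (r x - 1) * V ^ (r y - r x) = Hh e h U V := by
  have h2 := sum_fiberwise_of_maps_to (s := Lw L r y) (t := range (e + 1)) (g := fun x => r x - 1)
    (fun z hz => by
      rw [mem_Lw] at hz
      rw [mem_range]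
      have := hS.mono' hz.1 hy hz.2.1
      omega) (fun x => (U - V) ^ (r x - 1) * V ^ (r y - r x))
  rw [← h2]
  have h3 : ∀ i ∈ range (e + 1), ∑ x ∈ (Lw L r y).filter (fun x => r x - 1 = i),
      (U - V) ^ (r x - 1) * V ^ (r y - r x) =
      ∑ j ∈ range (e + 1), (h j : R) * ((j.choose i : R) * ((U - V) ^ i * V ^ (e - i))) := by
    intro i hi
    rw [sum_congr rfl (g := fun _ => (U - V) ^ i * V ^ (e - i)), sum_const, nsmul_eq_mul]
    · have h4 : (((Lw L r y).filter fun x => r x - 1 = i).card : ℤ) =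
          ∑ j ∈ range (e + 1), h j * (j.choose i : ℤ) := by
        rw [← hf i]
        congr 1
        refine congrArg card ?_
        ext x
        rw [mem_filter, mem_Lw, mem_filter]
        constructor
        · rintro ⟨⟨h5, h6, h7⟩, h8⟩
          exact ⟨h5, h6, by omega⟩
        · rintro ⟨h5, h6, h7⟩
          exact ⟨⟨h5, h6, by omega⟩, by omega⟩
      have h5 : ((((Lw L r y).filter fun x => r x - 1 = i).card : ℤ) : R) =
          ((∑ j ∈ range (e + 1), h j * (j.choose i : ℤ) : ℤ) : R) := by rw [h4]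
      push_cast at h5
      rw [h5, sum_mul]
      exact sum_congr rfl fun j _ => by ring
    · intro x hx
      rw [mem_filter, mem_Lw] at hx
      obtain ⟨⟨h5, h6, h7⟩, h8⟩ := hx
      have e1 : r y - r x = e - i := by omega
      rw [h8, e1]
  rw [sum_congr rfl h3, sum_comm]
  unfold Hh
  refine sum_congr rfl fun j hj => ?_
  have hj' := mem_range.1 hj
  rw [← mul_sum]
  congr 1
  have h6 : U ^ j = ∑ i ∈ range (j + 1), (U - V) ^ i * V ^ (j - i) * (j.choose i : R) := by
    rw [← add_pow, sub_add_cancel]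
  rw [h6, sum_mul]
  symm
  rw [sum_subset (range_subset_range.2 (by omega : j + 1 ≤ e + 1))]
  · refine sum_congr rfl fun i _ => ?_
    by_cases hij : i ≤ j
    · have e1 : e - i = (j - i) + (e - j) := by omega
      rw [e1, pow_add]
      ring
    · rw [Nat.choose_eq_zero_of_lt (by omega : j < i)]
      push_cast
      ring
  · intro i _ hi
    rw [mem_range] at hi
    rw [Nat.choose_eq_zero_of_lt (by omega : j < i)]
    push_cast
    ring

open Classical in
/-- the shift identity -/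
theorem Sys.shift (hS : Sys L r) {R : Type*} [CommRing R] {H : β → ℕ → ℤ}
    (hH : ∀ y ∈ L, ∀ e, r y = e + 1 → ∀ i,
      ((L.filter fun x => x ≤ y ∧ r x = i + 1).card : ℤ) =
        ∑ j ∈ range (e + 1), H y j * (j.choose i : ℤ)) {y : β} (hy : y ∈ L) (h1 : 1 ≤ r y)
    (U V s : R) :
    ∑ x ∈ Lw L r y, s ^ (r y - r x) * Hh (r x - 1) (H x) U V =
      Hh (r y - 1) (H y) (U + s) (V + s) := by
  have hs : ∀ z ∈ L, 1 ≤ r z → ∀ U V : R,
      ∑ x ∈ Lw L r z, (U - V) ^ (r x - 1) * V ^ (r z - r x) = Hh (r z - 1) (H z) U V := by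
    intro z hz hz1 U V
    exact hS.f_to_h hz (by omega) (hH z hz (r z - 1) (by omega)) U V
  rw [← hs y hy h1]
  have e1 : ∀ x ∈ Lw L r y, s ^ (r y - r x) * Hh (r x - 1) (H x) U V =
      ∑ w ∈ Lw L r y, if w ≤ x then
        s ^ (r y - r x) * ((U - V) ^ (r w - 1) * V ^ (r x - r w)) else 0 := by
    intro x hx
    rw [mem_Lw] at hx
    rw [← hs x hx.1 hx.2.2, mul_sum, ← sum_filter]
    apply sum_congr _ fun _ _ => rfl
    ext w
    rw [mem_filter, mem_Lw, mem_Lw]
    constructor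
    · rintro ⟨h2, h3, h4⟩
      exact ⟨⟨h2, h3.trans hx.2.1, h4⟩, h3⟩
    · rintro ⟨⟨h2, _, h4⟩, h3⟩
      exact ⟨h2, h3, h4⟩
  rw [sum_congr rfl e1, sum_comm]
  refine sum_congr rfl fun w hw => ?_
  rw [mem_Lw] at hw
  have e2 : U + s - (V + s) = U - V := by ring
  rw [e2, ← sum_filter]
  have e3 : (Lw L r y).filter (fun x => w ≤ x) = L.filter fun z => w ≤ z ∧ z ≤ y := by
    ext x
    rw [mem_filter, mem_Lw, mem_filter]
    constructor
    · rintro ⟨⟨h2, h3, _⟩, h4⟩
      exact ⟨h2, h4, h3⟩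
    · rintro ⟨h2, h4, h3⟩
      exact ⟨⟨h2, h3, hw.2.2.trans (hS.mono' hw.1 h2 h4)⟩, h4⟩
  rw [e3, hS.sum_interval hw.1 hy hw.2.1 hw.2.2
    (fun k => s ^ (r y - k) * ((U - V) ^ (r w - 1) * V ^ (k - r w))), add_pow, mul_sum]
  refine sum_congr rfl fun k hk => ?_
  have hk' := mem_range.1 hk
  have e4 : r y - (r w + k) = r y - r w - k := by omega
  have e5 : r w + k - r w = k := by omega
  rw [e4, e5]
  ring

end

end Pool.Agent.Q142.TG
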