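import Pool.Agent.Q142.TG.Sys

/-!
# The toric g-polynomials of a system of faces
-/

set_option autoImplicit false
set_option linter.unusedSectionVars false

namespace Pool.Agent.Q142.TG

open Finset Polynomial
open LaurentPolynomial (T T_add)

/-- the toric g-polynomial in terms of the h-vector -/
noncomputable def gp (e : ℕ) (h : ℕ → ℤ) : ℤ[X] :=
  1 + ∑ m ∈ range (e / 2), (GG e h m : ℤ[X]) * X ^ (m + 1)

/-- its reverse -/
noncomputable def gr (e : ℕ) (h : ℕ → ℤ) : ℤ[X] :=
  X ^ (e + 1) + ∑ m ∈ range (e / 2), (GG e h m : ℤ[X]) * X ^ (e - m)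

theorem c1_one (e : ℕ) (h : ℕ → ℤ) :
    X * c1 (MM e h (1 : ℤ[X]) X) + (1 - X) ^ e = gp e h := by
  have h1 := c1_MM e h (1 : ℤ[X]) X
  unfold gp
  simpa using h1

theorem c1_X (e : ℕ) (h : ℕ → ℤ) :
    X * c1 (MM e h (X : ℤ[X]) 1) + X * (X - 1) ^ e = gr e h := by
  have h1 := c1_MM e h (X : ℤ[X]) 1
  unfold gr
  simpa using h1

theorem AA_comm {K : Type} [CommRing K] (p q : K) : AA p q = AA q p := by
  unfold AA
  rw [mul_comm p q]
  ring

theorem AA_ne : AA (1 : ℤ[X]) X ≠ 0 := by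
  intro h
  have h1 := congrArg c1 h
  unfold AA at h1
  rw [c1_zero, c1_add, c1_add, c1_add, c1_C_mul_T] at h1
  have h2 : c1 (T 1 : LaurentPolynomial ℤ[X]) = 1 := by
    unfold c1
    rw [LaurentPolynomial.T_apply]
    simp
  have h3 : ∀ a : ℤ[X], c1 (LaurentPolynomial.C a) = 0 := by
    intro a
    unfold c1
    rw [LaurentPolynomial.C_apply]
    simp
  rw [h2, h3, h3] at h1
  simp at h1

variable {β : Type} [PartialOrder β] {L : Finset β} {r : β → ℕ}

theorem pow_neg_aux {R : Type*} [CommRing R] (s : R) {a b : ℕ} (h : a ≤ b) :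
    s ^ (b - a) * (-s) ^ a = s ^ b * (-1) ^ a := by
  rw [neg_pow, mul_comm ((-1) ^ a) (s ^ a), ← mul_assoc, ← pow_add, Nat.sub_add_cancel h]

open Classical in
/-- **The basic identity.** -/
theorem Sys.main (hS : Sys L r) {H : β → ℕ → ℤ}
    (h0 : ∀ y ∈ L, 1 ≤ r y → H y 0 = 1)
    (hsym : ∀ y ∈ L, 1 ≤ r y → ∀ i, i ≤ r y - 1 → H y (r y - 1 - i) = H y i)
    (hH : ∀ y ∈ L, ∀ e, r y = e + 1 → ∀ i,
      ((L.filter fun x => x ≤ y ∧ r x = i + 1).card : ℤ) =
        ∑ j ∈ range (e + 1), H y j * (j.choose i : ℤ)) {y : β} (hy : y ∈ L) (h1 : 1 ≤ r y) :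
    ∑ x ∈ Lw L r y, (X - 1 : ℤ[X]) ^ (r y - r x) * gp (r x - 1) (H x) + (X - 1) ^ r y =
      gr (r y - 1) (H y) := by
  set s : ℤ[X] := X - 1 with hs
  -- Euler's relation
  have heul : ∀ {R : Type} [CommRing R], ∑ x ∈ Lw L r y, (-1 : R) ^ (r x - 1) = 1 := by
    intro R _
    have h2 := hS.f_to_h hy (e := r y - 1) (by omega) (hH y hy (r y - 1) (by omega)) (0 : R) 1
    rw [zero_sub] at h2
    simp only [one_pow, mul_one] at h2
    rw [h2]
    unfold Hh
    rw [sum_range_succ']
    rw [sum_eq_zero (fun i _ => by simp)]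
    rw [h0 y hy h1]
    simp
  -- the Laurent polynomials
  have hlau : ∑ x ∈ Lw L r y, LaurentPolynomial.C (s ^ (r y - r x)) *
      MM (r x - 1) (H x) (1 : ℤ[X]) X = MM (r y - 1) (H y) (X : ℤ[X]) 1 := by
    apply mul_left_cancel₀ AA_ne
    have e1 : AA (1 : ℤ[X]) X * MM (r y - 1) (H y) (X : ℤ[X]) 1 =
        (uu (X : ℤ[X]) - vv X 1) * (Hh (r y - 1) (H y) (uu (X : ℤ[X])) (vv X 1) -
          LaurentPolynomial.C (X - 1) ^ (r y - 1)) := by
      rw [AA_comm]
      exact A_MM (r y - 1) (H y) (h0 y hy h1) (hsym y hy h1) X 1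
    rw [e1, mul_sum]
    have e2 : ∀ x ∈ Lw L r y, AA (1 : ℤ[X]) X * (LaurentPolynomial.C (s ^ (r y - r x)) *
        MM (r x - 1) (H x) (1 : ℤ[X]) X) = (uu (1 : ℤ[X]) - vv 1 X) *
          (LaurentPolynomial.C s ^ (r y - r x) * Hh (r x - 1) (H x) (uu (1 : ℤ[X])) (vv 1 X) -
            LaurentPolynomial.C s ^ (r y - 1) * (-1) ^ (r x - 1)) := by
      intro x hx
      rw [mem_Lw] at hx
      have e3 := A_MM (r x - 1) (H x) (h0 x hx.1 hx.2.2) (hsym x hx.1 hx.2.2) (1 : ℤ[X]) X
      have e4 : LaurentPolynomial.C ((1 : ℤ[X]) - X) = -LaurentPolynomial.C s := by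
        rw [hs, ← map_neg, neg_sub]
      have hle := hS.mono' hx.1 hy hx.2.1
      have e5 := pow_neg_aux (LaurentPolynomial.C s) (by omega : r x - 1 ≤ r y - 1)
      have e6 : r y - 1 - (r x - 1) = r y - r x := by omega
      rw [e6] at e5
      rw [e4] at e3
      rw [map_pow, ← e5]
      linear_combination (LaurentPolynomial.C s ^ (r y - r x)) * e3
    rw [sum_congr rfl e2, ← mul_sum, sum_sub_distrib, ← mul_sum, heul, mul_one,
      hS.shift hH hy h1]
    have e7 : uu (1 : ℤ[X]) + LaurentPolynomial.C s = uu X := by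
      unfold uu
      rw [hs, map_sub]
      ring
    have e8 : vv (1 : ℤ[X]) X + LaurentPolynomial.C s = vv X 1 := by
      unfold vv
      rw [hs, map_sub, one_mul, mul_one]
      ring
    have e9 : uu (1 : ℤ[X]) - vv 1 X = uu X - vv X 1 := by
      rw [← e7, ← e8]
      ring
    rw [e7, e8, e9]
  have hc := congrArg c1 hlau
  rw [c1_sum] at hc
  rw [← c1_X, ← hc, mul_sum]
  have e10 : ∀ x ∈ Lw L r y, s ^ (r y - r x) * gp (r x - 1) (H x) =
      X * c1 (LaurentPolynomial.C (s ^ (r y - r x)) * MM (r x - 1) (H x) (1 : ℤ[X]) X) +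
        s ^ (r y - 1) * (-1) ^ (r x - 1) := by
    intro x hx
    rw [mem_Lw] at hx
    have hle := hS.mono' hx.1 hy hx.2.1
    have e5 := pow_neg_aux s (by omega : r x - 1 ≤ r y - 1)
    have e6 : r y - 1 - (r x - 1) = r y - r x := by omega
    rw [e6] at e5
    have e4 : (1 : ℤ[X]) - X = -s := by
      rw [hs]
      ring
    rw [c1_C_mul, ← e5, ← c1_one, e4]
    ring
  rw [sum_congr rfl e10, sum_add_distrib, ← mul_sum, ← mul_sum, heul, mul_one]
  have e11 : s ^ r y = s ^ (r y - 1) * s := by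
    rw [← pow_succ]
    congr 1
    omega
  rw [e11, hs]
  ring

/-- the truncation -/
noncomputable def trunc (e : ℕ) (f : ℤ[X]) : ℤ[X] :=
  ∑ i ∈ range (e / 2 + 1), C (f.coeff i - if i = 0 then 0 else f.coeff (i - 1)) * X ^ i

theorem trunc_eq {e : ℕ} {h : ℕ → ℤ} {f : ℤ[X]} (hf : (X - 1) * f = gr e h - gp e h) :
    trunc e f = gp e h := by
  have h1 : ∀ i, f.coeff i - (if i = 0 then 0 else f.coeff (i - 1)) = (gp e h - gr e h).coeff i := by
    intro i
    have h2 : gp e h - gr e h = f - X * f := by linear_combination hf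
    rw [h2, coeff_sub]
    congr 1
    cases i with
    | zero => simp
    | succ i => simp [coeff_X_mul]
  have h3 : ∀ i, i < e / 2 + 1 → (gr e h).coeff i = 0 := by
    intro i hi
    unfold gr
    rw [coeff_add, coeff_X_pow, if_neg (by omega), zero_add, finsetSum_coeff]
    refine sum_eq_zero fun m hm => ?_
    have hm' := mem_range.1 hm
    rw [← C_eq_intCast, Polynomial.coeff_C_mul, coeff_X_pow, if_neg (by omega), mul_zero]
  have h4 : (gp e h).natDegree < e / 2 + 1 := by
    rw [Nat.lt_succ_iff]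
    unfold gp
    apply (natDegree_add_le _ _).trans
    apply max_le
    · simp
    · apply natDegree_sum_le_of_forall_le
      intro m hm
      have hm' := mem_range.1 hm
      rw [← C_eq_intCast]
      exact (natDegree_C_mul_X_pow_le _ _).trans (by omega)
  unfold trunc
  rw [as_sum_range_C_mul_X_pow' (gp e h) h4]
  refine sum_congr rfl fun i hi => ?_
  rw [h1, coeff_sub, h3 i (mem_range.1 hi), sub_zero]

open Classical in
/-- the toric g-polynomials of the faces; the recursion is stopped at depth `n` -/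
noncomputable def tg (L : Finset β) (r : β → ℕ) : ℕ → β → ℤ[X]
  | 0, _ => 1
  | n + 1, y => if r y = 0 then 1 else
      trunc (r y - 1) (∑ x ∈ L.filter (fun x => x < y), tg L r n x * (X - 1) ^ (r y - 1 - r x))

open Classical in
/-- **The toric g-polynomials of simple face systems.** -/
theorem Sys.tg_eq (hS : Sys L r) {H : β → ℕ → ℤ}
    (h0 : ∀ y ∈ L, 1 ≤ r y → H y 0 = 1)
    (hsym : ∀ y ∈ L, 1 ≤ r y → ∀ i, i ≤ r y - 1 → H y (r y - 1 - i) = H y i)
    (hH : ∀ y ∈ L, ∀ e, r y = e + 1 → ∀ i,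
      ((L.filter fun x => x ≤ y ∧ r x = i + 1).card : ℤ) =
        ∑ j ∈ range (e + 1), H y j * (j.choose i : ℤ)) :
    ∀ (n : ℕ) (y : β), y ∈ L → r y ≤ n → tg L r n y = if r y = 0 then 1 else gp (r y - 1) (H y) := by
  intro n
  induction n with
  | zero =>
    intro y _ hn
    rw [if_pos (by omega)]
    rfl
  | succ n ih =>
    intro y hy hn
    by_cases hr : r y = 0
    · rw [if_pos hr, tg, if_pos hr]
    · rw [if_neg hr, tg, if_neg hr]
      apply trunc_eq
      have h1 : 1 ≤ r y := by omega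
      rw [← hS.main h0 hsym hH hy h1]
      obtain ⟨b, hb, hb0, hble⟩ := hS.bot
      have hby : b ≠ y := by
        rintro rfl
        exact hr hb0
      have e1 : L.filter (fun x => x < y) = insert b ((Lw L r y).erase y) := by
        ext x
        rw [mem_filter, mem_insert, mem_erase, mem_Lw]
        constructor
        · rintro ⟨h2, h3⟩
          by_cases h4 : r x = 0
          · exact Or.inl (hS.rk0 x h2 b hb h4 hb0)
          · exact Or.inr ⟨h3.ne, h2, h3.le, by omega⟩
        · rintro (rfl | ⟨h2, h3, h4, h5⟩)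
          · exact ⟨hb, lt_of_le_of_ne (hble y hy) hby⟩
          · exact ⟨h3, lt_of_le_of_ne h4 h2⟩
      have e2 : b ∉ (Lw L r y).erase y := by
        rw [mem_erase, mem_Lw]
        rintro ⟨_, _, _, h5⟩
        omega
      rw [e1, sum_insert e2, ih b hb (by omega), if_pos hb0, hb0, Nat.sub_zero, one_mul, mul_add,
        mul_sum]
      have e3 : ∀ x ∈ (Lw L r y).erase y, (X - 1 : ℤ[X]) * (tg L r n x * (X - 1) ^ (r y - 1 - r x)) =
          (X - 1) ^ (r y - r x) * gp (r x - 1) (H x) := by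
        intro x hx
        rw [mem_erase, mem_Lw] at hx
        obtain ⟨h2, h3, h4, h5⟩ := hx
        have h6 := hS.mono x h3 y hy (lt_of_le_of_ne h4 h2)
        rw [ih x h3 (by omega), if_neg (by omega)]
        have e4 : r y - r x = r y - 1 - r x + 1 := by omega
        rw [e4, pow_succ]
        ring
      have e5 : (X - 1 : ℤ[X]) * (X - 1) ^ (r y - 1) = (X - 1) ^ r y := by
        rw [← pow_succ']
        congr 1
        omega
      have e6 : y ∈ Lw L r y := mem_Lw.2 ⟨hy, le_rfl, h1⟩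
      rw [sum_congr rfl e3, e5, ← add_sum_erase _ _ e6, Nat.sub_self, pow_zero, one_mul]
      ring

end Pool.Agent.Q142.TG
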