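import Pool.Agent.Q142.TG.HVec
import Pool.Agent.Q142.TG.Toric
import Pool.Agent.H63R3.Sep1

/-!
# The system of faces of a simple polytope
-/

set_option autoImplicit false
set_option linter.unusedSectionVars false

namespace Pool.Agent.Q142.TG

open Finset
open Pool.Agent.Helper715
open Pool.Agent.H63R3.Sep

variable {d : ℕ} {S : Finset (EuclideanSpace ℝ (Fin d))}
  {P : CP (WithLp 2 (EuclideanSpace ℝ (Fin d) × ℝ))}

open Classical in
/-- the rank of a face: zero for the empty face, the dimension plus one for all other faces -/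
noncomputable def rk (F : Set (EuclideanSpace ℝ (Fin d))) : ℕ :=
  if F = ∅ then 0 else Module.finrank ℝ (affineSpan ℝ F).direction + 1

theorem rk_empty : rk (∅ : Set (EuclideanSpace ℝ (Fin d))) = 0 := by
  classical
  exact if_pos rfl

theorem rk_ne {F : Set (EuclideanSpace ℝ (Fin d))} (h : F.Nonempty) :
    rk F = Module.finrank ℝ (affineSpan ℝ F).direction + 1 := by
  classical
  exact if_neg h.ne_empty

theorem ne_of_rk {F : Set (EuclideanSpace ℝ (Fin d))} (h : 1 ≤ rk F) : F.Nonempty := by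
  rw [Set.nonempty_iff_ne_empty]
  rintro rfl
  rw [rk_empty] at h
  omega

open Classical in
/-- the finite set of all faces, with the empty face -/
noncomputable def LL (P : CP (WithLp 2 (EuclideanSpace ℝ (Fin d) × ℝ)))
    (S : Finset (EuclideanSpace ℝ (Fin d))) : Finset (Set (EuclideanSpace ℝ (Fin d))) :=
  insert ∅ (((Fs P).filter fun A => 1 ≤ dm A).image (toF P S))

variable (hP : (P.V : Set (WithLp 2 (EuclideanSpace ℝ (Fin d) × ℝ))) =
  hm '' (S : Set (EuclideanSpace ℝ (Fin d))))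
include hP

theorem rk_eq {F : Set (EuclideanSpace ℝ (Fin d))}
    (hF : IsExposed ℝ (convexHull ℝ (S : Set (EuclideanSpace ℝ (Fin d)))) F) (hne : F.Nonempty) :
    rk F = dm (toA P F) := by
  rw [rk_ne hne, dm_toA hP hF hne]

theorem mem_LL {F : Set (EuclideanSpace ℝ (Fin d))} :
    F ∈ LL P S ↔ IsExposed ℝ (convexHull ℝ (S : Set (EuclideanSpace ℝ (Fin d)))) F := by
  classical
  unfold LL
  rw [mem_insert, mem_image]
  constructor
  · rintro (rfl | ⟨A, _, rfl⟩)
    · intro h
      exact absurd h Set.not_nonempty_empty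
    · exact toF_exposed hP A
  · intro hF
    rcases F.eq_empty_or_nonempty with h | hne
    · exact Or.inl h
    · refine Or.inr ⟨toA P F, mem_filter.2 ⟨mem_Fs.2 (toA_cl hP hF hne), ?_⟩, toF_toA hP hF hne⟩
      rw [dm_toA hP hF hne]
      omega

/-- transfer of cardinalities -/
theorem card_tr (p : Finset (WithLp 2 (EuclideanSpace ℝ (Fin d) × ℝ)) → Prop) (ip : DecidablePred p)
    (q : Set (EuclideanSpace ℝ (Fin d)) → Prop) (iq : DecidablePred q)
    (hp : ∀ A, p A → 1 ≤ dm A)
    (hq : ∀ z, IsExposed ℝ (convexHull ℝ (S : Set (EuclideanSpace ℝ (Fin d)))) z →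
      (q z ↔ z.Nonempty ∧ p (toA P z))) :
    ((LL P S).filter q).card = ((Fs P).filter p).card := by
  refine card_bij (fun z _ => toA P z) ?_ ?_ ?_
  · intro z hz
    rw [mem_filter, mem_LL hP] at hz
    have h1 := (hq z hz.1).1 hz.2
    exact mem_filter.2 ⟨mem_Fs.2 (toA_cl hP hz.1 h1.1), h1.2⟩
  · intro z hz z' hz' h
    rw [mem_filter, mem_LL hP] at hz hz'
    have h1 := (hq z hz.1).1 hz.2
    have h2 := (hq z' hz'.1).1 hz'.2
    rw [← toF_toA hP hz.1 h1.1, ← toF_toA hP hz'.1 h2.1]
    exact congrArg (toF P S) h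
  · intro A hA
    rw [mem_filter, mem_Fs] at hA
    refine ⟨toF P S A, ?_, toA_toF hP hA.1⟩
    rw [mem_filter, mem_LL hP]
    refine ⟨toF_exposed hP A, (hq _ (toF_exposed hP A)).2 ⟨toF_nonempty hP hA.1 (hp A hA.2), ?_⟩⟩
    rw [toA_toF hP hA.1]
    exact hA.2

/-- the number of two-dimensional faces through a ray -/
theorem Ed_card (hS : ∀ x : Node S, {F | IsEdge S F ∧ x.1 ∈ F}.ncard = d) (a : P.Lev 1) :
    (Ed a).card = d := by
  classical
  obtain ⟨x, hx⟩ := ph_surj (S := S) hP (a.cov (B := P.V) a.cl.sub)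
  refine Eq.trans ?_ (hS x)
  have hcoe : {F | IsEdge S F ∧ x.1 ∈ F} =
      (((Ed a).image fun c => toF P S c.1 : Finset (Set (EuclideanSpace ℝ (Fin d)))) :
        Set (Set (EuclideanSpace ℝ (Fin d)))) := by
    ext F
    rw [Set.mem_ofPred_eq, mem_coe, mem_image]
    constructor
    · rintro ⟨⟨hF, hdim⟩, hxF⟩
      have hne : F.Nonempty := ⟨_, hxF⟩
      have h2 := dm_toA hP hF hne
      rw [hdim] at h2
      refine ⟨⟨toA P F, toA_cl hP hF hne, h2⟩, mem_Ed.2 ?_, toF_toA hP hF hne⟩
      rw [← hx]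
      exact toA_mono hP (Set.singleton_subset_iff.2 hxF)
    · rintro ⟨c, hc, rfl⟩
      have hne := toF_nonempty (S := S) hP c.cl (by rw [c.dim]; norm_num)
      have hex := toF_exposed (S := S) hP c.1
      have h2 := dm_toA hP hex hne
      rw [toA_toF hP c.cl, c.dim] at h2
      refine ⟨⟨hex, by omega⟩, ?_⟩
      rw [mem_Ed, ← hx] at hc
      have h3 := toF_mono (S := S) hP hc
      rw [ph, toF_toA hP x.2 (Set.singleton_nonempty _)] at h3
      exact h3 rfl
  rw [hcoe, Set.ncard_coe_finset, card_image_of_injOn]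
  intro c _ c' _ h
  have h' : toF P S c.1 = toF P S c'.1 := h
  have h2 := congrArg (toA P) h'
  rw [toA_toF hP c.cl, toA_toF hP c'.cl] at h2
  exact Subtype.ext h2

open Classical in
/-- **The faces of a simple polytope form a system.** -/
theorem sys_poly (hS : ∀ x : Node S, {F | IsEdge S F ∧ x.1 ∈ F}.ncard = d) :
    Sys (LL P S) (rk (d := d)) := by
  have hW : Module.finrank ℝ (WithLp 2 (EuclideanSpace ℝ (Fin d) × ℝ)) = d + 1 := by
    rw [finrank_hm]
    simp
  have hd := Ed_card hP hS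
  refine ⟨⟨∅, (mem_LL hP).2 (fun h => absurd h Set.not_nonempty_empty), rk_empty,
    fun y _ => Set.empty_subset y⟩, ?_, ?_, ?_, ?_⟩
  · intro x _ y _ hx hy
    have h1 : ∀ z : Set (EuclideanSpace ℝ (Fin d)), rk z = 0 → z = ∅ := by
      intro z hz
      rcases z.eq_empty_or_nonempty with h | h
      · exact h
      · rw [rk_ne h] at hz
        omega
    rw [h1 x hx, h1 y hy]
  · intro x hx y hy hxy
    rw [mem_LL hP] at hx hy
    have hyne : y.Nonempty := by
      obtain ⟨z, hz, _⟩ := Set.exists_of_ssubset hxy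
      exact ⟨z, hz⟩
    rcases x.eq_empty_or_nonempty with h | hxne
    · rw [h, rk_empty, rk_ne hyne]
      omega
    · rw [rk_eq hP hx hxne, rk_eq hP hy hyne]
      have h1 := toA_mono hP hxy.subset
      refine lt_of_le_of_ne (dm_mono h1) ?_
      intro h2
      have h3 := CP.eq_of_dm_le (toA_cl hP hx hxne) (toA_cl hP hy hyne) h1 h2.ge
      have h4 := toF_toA hP hx hxne
      rw [h3, toF_toA hP hy hyne] at h4
      exact hxy.ne h4.symm
  · intro x hx y hy hxy h1 k
    rw [mem_LL hP] at hx hy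
    have hxne := ne_of_rk h1
    have hyne : y.Nonempty := hxne.mono hxy
    have h2 := card_interval hW hd (toA_cl hP hx hxne) (toA_cl hP hy hyne) (toA_mono hP hxy)
      (by rw [← rk_eq hP hx hxne]; exact h1) k
    rw [← rk_eq hP hx hxne, ← rk_eq hP hy hyne] at h2
    rw [← h2]
    refine card_tr hP _ _ _ _ (fun A hA => ?_) fun z hz => ?_
    · have := dm_mono hA.1
      rw [← rk_eq hP hx hxne] at this
      omega
    constructor
    · rintro ⟨h3, h4, h5⟩
      have hzne : z.Nonempty := hxne.mono h3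
      exact ⟨hzne, toA_mono hP h3, toA_mono hP h4, by rw [← rk_eq hP hz hzne]; exact h5⟩
    · rintro ⟨hzne, h3, h4, h5⟩
      exact ⟨(sub_iff hP hx hxne hz hzne).1 h3, (sub_iff hP hz hzne hy hyne).1 h4,
        by rw [rk_eq hP hz hzne]; exact h5⟩
  · intro y hy e he
    rw [mem_LL hP] at hy
    have hyne : y.Nonempty := ne_of_rk (by omega)
    obtain ⟨h, h0, hs, _, hf⟩ := exists_h hW hd (toA_cl hP hy hyne) (e := e)
      (by rw [← rk_eq hP hy hyne]; exact he)
    refine ⟨h, h0, hs, fun i => ?_⟩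
    rw [← hf i]
    congr 1
    refine card_tr hP _ _ _ _ (fun A hA => ?_) fun z hz => ?_
    · have := hA.2
      omega
    constructor
    · rintro ⟨h3, h5⟩
      have hzne : z.Nonempty := ne_of_rk (by omega)
      exact ⟨hzne, toA_mono hP h3, by rw [← rk_eq hP hz hzne]; exact h5⟩
    · rintro ⟨hzne, h3, h5⟩
      exact ⟨(sub_iff hP hz hzne hy hyne).1 h3, by rw [rk_eq hP hz hzne]; exact h5⟩

end Pool.Agent.Q142.TG
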